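import Pool.Agent.L7h71.FP.Stm2

set_option autoImplicit false

/-!
Parts IND and IDX: double cosets.
-/

namespace Pool.Agent.L7h71.FP

open Set Filter MeasureTheory
open Pool.Agent.L7h7.FP (cont_ev cont_evB)

theorem polish_cantor : PolishSpace (ℕ → Bool) := by
  have t1 : TopologicalSpace.IsCompletelyMetrizableSpace (ℕ → Bool) := inferInstance
  have t2 : TopologicalSpace.SeparableSpace (ℕ → Bool) := inferInstance
  exact @instPolishSpaceOfSeparableSpaceOfIsCompletelyMetrizableSpace _ _ t2 t1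

theorem isClosed_clo {X : Type} [TopologicalSpace X] (G : PG) {f : X → ℕ → ℕ}
    (hf : Continuous f) : IsClosed {q | ∀ s : Finset ℕ, ∃ h ∈ G, ∀ i ∈ s, h i = f q i} := by
  have e : {q | ∀ s : Finset ℕ, ∃ h ∈ G, ∀ i ∈ s, h i = f q i} =
      ⋂ s : Finset ℕ, {q | ∃ h ∈ G, ∀ i ∈ s, h i = f q i} := by
    ext q
    simp only [mem_ofPred_eq, mem_iInter]
  rw [e]
  refine isClosed_iInter fun s => ?_
  have h1 : Continuous fun q : X => (fun i : s => f q i) := by
    rw [continuous_pi_iff]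
    intro j
    exact (continuous_apply j.1).comp hf
  have h2 : {q : X | ∃ h ∈ G, ∀ i ∈ s, h i = f q i} =
      (fun q : X => (fun i : s => f q i)) ⁻¹' {w | ∃ h ∈ G, ∀ i : s, h i = w i} := by
    ext q
    constructor
    · rintro ⟨h, h1, h2⟩
      exact ⟨h, h1, fun i => h2 i.1 i.2⟩
    · rintro ⟨h, h1, h2⟩
      exact ⟨h, h1, fun i hi => h2 ⟨i, hi⟩⟩
  rw [h2]
  exact (isClosed_discrete _).preimage h1

theorem isClosed_inv {X : Type} [TopologicalSpace X] {f g : X → ℕ → ℕ}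
    (hf : Continuous f) (hg : Continuous g) :
    IsClosed {q | (∀ n, f q (g q n) = n) ∧ ∀ n, g q (f q n) = n} := by
  have e : {q | (∀ n, f q (g q n) = n) ∧ ∀ n, g q (f q n) = n} =
      (⋂ n, {q | f q (g q n) = n}) ∩ ⋂ n, {q | g q (f q n) = n} := by
    ext q
    simp only [mem_ofPred_eq, mem_inter_iff, mem_iInter]
  rw [e]
  refine IsClosed.inter (isClosed_iInter fun n => ?_) (isClosed_iInter fun n => ?_)
  · exact isClosed_eq (cont_ev hf ((continuous_apply n).comp hg)) continuous_const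
  · exact isClosed_eq (cont_ev hg ((continuous_apply n).comp hf)) continuous_const

theorem analytic_dc {G K : PG} (hG : Clo G) (hK : Clo K) {σ : (ℕ → Bool) → Equiv.Perm ℕ}
    (hσ : CFam σ) :
    AnalyticSet {p : (ℕ → Bool) × (ℕ → Bool) | ∃ g ∈ G, ∃ k ∈ K, σ p.2 = g * σ p.1 * k} := by
  let X := ((ℕ → Bool) × (ℕ → Bool)) × (((ℕ → ℕ) × (ℕ → ℕ)) × ((ℕ → ℕ) × (ℕ → ℕ)))
  let D : Set X :=
    {q | ((∀ n, q.2.1.1 (q.2.1.2 n) = n) ∧ (∀ n, q.2.1.2 (q.2.1.1 n) = n))} ∩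
    {q | ((∀ n, q.2.2.1 (q.2.2.2 n) = n) ∧ (∀ n, q.2.2.2 (q.2.2.1 n) = n))} ∩
    {q | ∀ s : Finset ℕ, ∃ h ∈ G, ∀ i ∈ s, h i = q.2.1.1 i} ∩
    {q | ∀ s : Finset ℕ, ∃ h ∈ K, ∀ i ∈ s, h i = q.2.2.1 i} ∩
    {q | ∀ n, σ q.1.2 n = q.2.1.1 (σ q.1.1 (q.2.2.1 n))}
  have hc1 : Continuous fun q : X => q.2.1.1 :=
    continuous_fst.comp (continuous_fst.comp continuous_snd)
  have hc2 : Continuous fun q : X => q.2.1.2 :=
    continuous_snd.comp (continuous_fst.comp continuous_snd)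
  have hc3 : Continuous fun q : X => q.2.2.1 :=
    continuous_fst.comp (continuous_snd.comp continuous_snd)
  have hc4 : Continuous fun q : X => q.2.2.2 :=
    continuous_snd.comp (continuous_snd.comp continuous_snd)
  have hD : IsClosed D := by
    refine ((((isClosed_inv hc1 hc2).inter (isClosed_inv hc3 hc4)).inter
      (isClosed_clo G hc1)).inter (isClosed_clo K hc3)).inter ?_
    have e : {q : X | ∀ n, σ q.1.2 n = q.2.1.1 (σ q.1.1 (q.2.2.1 n))} =
        ⋂ n, {q : X | σ q.1.2 n = q.2.1.1 (σ q.1.1 (q.2.2.1 n))} := by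
      ext q
      simp only [mem_ofPred_eq, mem_iInter]
    rw [e]
    refine isClosed_iInter fun n => isClosed_eq ?_ ?_
    · exact (continuous_apply n).comp (hσ.1.comp (continuous_snd.comp continuous_fst))
    · refine cont_ev hc1 (cont_ev (hσ.1.comp (continuous_fst.comp continuous_fst)) ?_)
      exact (continuous_apply n).comp hc3
  have e2 : {p : (ℕ → Bool) × (ℕ → Bool) | ∃ g ∈ G, ∃ k ∈ K, σ p.2 = g * σ p.1 * k} =
      Prod.fst '' D := by
    ext p
    constructor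
    · rintro ⟨g, hg, k, hk, h1⟩
      refine ⟨(p, ((⇑g, ⇑g.symm), (⇑k, ⇑k.symm))), ⟨⟨⟨⟨⟨fun n => g.apply_symm_apply n,
        fun n => g.symm_apply_apply n⟩, ⟨fun n => k.apply_symm_apply n,
        fun n => k.symm_apply_apply n⟩⟩, fun s => ⟨g, hg, fun _ _ => rfl⟩⟩,
        fun s => ⟨k, hk, fun _ _ => rfl⟩⟩, fun n => ?_⟩, rfl⟩
      show σ p.2 n = g (σ p.1 (k n))
      rw [h1]; rfl
    · rintro ⟨q, ⟨⟨⟨⟨⟨h1, h2⟩, ⟨h3, h4⟩⟩, h5⟩, h6⟩, h7⟩, rfl⟩
      refine ⟨⟨q.2.1.1, q.2.1.2, h2, h1⟩, hG _ h5, ⟨q.2.2.1, q.2.2.2, h4, h3⟩, hK _ h6, ?_⟩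
      ext n
      exact h7 n
  rw [e2]
  have t3 : PolishSpace (ℕ → Bool) := polish_cantor
  have t4 : PolishSpace (ℕ → ℕ) := inferInstance
  exact hD.analyticSet.image_of_continuous continuous_fst

theorem CFam.comp {σ : (ℕ → Bool) → Equiv.Perm ℕ} (hσ : CFam σ) {h : (ℕ → Bool) → ℕ → Bool}
    (hh : Continuous h) : CFam fun b => σ (h b) := ⟨hσ.1.comp hh, hσ.2.comp hh⟩

theorem s_ind : S_IND := by
  intro G K hG hK σ hσ hc
  obtain ⟨h, h1, h2⟩ := Pool.Agent.H566W.perfect_independent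
    (fun c d => ∃ g ∈ G, ∃ k ∈ K, σ d = g * σ c * k) (analytic_dc hG hK hσ) hc
  refine ⟨fun b => σ (h b), hσ.comp h1, fun c d hcd => ?_⟩
  by_contra hne
  exact h2 c d hne hcd

/-! ### stabilisers of finite sets have countable index -/

/-- the restriction to a finite set, as a countable type -/
theorem countable_res (D : Set ℕ) (hD : D.Finite) :
    (Set.range fun g : Equiv.Perm ℕ => D.domRestrict g).Countable := by
  haveI : Finite D := hD
  exact Set.countable_univ.mono (subset_univ _)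

theorem st_coset {G : PG} {D : Set ℕ} {g h : Equiv.Perm ℕ} (hg : g ∈ G) (hh : h ∈ G)
    (he : D.domRestrict g = D.domRestrict h) : h⁻¹ * g ∈ st G D := by
  refine ⟨G.mul_mem (G.inv_mem hh) hg, fun i hi => ?_⟩
  have h1 : g i = h i := congrFun he ⟨i, hi⟩
  rw [Equiv.Perm.mul_apply, h1]; simp

theorem s_idx : S_IDX := by
  intro G K hG hK D E hD hE
  constructor
  · rintro ⟨f, hf⟩
    refine ⟨f, fun σ => ?_⟩
    obtain ⟨n, g, hg, k, hk, h⟩ := hf σ
    exact ⟨n, g, hg.1, k, hk.1, h⟩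
  · rintro ⟨σ, hσ, hc⟩
    refine s_ind G K hG hK σ hσ fun c => ?_
    haveI : Finite D := hD
    haveI : Finite E := hE
    -- the set injects into the pairs of restrictions
    classical
    have hch : ∀ d : {d | ∃ g ∈ G, ∃ k ∈ K, σ d = g * σ c * k}, ∃ p : Equiv.Perm ℕ × Equiv.Perm ℕ,
        p.1 ∈ G ∧ p.2 ∈ K ∧ σ d.1 = p.1 * σ c * p.2 := by
      rintro ⟨d, g, hg, k, hk, h⟩
      exact ⟨(g, k), hg, hk, h⟩
    choose p hp1 hp2 hp3 using hch
    rw [Set.countable_iff_exists_injective]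
    have hinj : Function.Injective fun d : {d | ∃ g ∈ G, ∃ k ∈ K, σ d = g * σ c * k} =>
        ((D.domRestrict ⇑((p d).1)⁻¹ : D → ℕ), (E.domRestrict ⇑(p d).2 : E → ℕ)) := by
      intro d d' hdd
      simp only [Prod.mk.injEq] at hdd
      obtain ⟨h1, h2⟩ := hdd
      have h3 := st_coset (G.inv_mem (hp1 d)) (G.inv_mem (hp1 d')) h1
      have h4 := st_coset (hp2 d') (hp2 d) h2.symm
      apply Subtype.ext
      apply hc
      refine ⟨_, h3, _, h4, ?_⟩
      rw [hp3 d, hp3 d']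
      group
    haveI : Countable ((D → ℕ) × (E → ℕ)) := inferInstance
    obtain ⟨e, he⟩ := exists_injective_nat ((D → ℕ) × (E → ℕ))
    exact ⟨_, he.comp hinj⟩

end Pool.Agent.L7h71.FP
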