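import Mathlib

set_option autoImplicit false

/-!
Groups of permutations of `ℕ`: stabilisers, orbits, algebraic closure.
-/

namespace Pool.Agent.L7h71.FP

open Set Filter

/-- groups of permutations -/
abbrev PG : Type := Subgroup (Equiv.Perm ℕ)

/-- the pointwise stabiliser -/
def st (G : PG) (s : Set ℕ) : PG where
  carrier := {g | g ∈ G ∧ ∀ i ∈ s, g i = i}
  mul_mem' := by
    rintro a b ⟨ha, ha'⟩ ⟨hb, hb'⟩
    refine ⟨G.mul_mem ha hb, fun i hi => ?_⟩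
    rw [Equiv.Perm.mul_apply, hb' i hi, ha' i hi]
  one_mem' := ⟨G.one_mem, fun _ _ => rfl⟩
  inv_mem' := by
    rintro a ⟨ha, ha'⟩
    refine ⟨G.inv_mem ha, fun i hi => ?_⟩
    rw [Equiv.Perm.inv_eq_iff_eq, ha' i hi]

theorem mem_st {G : PG} {s : Set ℕ} {g : Equiv.Perm ℕ} :
    g ∈ st G s ↔ g ∈ G ∧ ∀ i ∈ s, g i = i := Iff.rfl

theorem st_le (G : PG) (s : Set ℕ) : st G s ≤ G := fun _ h => h.1

theorem st_anti (G : PG) {s r : Set ℕ} (h : s ⊆ r) : st G r ≤ st G s :=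
  fun _ hg => ⟨hg.1, fun i hi => hg.2 i (h hi)⟩

theorem st_st (G : PG) (s r : Set ℕ) : st (st G s) r = st G (s ∪ r) := by
  ext g
  simp only [mem_st]
  constructor
  · rintro ⟨⟨h1, h2⟩, h3⟩
    exact ⟨h1, fun i hi => hi.elim (h2 i) (h3 i)⟩
  · rintro ⟨h1, h2⟩
    exact ⟨⟨h1, fun i hi => h2 i (Or.inl hi)⟩, fun i hi => h2 i (Or.inr hi)⟩

theorem st_empty (G : PG) : st G ∅ = G := by
  ext g; simp [mem_st]

/-- the orbit of a point -/
def O (G : PG) (x : ℕ) : Set ℕ := {y | ∃ g ∈ G, g x = y}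

theorem O_refl (G : PG) (x : ℕ) : x ∈ O G x := ⟨1, G.one_mem, rfl⟩

theorem O_symm {G : PG} {x y : ℕ} (h : y ∈ O G x) : x ∈ O G y := by
  obtain ⟨g, hg, rfl⟩ := h
  exact ⟨g⁻¹, G.inv_mem hg, by simp⟩

theorem O_trans {G : PG} {x y z : ℕ} (h : y ∈ O G x) (h' : z ∈ O G y) : z ∈ O G x := by
  obtain ⟨g, hg, rfl⟩ := h
  obtain ⟨g', hg', rfl⟩ := h'
  exact ⟨g' * g, G.mul_mem hg' hg, rfl⟩

theorem O_eq {G : PG} {x y : ℕ} (h : y ∈ O G x) : O G y = O G x := by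
  ext z
  exact ⟨fun h' => O_trans h h', fun h' => O_trans (O_symm h) h'⟩

theorem O_mono {G H : PG} (h : H ≤ G) (x : ℕ) : O H x ⊆ O G x := by
  rintro _ ⟨g, hg, rfl⟩
  exact ⟨g, h hg, rfl⟩

theorem O_conj {G : PG} {g : Equiv.Perm ℕ} (hg : g ∈ G) (s : Set ℕ) (x : ℕ) :
    g '' O (st G s) x = O (st G (g '' s)) (g x) := by
  ext z
  constructor
  · rintro ⟨_, ⟨h, hh, rfl⟩, rfl⟩
    refine ⟨g * h * g⁻¹, ⟨G.mul_mem (G.mul_mem hg hh.1) (G.inv_mem hg), ?_⟩, by simp⟩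
    rintro _ ⟨i, hi, rfl⟩
    simp [hh.2 i hi]
  · rintro ⟨h, hh, rfl⟩
    refine ⟨(g⁻¹ * h * g) x, ⟨g⁻¹ * h * g, ⟨G.mul_mem (G.mul_mem (G.inv_mem hg) hh.1) hg, ?_⟩, rfl⟩,
      by simp⟩
    intro i hi
    have := hh.2 (g i) ⟨i, hi, rfl⟩
    simp [this]

/-- the algebraic closure: the points in finite orbits of the stabiliser -/
def acl (G : PG) (s : Set ℕ) : Set ℕ := {x | (O (st G s) x).Finite}

/-- all stabilisers of finite sets have finitely many orbits -/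
def Oli (G : PG) : Prop := ∀ s : Set ℕ, s.Finite → {X | ∃ x, X = O (st G s) x}.Finite

theorem Oli.st {G : PG} (h : Oli G) {s : Set ℕ} (hs : s.Finite) : Oli (st G s) := by
  intro r hr
  have := h (s ∪ r) (hs.union hr)
  rw [st_st]
  exact this

theorem acl_st (G : PG) (s r : Set ℕ) : acl (st G s) r = acl G (s ∪ r) := by
  unfold acl; rw [st_st]

theorem subset_acl (G : PG) (s : Set ℕ) : s ⊆ acl G s := by
  intro x hx
  show (O (st G s) x).Finite
  refine (Set.finite_singleton x).subset ?_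
  rintro _ ⟨g, hg, rfl⟩
  exact hg.2 x hx

theorem acl_mono (G : PG) {s r : Set ℕ} (h : s ⊆ r) : acl G s ⊆ acl G r := by
  intro x hx
  exact Set.Finite.subset hx (O_mono (st_anti G h) x)

theorem acl_conj {G : PG} {g : Equiv.Perm ℕ} (hg : g ∈ G) (s : Set ℕ) :
    g '' acl G s = acl G (g '' s) := by
  ext z
  constructor
  · rintro ⟨x, hx, rfl⟩
    show (O (st G (g '' s)) (g x)).Finite
    rw [← O_conj hg]
    exact Set.Finite.image _ hx
  · intro hz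
    refine ⟨g⁻¹ z, ?_, by simp⟩
    have h1 : (O (st G (g '' s)) z).Finite := hz
    have h2 : z = g (g⁻¹ z) := by simp
    rw [h2, ← O_conj hg] at h1
    exact Set.Finite.of_finite_image h1 g.injective.injOn

theorem O_acl {G : PG} {s : Set ℕ} {x y : ℕ} (hx : x ∈ acl G s) (h : y ∈ O (st G s) x) :
    y ∈ acl G s := by
  show (O (st G s) y).Finite
  rw [O_eq h]; exact hx

theorem acl_of_inv {G : PG} {s Z : Set ℕ} (hZ : Z.Finite)
    (h : ∀ g ∈ st G s, ∀ z ∈ Z, g z ∈ Z) : Z ⊆ acl G s := by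
  intro z hz
  refine hZ.subset ?_
  rintro _ ⟨g, hg, rfl⟩
  exact h g hg z hz

theorem acl_finite {G : PG} (hG : Oli G) {s : Set ℕ} (hs : s.Finite) : (acl G s).Finite := by
  have h1 := hG s hs
  have h2 : acl G s ⊆ ⋃₀ ({X | ∃ x, X = O (st G s) x} ∩ {X | X.Finite}) := by
    intro x hx
    exact ⟨O (st G s) x, ⟨⟨x, rfl⟩, hx⟩, O_refl _ x⟩
  refine Set.Finite.subset ?_ h2
  exact Set.Finite.sUnion (h1.inter_of_left _) fun X hX => hX.2

theorem acl_acl {G : PG} (hG : Oli G) {s : Set ℕ} (hs : s.Finite) :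
    acl G (acl G s) = acl G s := by
  refine Subset.antisymm ?_ (acl_mono G (subset_acl G s))
  intro x hx
  have hA : (acl G s).Finite := acl_finite hG hs
  have hx' : (O (st G (acl G s)) x).Finite := hx
  haveI : Finite (acl G s) := hA
  -- the restriction of a member of the stabiliser to the closure
  let ρ : st G s → (acl G s → acl G s) := fun g a => ⟨g.1 a.1, O_acl a.2 ⟨g.1, g.2, rfl⟩⟩
  have h3 : O (st G s) x ⊆ ⋃ f ∈ Set.range ρ, ⋃ (g : st G s) (_ : g = Function.invFun ρ f),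
      g.1 '' O (st G (acl G s)) x := by
    rintro _ ⟨g, hg, rfl⟩
    refine Set.mem_biUnion (x := ρ ⟨g, hg⟩) ⟨_, rfl⟩ ?_
    refine Set.mem_iUnion₂.2 ⟨_, rfl, ?_⟩
    have h4 : ρ (Function.invFun ρ (ρ ⟨g, hg⟩)) = ρ ⟨g, hg⟩ :=
      Function.invFun_eq ⟨⟨g, hg⟩, rfl⟩
    set g' := Function.invFun ρ (ρ ⟨g, hg⟩) with hg'
    refine ⟨(g'.1⁻¹ * g) x, ⟨g'.1⁻¹ * g, ⟨G.mul_mem (G.inv_mem g'.2.1) hg.1, ?_⟩, rfl⟩, by simp⟩
    intro i hi
    have h5 := congrArg Subtype.val (congrFun h4 ⟨i, hi⟩)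
    have h6 : g'.1 i = g i := h5
    rw [Equiv.Perm.mul_apply, ← h6]; simp
  refine Set.Finite.subset ?_ h3
  refine Set.Finite.biUnion (Set.toFinite _) fun f _ => ?_
  rw [Set.iUnion_iUnion_eq_left]
  exact hx'.image _

/-- the pairs `(x, y)` and `(u, v)` are in the same orbit -/
def E2 (G : PG) (x y u v : ℕ) : Prop := ∃ g ∈ G, g x = u ∧ g y = v

theorem E2_refl (G : PG) (x y : ℕ) : E2 G x y x y := ⟨1, G.one_mem, rfl, rfl⟩

theorem E2_symm {G : PG} {x y u v : ℕ} (h : E2 G x y u v) : E2 G u v x y := by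
  obtain ⟨g, hg, rfl, rfl⟩ := h
  exact ⟨g⁻¹, G.inv_mem hg, by simp, by simp⟩

theorem E2_trans {G : PG} {x y u v u' v' : ℕ} (h : E2 G x y u v) (h' : E2 G u v u' v') :
    E2 G x y u' v' := by
  obtain ⟨g, hg, rfl, rfl⟩ := h
  obtain ⟨g', hg', rfl, rfl⟩ := h'
  exact ⟨g' * g, G.mul_mem hg' hg, rfl, rfl⟩

theorem E2_swap {G : PG} {x y u v : ℕ} (h : E2 G x y u v) : E2 G y x v u := by
  obtain ⟨g, hg, h1, h2⟩ := h
  exact ⟨g, hg, h2, h1⟩

theorem E2_iff {G : PG} {x y v : ℕ} : E2 G x y x v ↔ v ∈ O (st G {x}) y := by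
  constructor
  · rintro ⟨g, hg, h1, h2⟩
    refine ⟨g, ⟨hg, ?_⟩, h2⟩
    rintro i rfl
    exact h1
  · rintro ⟨g, hg, h2⟩
    exact ⟨g, hg.1, hg.2 x rfl, h2⟩

/-- a nonprincipal ultrafilter -/
def NP (p : Ultrafilter ℕ) : Prop := (p : Filter ℕ) ≤ cofinite

theorem NP.compl {p : Ultrafilter ℕ} (hp : NP p) {s : Set ℕ} (hs : s.Finite) : sᶜ ∈ p :=
  hp hs.compl_mem_cofinite

theorem NP.notMem {p : Ultrafilter ℕ} (hp : NP p) {s : Set ℕ} (hs : s.Finite) : s ∉ p := by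
  intro h
  have := hp.compl hs
  exact (Ultrafilter.compl_mem_iff_notMem.1 this) h

theorem NP.infinite {p : Ultrafilter ℕ} (hp : NP p) {s : Set ℕ} (hs : s ∈ p) : s.Infinite :=
  fun h => hp.notMem h hs

theorem exists_NP {s : Set ℕ} (hs : s.Infinite) : ∃ p : Ultrafilter ℕ, NP p ∧ s ∈ p := by
  have h1 : (cofinite ⊓ 𝓟 s : Filter ℕ).NeBot := cofinite_inf_principal_neBot_iff.2 hs
  refine ⟨@Ultrafilter.of ℕ _ h1, ?_, ?_⟩
  · exact (Ultrafilter.of_le _).trans inf_le_left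
  · exact (Ultrafilter.of_le (cofinite ⊓ 𝓟 s)) (mem_inf_of_right (mem_principal_self s))

/-- the orbit of the stabiliser of `y` which belongs to the ultrafilter `p`, as a function of `y` -/
def T (G : PG) (p : Ultrafilter ℕ) (y : ℕ) : Set ℕ := {x | O (st G {y}) x ∈ p}

/-- there are finitely many types of nonprincipal ultrafilters -/
def Fin1 (G : PG) : Prop := {f : ℕ → Set ℕ | ∃ p, NP p ∧ f = T G p}.Finite

/-- limits along nonprincipal ultrafilters commute -/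
def Com (G : PG) : Prop := ∀ p q, NP p → NP q → ∀ x y : ℕ,
  (∀ᶠ u in p, ∀ᶠ v in q, E2 G x y u v) → ∀ᶠ v in q, ∀ᶠ u in p, E2 G x y u v

/-- the properties of groups with few orbits on subsets used in the sequel -/
structure Nice (G : PG) : Prop where
  oli : Oli G
  fin1 : ∀ s : Set ℕ, s.Finite → Fin1 (st G s)
  com : ∀ s : Set ℕ, s.Finite → Com (st G s)

theorem Nice.st {G : PG} (h : Nice G) {s : Set ℕ} (hs : s.Finite) : Nice (st G s) := by
  refine ⟨h.oli.st hs, fun r hr => ?_, fun r hr => ?_⟩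
  · rw [st_st]; exact h.fin1 _ (hs.union hr)
  · rw [st_st]; exact h.com _ (hs.union hr)

/-- exchange -/
def Exch (G : PG) : Prop := ∀ s : Set ℕ, s.Finite → ∀ x y, x ∉ acl G s → x ∈ acl G (insert y s) →
  y ∈ acl G (insert x s)

theorem Exch.st {G : PG} (h : Exch G) {s : Set ℕ} (hs : s.Finite) : Exch (st G s) := by
  intro r hr x y h1 h2
  rw [acl_st] at h1 h2 ⊢
  rw [Set.union_insert] at h2 ⊢
  exact h _ (hs.union hr) x y h1 h2

/-- the closure is trivial -/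
def Triv (G : PG) : Prop := ∀ s : Set ℕ, s.Finite → ∀ x, acl G (insert x s) ⊆ acl G s ∪ acl G {x}

/-- no continuous family of subsets indexed by the Cantor space has the property that each member
is in the orbit of only countably many other ones -/
def Few (G : PG) : Prop := ¬ ∃ A : (ℕ → Bool) → ℕ → Bool, Continuous A ∧
  ∀ c, {d | ∃ g ∈ G, ∀ n, A d (g n) = A c n}.Countable

/-- the group is closed -/
def Clo (G : PG) : Prop := ∀ g : Equiv.Perm ℕ, (∀ s : Finset ℕ, ∃ h ∈ G, ∀ i ∈ s, h i = g i) → g ∈ G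

end Pool.Agent.L7h71.FP
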