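import Pool.Agent.L7h71.FP.Twin
import Pool.Agent.L7h71.FP.Basic

set_option autoImplicit false

/-!
Construction of the rows.
-/

namespace Pool.Agent.L7h71.FP

open Set Filter

variable {C : Type} {t : ℕ → ℕ → C}

/-- one step of the construction -/
structure Stp (t : ℕ → ℕ → C) (δ ρ : ℕ → C) (β : C) (S : Finset ℕ) (k : ℕ) (y : ℕ)
    (E F : Finset ℕ) : Prop where
  sub : E ⊆ F
  cardE : E.card = 8 * k + 4
  cardF : F.card = 8 * k + 8
  yS : y ∉ S
  yF : y ∉ F
  disj : ∀ x ∈ F, x ∉ S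
  tF : ∀ a ∈ S, ∀ x ∈ F, t a x = δ a
  ty : ∀ a ∈ S, t a y = ρ a
  cδ : ∀ u ∈ F, ∀ v ∈ F, δ u = δ v
  cρ : ∀ u ∈ F, ∀ v ∈ F, ρ u = ρ v
  tβ : ∀ x ∈ F, t y x = β
  nβ : δ y ≠ β
  const : ∃ μ, ∀ u ∈ F, ∀ v ∈ F, u ≠ v → t u v = μ

theorem builder (sw : C → C) (hsw : ∀ u v, t v u = sw (t u v)) (δ ρ : ℕ → C) (β : C)
    (step : ∀ (S : Finset ℕ) (k : ℕ), ∃ y E F, Stp t δ ρ β S k y E F) :
    ∃ F y, Rows t F y β := by
  classical
  choose y E F h using step
  let S : ℕ → Finset ℕ := fun k => Nat.rec ∅ (fun k S => S ∪ insert (y S k) (F S k)) k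
  have hS : ∀ k, S (k + 1) = S k ∪ insert (y (S k) k) (F (S k) k) := fun k => rfl
  have hmono : ∀ k l, k ≤ l → S k ⊆ S l := by
    intro k l hkl
    induction l, hkl using Nat.le_induction with
    | base => exact Finset.Subset.refl _
    | succ l hl ih =>
      rw [hS]
      exact ih.trans Finset.subset_union_left
  have hy : ∀ k l, k < l → y (S k) k ∈ S l := by
    intro k l hkl
    apply hmono (k + 1) l hkl
    rw [hS]
    exact Finset.mem_union_right _ (Finset.mem_insert_self _ _)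
  have hF : ∀ k l, k < l → ∀ x ∈ F (S k) k, x ∈ S l := by
    intro k l hkl x hx
    apply hmono (k + 1) l hkl
    rw [hS]
    exact Finset.mem_union_right _ (Finset.mem_insert_of_mem hx)
  let FF : ℕ → Bool → Finset ℕ := fun k b => if b then F (S k) k else E (S k) k
  have hFt : ∀ k, FF k true = F (S k) k := fun k => rfl
  have hFf : ∀ k, FF k false = E (S k) k := fun k => rfl
  refine ⟨FF, fun k => y (S k) k, ?_⟩
  have huF : ∀ k l, k ≠ l → ∀ u ∈ F (S k) k, ∀ v ∈ F (S k) k, ∀ w ∈ F (S l) l,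
      t u w = t v w := by
    intro k l hkl u hu v hv w hw
    rcases lt_or_gt_of_ne hkl with h1 | h1
    · rw [(h (S l) l).tF u (hF k l h1 u hu) w hw, (h (S l) l).tF v (hF k l h1 v hv) w hw]
      exact (h (S k) k).cδ u hu v hv
    · rw [hsw w u, hsw w v, (h (S k) k).tF w (hF l k h1 w hw) u hu,
        (h (S k) k).tF w (hF l k h1 w hw) v hv]
  have huy : ∀ k l, ∀ u ∈ F (S k) k, ∀ v ∈ F (S k) k,
      t (y (S l) l) u = t (y (S l) l) v := by
    intro k l u hu v hv
    rcases lt_trichotomy k l with h1 | h1 | h1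
    · rw [hsw u, hsw v, (h (S l) l).ty u (hF k l h1 u hu), (h (S l) l).ty v (hF k l h1 v hv),
        (h (S k) k).cρ u hu v hv]
    · subst h1
      rw [(h (S k) k).tβ u hu, (h (S k) k).tβ v hv]
    · rw [(h (S k) k).tF _ (hy l k h1) u hu, (h (S k) k).tF _ (hy l k h1) v hv]
  constructor
  · intro k
    exact (h (S k) k).sub
  · intro k b
    cases b
    · exact (h (S k) k).cardE
    · exact (h (S k) k).cardF
  · intro k l hkl
    rw [hFt, hFt, Finset.disjoint_left]
    intro x hx hx'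
    rcases lt_or_gt_of_ne hkl with h1 | h1
    · exact (h (S l) l).disj x hx' (hF k l h1 x hx)
    · exact (h (S k) k).disj x hx (hF l k h1 x hx')
  · intro k l hkl
    by_contra h0
    rcases lt_or_gt_of_ne h0 with h1 | h1
    · exact (h (S l) l).yS ((show y (S k) k = y (S l) l from hkl) ▸ hy k l h1)
    · exact (h (S k) k).yS ((show y (S k) k = y (S l) l from hkl) ▸ hy l k h1)
  · intro k l hk
    rw [hFt] at hk
    rcases lt_trichotomy k l with h1 | h1 | h1
    · exact (h (S l) l).disj _ hk (hy k l h1)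
    · subst h1
      exact (h (S k) k).yF hk
    · exact (h (S k) k).yS (hF l k h1 _ hk)
  · intro k
    exact (h (S k) k).const
  · intro k l hkl u hu v hv w hw
    have h1 := huF k l hkl u hu v hv w hw
    exact ⟨h1, by rw [hsw u w, hsw v w, h1]⟩
  · intro k l u hu v hv
    have h1 := huy k l u hu v hv
    refine ⟨?_, h1⟩
    show t u (y (S l) l) = t v (y (S l) l)
    rw [hsw (y (S l) l) u, hsw (y (S l) l) v, h1]
  · intro k u hu
    exact (h (S k) k).tβ u hu
  · intro k l hkl u hu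
    show t (y (S k) k) u ≠ β
    rw [(h (S l) l).tF _ (hy k l hkl) u hu]
    exact (h (S k) k).nβ

/-- limits of functions with values in a finite type -/
theorem exists_lim [Finite C] (p : Ultrafilter ℕ) (f : ℕ → C) : ∃ c, ∀ᶠ n in p, f n = c := by
  have h0 : (⋃ c ∈ (Set.univ : Set C), {n | f n = c}) = (Set.univ : Set ℕ) := by
    ext n; simp
  have h1 : (⋃ c ∈ (Set.univ : Set C), {n | f n = c}) ∈ p := by
    rw [h0]; exact Filter.univ_mem
  rw [Ultrafilter.finite_biUnion_mem_iff (Set.toFinite _)] at h1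
  obtain ⟨c, -, hc⟩ := h1
  exact ⟨c, hc⟩

/-- the limit -/
noncomputable def lim [Finite C] (p : Ultrafilter ℕ) (f : ℕ → C) : C := (exists_lim p f).choose

theorem lim_spec [Finite C] (p : Ultrafilter ℕ) (f : ℕ → C) : ∀ᶠ n in p, f n = lim p f :=
  (exists_lim p f).choose_spec

theorem lim_eq [Finite C] {p : Ultrafilter ℕ} {f : ℕ → C} {c : C} (h : ∀ᶠ n in p, f n = c) :
    lim p f = c := by
  obtain ⟨n, h1, h2⟩ := ((lim_spec p f).and h).exists
  exact h1.symm.trans h2

/-- the limits of the colours of pairs -/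
noncomputable def D [Finite C] (t : ℕ → ℕ → C) (p : Ultrafilter ℕ) (u : ℕ) : C := lim p (t u)

theorem D_spec [Finite C] (t : ℕ → ℕ → C) (p : Ultrafilter ℕ) (u : ℕ) :
    ∀ᶠ v in p, t u v = D t p u := lim_spec p (t u)

/-- there are no infinite asymmetric sequences -/
def NoCh (t : ℕ → ℕ → C) : Prop := ∀ v : ℕ → ℕ, Function.Injective v → ∀ c,
  (∀ i j, i < j → t (v i) (v j) = c) → t (v 1) (v 0) = c

theorem ae_finset {p : Ultrafilter ℕ} (S : Finset ℕ) {P : ℕ → ℕ → Prop}
    (h : ∀ a ∈ S, ∀ᶠ x in p, P a x) : ∀ᶠ x in p, ∀ a ∈ S, P a x := by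
  rw [Filter.eventually_all_finset]
  exact h

/-- monochromatic finite sets in a large set -/
theorem mono_fin [Finite C] (sw : C → C) (hsw : ∀ u v, t v u = sw (t u v)) (hch : NoCh t)
    {p : Ultrafilter ℕ} (hp : NP p) {μ : C} {X : Set ℕ} (hX : X ∈ p)
    (hμ : ∀ x ∈ X, D t p x = μ) (k : ℕ) :
    ∃ E F : Finset ℕ, E ⊆ F ∧ E.card = 8 * k + 4 ∧ F.card = 8 * k + 8 ∧ (∀ x ∈ F, x ∈ X) ∧
      ∀ u ∈ F, ∀ v ∈ F, u ≠ v → t u v = μ := by
  classical
  have step : ∀ S : Finset ℕ, (∀ a ∈ S, a ∈ X) → ∃ x, x ∈ X ∧ x ∉ S ∧ ∀ a ∈ S, t a x = μ := by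
    intro S hS
    have h1 : ∀ᶠ x in p, ∀ a ∈ S, t a x = μ := ae_finset S fun a ha => by
      rw [← hμ a (hS a ha)]; exact D_spec t p a
    have h2 : ∀ᶠ x in p, x ∉ S := hp.compl S.finite_toSet
    have h3 : ∀ᶠ x in p, x ∈ X := hX
    obtain ⟨x, hx⟩ := (h3.and (h2.and h1)).exists
    exact ⟨x, hx⟩
  -- the sequence
  let Z := {S : Finset ℕ // ∀ a ∈ S, a ∈ X}
  choose! x hx1 hx2 hx3 using step
  let s : ℕ → Z := fun n => Nat.rec ⟨∅, by simp⟩ (fun _ S => ⟨insert (x S.1) S.1, by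
    intro a ha
    rcases Finset.mem_insert.1 ha with rfl | ha
    · exact hx1 S.1 S.2
    · exact S.2 a ha⟩) n
  have hs : ∀ n, (s (n + 1)).1 = insert (x (s n).1) (s n).1 := fun n => rfl
  let v : ℕ → ℕ := fun n => x (s n).1
  have hmem : ∀ i j, i < j → v i ∈ (s j).1 := by
    intro i j hij
    induction j, hij using Nat.le_induction with
    | base => rw [hs]; exact Finset.mem_insert_self _ _
    | succ j hj ih => rw [hs]; exact Finset.mem_insert_of_mem ih
  have hv1 : ∀ i j, i < j → t (v i) (v j) = μ := fun i j hij =>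
    hx3 (s j).1 (s j).2 (v i) (hmem i j hij)
  have hinj : Function.Injective v := by
    intro i j hij
    by_contra h0
    rcases lt_or_gt_of_ne h0 with h1 | h1
    · have h2 := hmem i j h1
      rw [hij] at h2
      exact hx2 (s j).1 (s j).2 h2
    · have h2 := hmem j i h1
      rw [← hij] at h2
      exact hx2 (s i).1 (s i).2 h2
  have hsym : sw μ = μ := by
    have h1 := hch v hinj μ hv1
    rw [hsw (v 0) (v 1), hv1 0 1 one_pos] at h1
    exact h1
  refine ⟨(Finset.range (8 * k + 4)).image v, (Finset.range (8 * k + 8)).image v, ?_, ?_, ?_, ?_, ?_⟩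
  · exact Finset.image_subset_image (Finset.range_mono (by omega))
  · rw [Finset.card_image_of_injective _ hinj, Finset.card_range]
  · rw [Finset.card_image_of_injective _ hinj, Finset.card_range]
  · intro a ha
    obtain ⟨i, -, rfl⟩ := Finset.mem_image.1 ha
    exact hx1 _ (s i).2
  · intro a ha b hb hab
    obtain ⟨i, -, rfl⟩ := Finset.mem_image.1 ha
    obtain ⟨j, -, rfl⟩ := Finset.mem_image.1 hb
    have hij : i ≠ j := fun h => hab (by rw [h])
    rcases lt_or_gt_of_ne hij with h1 | h1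
    · exact hv1 i j h1
    · rw [hsw (v j) (v i), hv1 j i h1, hsym]

/-- Infinitely many limit functions give perfectly many subsets. -/
theorem perf_of_inf [Finite C] (sw : C → C) (hsw : ∀ u v, t v u = sw (t u v)) (hch : NoCh t)
    (hinf : {f : ℕ → C | ∃ p, NP p ∧ f = D t p}.Infinite) : PerfT t := by
  classical
  -- distinct limit functions
  obtain ⟨f, hf1⟩ : ∃ f : ℕ → (ℕ → C), Function.Injective f ∧
      ∀ n, f n ∈ {f : ℕ → C | ∃ p, NP p ∧ f = D t p} := by
    have := hinf.to_subtype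
    let e := Infinite.natEmbedding {f : ℕ → C | ∃ p, NP p ∧ f = D t p}
    exact ⟨fun n => (e n).1, fun i j hij => e.injective (Subtype.ext hij), fun n => (e n).2⟩
  obtain ⟨hfi, hf2⟩ := hf1
  choose p hp hfp using hf2
  obtain ⟨U, hU, -⟩ := exists_NP (Set.infinite_univ (α := ℕ))
  let Di : ℕ → C := fun a => lim U (fun n => f n a)
  have hDi : ∀ a, ∀ᶠ n in U, f n a = Di a := fun a => lim_spec U _
  have hne : ∀ᶠ n in U, f n ≠ Di := by
    have : {n | f n = Di}.Finite := by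
      refine Set.Subsingleton.finite ?_
      intro i hi j hj
      exact hfi (hi.trans hj.symm)
    exact hU.compl this
  have hex : ∀ n, ∃ y, f n ≠ Di → f n y ≠ Di y := by
    intro n
    by_cases h : f n = Di
    · exact ⟨0, fun h' => absurd h h'⟩
    · obtain ⟨y, hy⟩ := Function.ne_iff.1 h
      exact ⟨y, fun _ => hy⟩
  choose y hy using hex
  let β : C := lim U (fun n => f n (y n))
  let ρ : ℕ → C := fun a => lim U (fun n => t a (y n))
  obtain ⟨F, Y, hR⟩ := builder (t := t) sw hsw Di ρ β (by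
    intro S k
    have e1 : ∀ᶠ n in U, ∀ a ∈ S, f n a = Di a := ae_finset S fun a _ => hDi a
    have e2 : ∀ᶠ n in U, ∀ a ∈ S, t a (y n) = ρ a := ae_finset S fun a _ =>
      lim_spec U (fun n => t a (y n))
    have e3 : ∀ᶠ n in U, f n (y n) = β := lim_spec U (fun n => f n (y n))
    obtain ⟨n, h1, h2, h3, h4⟩ := (e1.and (e2.and (e3.and hne))).exists
    have h5 := hy n h4
    have h6 : y n ∉ S := fun h => h5 (h1 _ h)
    have h7 : Di (y n) ≠ β := by rw [← h3]; exact h5.symm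
    -- the row
    let μ := lim (p n) (f n)
    let c1 := lim (p n) Di
    let c2 := lim (p n) ρ
    have g1 : ∀ᶠ x in p n, ∀ a ∈ insert (y n) S, t a x = f n a := ae_finset _ fun a _ => by
      rw [hfp n]; exact D_spec t (p n) a
    have g2 : ∀ᶠ x in p n, x ∉ insert (y n) S := by
      exact (hp n).compl (insert (y n) S).finite_toSet
    have g3 : ∀ᶠ x in p n, f n x = μ := lim_spec _ _
    have g4 : ∀ᶠ x in p n, Di x = c1 := lim_spec _ _
    have g5 : ∀ᶠ x in p n, ρ x = c2 := lim_spec _ _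
    obtain ⟨E, F, k1, k2, k3, k4, k5⟩ := mono_fin sw hsw hch (hp n) (μ := μ)
      (g1.and (g2.and (g3.and (g4.and g5)))) (fun x hx => by rw [← hfp n]; exact hx.2.2.1) k
    refine ⟨y n, E, F, k1, k2, k3, h6, ?_, ?_, ?_, h2, ?_, ?_, ?_, h7, μ, k5⟩
    · intro h
      exact (k4 _ h).2.1 (Finset.mem_insert_self _ _)
    · intro x hx h
      exact (k4 _ hx).2.1 (Finset.mem_insert_of_mem h)
    · intro a ha x hx
      rw [(k4 _ hx).1 a (Finset.mem_insert_of_mem ha)]
      exact h1 a ha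
    · intro u hu v hv
      exact (k4 _ hu).2.2.2.1.trans (k4 _ hv).2.2.2.1.symm
    · intro u hu v hv
      exact (k4 _ hu).2.2.2.2.trans (k4 _ hv).2.2.2.2.symm
    · intro x hx
      rw [(k4 _ hx).1 (y n) (Finset.mem_insert_self _ _)]
      exact h3)
  exact hR.perf

/-- Limits which do not commute give perfectly many subsets. -/
theorem perf_of_ncom [Finite C] (sw : C → C) (hsw : ∀ u v, t v u = sw (t u v)) (hch : NoCh t)
    {p q : Ultrafilter ℕ} (hp : NP p) (hq : NP q) {σ : C}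
    (h1 : ∀ᶠ u in p, ∀ᶠ v in q, t u v = σ) (h2 : ¬ ∀ᶠ v in q, ∀ᶠ u in p, t u v = σ) :
    PerfT t := by
  classical
  have h1' : ∀ᶠ u in p, D t q u = σ := h1.mono fun u hu => lim_eq hu
  obtain ⟨u₀, hu₀⟩ := h1.exists
  obtain ⟨v₀, hv₀⟩ := hu₀.exists
  have hss : sw (sw σ) = σ := by
    rw [← hv₀, ← hsw, ← hsw]
  let ω := lim q (D t p)
  have hω : ∀ᶠ v in q, D t p v = ω := lim_spec _ _
  have hωσ : ω ≠ sw σ := by
    intro h
    apply h2
    filter_upwards [hω] with v hv
    filter_upwards [D_spec t p v] with u hu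
    rw [hsw v u, hu, hv, h, hss]
  let μ := lim p (D t p)
  have hμ : ∀ᶠ u in p, D t p u = μ := lim_spec _ _
  obtain ⟨F, Y, hR⟩ := builder (t := t) sw hsw (D t p) (D t q) (sw σ) (by
    intro S k
    have g1 : ∀ᶠ x in p, ∀ a ∈ S, t a x = D t p a := ae_finset _ fun a _ => D_spec t p a
    have g2 : ∀ᶠ x in p, x ∉ S := hp.compl S.finite_toSet
    obtain ⟨E, F, k1, k2, k3, k4, k5⟩ := mono_fin sw hsw hch hp (μ := μ)
      (g1.and (g2.and (h1'.and hμ))) (fun x hx => hx.2.2.2) k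
    have e1 : ∀ᶠ y in q, ∀ a ∈ S, t a y = D t q a := ae_finset _ fun a _ => D_spec t q a
    have e2 : ∀ᶠ y in q, ∀ a ∈ F, t a y = D t q a := ae_finset _ fun a _ => D_spec t q a
    have e3 : ∀ᶠ y in q, y ∉ S := hq.compl S.finite_toSet
    have e4 : ∀ᶠ y in q, y ∉ F := hq.compl F.finite_toSet
    obtain ⟨y, l1, l2, l3, l4, l5⟩ := (e1.and (e2.and (e3.and (e4.and hω)))).exists
    refine ⟨y, E, F, k1, k2, k3, l3, l4, ?_, ?_, l1, ?_, ?_, ?_, ?_, μ, k5⟩
    · intro x hx
      exact (k4 _ hx).2.1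
    · intro a ha x hx
      exact (k4 _ hx).1 a ha
    · intro u hu v hv
      exact (k4 _ hu).2.2.2.trans (k4 _ hv).2.2.2.symm
    · intro u hu v hv
      exact (k4 _ hu).2.2.1.trans (k4 _ hv).2.2.1.symm
    · intro x hx
      rw [hsw x y, l2 x hx, (k4 _ hx).2.2.1]
    · rw [l5]; exact hωσ)
  exact hR.perf

end Pool.Agent.L7h71.FP
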