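import Pool.Agent.L7h71.FP.StmA

set_option autoImplicit false

/-!
Relations of arity at least two.
-/

namespace Pool.Agent.L7h71.FP

open Set Filter
open Pool.Agent.L7h71.COV (Str Iso)
open Pool.Agent.L7h71.CC (Perf)

/-- rigid coloured chains -/
def Ec (c : ℕ → Bool) (m n : ℕ) : Bool := decide (n = m + 1) || (decide (m = n) && c m)

theorem Ec_rigid {c d : ℕ → Bool} {σ : Equiv.Perm ℕ} (h : ∀ m n, Ec d (σ m) (σ n) = Ec c m n) :
    c = d := by
  have h1 : ∀ m, σ (m + 1) = σ m + 1 := by
    intro m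
    have h2 := h m (m + 1)
    have h3 : Ec c m (m + 1) = true := by simp [Ec]
    rw [h3] at h2
    simp only [Ec, Bool.or_eq_true, Bool.and_eq_true, decide_eq_true_eq] at h2
    rcases h2 with h2 | ⟨h2, -⟩
    · exact h2
    · have := σ.injective h2
      omega
  have h0 : σ 0 = 0 := by
    obtain ⟨k, hk⟩ := σ.surjective 0
    cases k with
    | zero => exact hk
    | succ k => rw [h1] at hk; omega
  have h4 : ∀ m, σ m = m := by
    intro m
    induction m with
    | zero => exact h0
    | succ m ih => rw [h1, ih]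
  funext m
  have h5 := h m m
  rw [h4] at h5
  simpa [Ec] using h5.symm

theorem two {a : ℕ → ℕ} {i₀ : ℕ} (h2 : 2 ≤ a i₀) (B : Set (Str a))
    (hcl : ∀ x ∈ B, ∀ y : Str a, (∀ i, i ≠ i₀ → y i = x i) → y ∈ B) :
    (∃ f : ℕ → Str a, ∀ x ∈ B, ∃ n, Iso (f n) x) ∨ Perf B := by
  classical
  rcases B.eq_empty_or_nonempty with he | ⟨x, hx⟩
  · left
    refine ⟨fun _ _ _ => true, fun x hx => ?_⟩
    rw [he] at hx
    exact absurd hx (Set.notMem_empty x)
  right
  refine ⟨fun c => Function.update x i₀ (fun v => Ec c (v ⟨0, by omega⟩) (v ⟨1, by omega⟩)),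
    ?_, ?_, ?_⟩
  · refine continuous_const.update i₀ ?_
    refine continuous_pi fun v => ?_
    unfold Ec
    have h1 : Continuous fun c : ℕ → Bool => c (v ⟨0, by omega⟩) := continuous_apply _
    exact (continuous_of_discreteTopology (f := fun b : Bool =>
      decide (v ⟨1, by omega⟩ = v ⟨0, by omega⟩ + 1) ||
        (decide (v ⟨0, by omega⟩ = v ⟨1, by omega⟩) && b))).comp h1
  · intro c
    exact hcl x hx _ fun i hi => Function.update_of_ne hi _ _
  · rintro c d ⟨σ, hσ⟩
    apply Ec_rigid (σ := σ)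
    intro m n
    have h1 := hσ i₀ (fun j => if j.1 = 0 then m else n)
    simp only [Function.update_self] at h1
    simpa using h1

end Pool.Agent.L7h71.FP
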