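import Pool.Agent.R617.VT.Trans
import Pool.Agent.W889.FO.St0
import Pool.Agent.L7h71.FP.Two

set_option autoImplicit false

/-!
First-order theories which do not mention a relation symbol.
-/

namespace Pool.Agent.L7h71.FP

open FirstOrder FirstOrder.Language
open Pool.Agent.W889.FO (VaughtF Vaught SIso Ax ax_iff SIso.model SIso.trans SIso.symm)
open Pool.Agent.W889.FO.St0
open Pool.Agent.L7h71.COV (Str Iso)
open Pool.Agent.L7h71.CC (Perf)

/-- the structures agree except for the relation symbol `R` -/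
structure Agr {L : FirstOrder.Language.{0, 0}} {n : ℕ} (R : L.Relations n)
    (S S' : L.Structure ℕ) : Prop where
  fn : ∀ (m : ℕ) (F : L.Functions m) (v : Fin m → ℕ),
    @Structure.funMap L ℕ S m F v = @Structure.funMap L ℕ S' m F v
  rel : ∀ (m : ℕ) (Q : L.Relations m) (v : Fin m → ℕ), (⟨m, Q⟩ : Σ m, L.Relations m) ≠ ⟨n, R⟩ →
    (@Structure.RelMap L ℕ S m Q v ↔ @Structure.RelMap L ℕ S' m Q v)

variable {L : FirstOrder.Language.{0, 0}}

/-- the relation symbol -/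
def toR : (Σ m, (LF L).Relations m) → Option (Σ m, L.Relations m)
  | ⟨_, RF.rel R⟩ => some ⟨_, R⟩
  | ⟨_, RF.fn _⟩ => none

theorem W_agr {n : ℕ} {R : L.Relations n} {S S' : (LF L).Structure ℕ}
    (h : Agr (L := LF L) (RF.rel R) S S') :
    (∀ {m : ℕ} (F : L.Functions m) (v : Fin m → ℕ) (b : ℕ), gr S F v b ↔ gr S' F v b) := by
  intro m F v b
  refine h.rel _ (RF.fn F) _ fun h1 => ?_
  have h2 := congrArg toR h1
  exact absurd h2 (by simp [toR])

theorem W_agr' {n : ℕ} {R : L.Relations n} {S S' : (LF L).Structure ℕ}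
    (h : Agr (L := LF L) (RF.rel R) S S') (hW : W S) : W S' :=
  ⟨fun F v => by
    obtain ⟨b, hb⟩ := hW.ex F v
    exact ⟨b, (W_agr h F.2 v b).1 hb⟩,
   fun F v b b' h1 h2 => hW.un F v b b' ((W_agr h F.2 v b).2 h1) ((W_agr h F.2 v b').2 h2)⟩

theorem D_agr {n : ℕ} {R : L.Relations n} {S S' : (LF L).Structure ℕ}
    (h : Agr (L := LF L) (RF.rel R) S S') (hW : W S) : Agr R (D S) (D S') := by
  have hW' := W_agr' h hW
  refine ⟨fun m F v => ?_, fun m Q v hQ => ?_⟩
  · symm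
    rw [fun_iff hW', ← W_agr h, ← fun_iff hW]
  · refine h.rel _ (RF.rel Q) v fun h1 => hQ ?_
    have h2 := congrArg toR h1
    simpa only [toR, Option.some.injEq] using h2

/-- the main theorem for classes of structures -/
def S_BOR : Prop := ∀ (a : ℕ → ℕ) (i₀ : ℕ), 1 ≤ a i₀ → ∀ B : Set (Str a),
  MeasurableSet B → (∀ x y, Iso x y → (x ∈ B ↔ y ∈ B)) →
  (∀ x ∈ B, ∀ y : Str a, (∀ i, i ≠ i₀ → y i = x i) → y ∈ B) →
  (∃ f : ℕ → Str a, ∀ x ∈ B, ∃ n, Iso (f n) x) ∨ Perf B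

/-- relational languages -/
theorem fo_rel (hB : S_BOR) {L' : FirstOrder.Language.{0, 0}} [L'.IsRelational]
    [Countable (Σ n, L'.Relations n)] {n : ℕ} (hn : 1 ≤ n) (R : L'.Relations n) (T : L'.Theory)
    (hT : ∀ S S' : L'.Structure ℕ, Agr R S S' → @Theory.Model L' ℕ S T →
      @Theory.Model L' ℕ S' T) : Vaught L' T := by
  obtain ⟨e, he⟩ := Countable.exists_injective_nat (Σ n, L'.Relations n)
  open Pool.Agent.R617.VT in
  refine vaught_of he (hB (ar e) (e ⟨n, R⟩) ?_ (Md he T) (md_meas he T)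
    (fun x y h => ⟨md_iso he h, md_iso he (riso_symm h)⟩) ?_)
  · rw [Pool.Agent.R617.VT.ar_e he]; exact hn
  · rintro x ⟨hx, hm⟩ y h
    refine ⟨fun i hi v => ?_, ?_⟩
    · rw [h i (fun h1 => hi ⟨_, h1.symm⟩)]
      exact hx i hi v
    · refine hT _ _ ⟨fun m F => isEmptyElim F, fun m Q v hQ => ?_⟩ hm
      rw [Pool.Agent.R617.VT.rel_dc, Pool.Agent.R617.VT.rel_dc, h _ (fun h1 => hQ (he h1))]

/-- all countable languages -/
theorem fo_rel' (hB : S_BOR) (hL : Countable L.Symbols) {n : ℕ} (hn : 1 ≤ n) (R : L.Relations n)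
    (T : L.Theory) (hT : ∀ S S' : L.Structure ℕ, Agr R S S' → @Theory.Model L ℕ S T →
      @Theory.Model L ℕ S' T) : VaughtF L T := by
  obtain ⟨T', hT'⟩ := ax_theory T
  have := countable_LF (L := L)
  have key : Vaught (LF L) T' := by
    refine fo_rel hB (L' := LF L) hn (RF.rel R) T' fun S S' h hm => ?_
    rw [hT'] at hm ⊢
    exact ⟨W_agr' h hm.1, hT _ _ (D_agr h hm.1) hm.2⟩
  rcases key with ⟨g, hg⟩ | ⟨f, hf1, hf2, hf3⟩
  · left
    refine ⟨fun n => D (g n), fun M hM => ?_⟩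
    obtain ⟨S, hS, hi⟩ := ex M
    obtain ⟨n, hn⟩ := hg S ((hT' S).2 ⟨hS, hi.symm.model hM⟩)
    obtain ⟨T'', hT''⟩ := ax_W L
    have hgn : W (g n) := (hT'' (g n)).1 (SIso.model hn ((hT'' S).2 hS))
    exact ⟨n, hi.symm.trans (iso_down hS hgn hn)⟩
  · right
    have hW : ∀ x, W (f x) := fun x => ((hT' _).1 (hf1 x)).1
    refine ⟨fun x => D (f x), fun x => ((hT' _).1 (hf1 x)).2,
      fun x y hxy => hf2 x y (iso_up (hW x) (hW y) hxy), fun n R a => hf3 n (RF.rel R) a,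
      fun n F a b => ?_⟩
    have : {x : ℕ → Bool | @FirstOrder.Language.Structure.funMap L ℕ (D (f x)) n F a = b} =
        {x | @Structure.RelMap (LF L) ℕ (f x) _ (RF.fn F) (Fin.snoc (α := fun _ => ℕ) a b)} := by
      ext x
      exact fun_iff (hW x) F a b
    rw [this]
    exact (hf3 _ (RF.fn F) _).isOpen

end Pool.Agent.L7h71.FP
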