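import Pool.Agent.L7h71.FP.Exc

set_option autoImplicit false

/-!
Stationarity.
-/

namespace Pool.Agent.L7h71.FP

open Set Filter

theorem Triv.union {H : PG} (hT : Triv H) {s r : Set ℕ} (hs : s.Finite) (hr : r.Finite) :
    acl H (s ∪ r) ⊆ acl H s ∪ acl H r := by
  induction r, hr using Set.Finite.induction_on with
  | empty => rw [Set.union_empty]; exact Set.subset_union_left
  | @insert x r hx hr ih =>
    rw [Set.union_insert]
    refine (hT _ (hs.union hr) x).trans ?_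
    refine Set.union_subset (ih.trans ?_) ?_
    · exact Set.union_subset_union_right _ (acl_mono H (Set.subset_insert _ _))
    · exact (acl_mono H (Set.singleton_subset_iff.2 (Set.mem_insert _ _))).trans
        Set.subset_union_right

theorem Triv.st {H : PG} (hT : Triv H) {s : Set ℕ} (hs : s.Finite) : Triv (st H s) := by
  intro r hr x
  rw [acl_st, acl_st, acl_st]
  have h1 : s ∪ insert x r = (s ∪ r) ∪ (s ∪ {x}) := by
    ext z; simp; tauto
  rw [h1]
  exact hT.union (hs.union hr) (hs.union (Set.finite_singleton x))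

theorem Triv.notMem {H : PG} (hT : Triv H) {u : ℕ} (hu : u ∉ acl H ∅) {r : Set ℕ}
    (hr : r.Finite) (h : ∀ y ∈ r, u ∉ acl H {y}) : u ∉ acl H r := by
  induction r, hr using Set.Finite.induction_on with
  | empty => exact hu
  | @insert x r hx hr ih =>
    intro h1
    rcases hT r hr x h1 with h2 | h2
    · exact ih (fun y hy => h y (Set.mem_insert_of_mem _ hy)) h2
    · exact h x (Set.mem_insert _ _) h2

/-- `p` is adapted to `u` -/
def Ad (H : PG) (p : Ultrafilter ℕ) (u : ℕ) : Prop := ∀ y, u ∉ acl H {y} → O (st H {y}) u ∈ p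

theorem Ad_iff {H : PG} {p : Ultrafilter ℕ} {u : ℕ} :
    Ad H p u ↔ ∀ y, u ∉ acl H {y} → u ∈ T H p y := Iff.rfl

theorem Ad_congr {H : PG} {p q : Ultrafilter ℕ} (h : T H p = T H q) {u : ℕ} (h' : Ad H p u) :
    Ad H q u := by
  rw [Ad_iff] at h' ⊢
  rw [← h]; exact h'

/-- the type of an ultrafilter is an orbit in the ultrafilter -/
theorem T_orb {H : PG} {p : Ultrafilter ℕ} {x y : ℕ} (hx : x ∈ T H p y) :
    T H p y = O (st H {y}) x := by
  ext z
  constructor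
  · intro hz
    have h1 : O (st H {y}) z ∈ p := hz
    have h2 : O (st H {y}) x ∈ p := hx
    obtain ⟨w, hw1, hw2⟩ := (Filter.inter_mem h1 h2 : _ ∈ (p : Filter ℕ)) |> p.nonempty_of_mem
    exact O_trans hw2 (O_symm hw1)
  · intro hz
    show O (st H {y}) z ∈ p
    rw [O_eq hz]; exact hx

theorem T_mem {H : PG} (hO : Oli H) (p : Ultrafilter ℕ) (y : ℕ) : T H p y ∈ p := by
  obtain ⟨X, ⟨x, hx⟩, hX⟩ := pigeon (q := p) (f := fun x => O (st H {y}) x)
    (hO {y} (Set.finite_singleton y)) (Filter.Eventually.of_forall fun x => ⟨x, rfl⟩)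
  have h1 : {z | O (st H {y}) z = X} ⊆ T H p y := by
    intro z hz
    show O (st H {y}) z ∈ p
    have h2 : ∀ᶠ w in p, w ∈ O (st H {y}) z := by
      filter_upwards [hX] with w hw
      rw [show O (st H {y}) z = O (st H {y}) w from hz.trans hw.symm]
      exact O_refl _ w
    exact h2
  exact Filter.mem_of_superset hX h1

theorem T_ext {H : PG} {p q : Ultrafilter ℕ}
    (h : ∀ y, ∃ x, x ∈ T H p y ∧ x ∈ T H q y) : T H p = T H q := by
  funext y
  obtain ⟨x, h1, h2⟩ := h y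
  rw [T_orb h1, T_orb h2]

theorem fin1' {H : PG} (hH : Nice H) : Fin1 H := by
  have := hH.fin1 ∅ Set.finite_empty
  rwa [st_empty] at this

/-- limits of ultrafilters -/
theorem exists_bind {p : ℕ → Ultrafilter ℕ} (hp : ∀ n, NP (p n)) :
    ∃ q, NP q ∧ ∀ A : Set ℕ, (∃ m, ∀ n, m ≤ n → A ∈ p n) → A ∈ q := by
  obtain ⟨U, hU, -⟩ := exists_NP (Set.infinite_univ (α := ℕ))
  have hmem : ∀ A : Set ℕ, A ∈ Ultrafilter.bind U p ↔ {n | A ∈ p n} ∈ U := by
    intro A
    show A ∈ Filter.bind (U : Filter ℕ) (fun x => (p x : Filter ℕ)) ↔ _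
    rw [Filter.mem_bind']
    rfl
  refine ⟨Ultrafilter.bind U p, ?_, ?_⟩
  · intro A hA
    show A ∈ Ultrafilter.bind U p
    rw [hmem]
    exact Filter.Eventually.of_forall fun n => hp n hA
  · rintro A ⟨m, hm⟩
    rw [hmem]
    have h1 : {n | n < m}ᶜ ∈ U := hU.compl (Set.finite_lt_nat m)
    refine Filter.mem_of_superset h1 fun n hn => ?_
    exact hm n (not_lt.1 hn)

/-- ultrafilters adapted to `u` over all finite sets -/
theorem exists_SA {H : PG} (hT : Triv H) {u : ℕ} (hu : u ∉ acl H ∅) :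
    ∃ p, NP p ∧ ∀ r : Set ℕ, r.Finite → u ∉ acl H r → O (st H r) u ∈ p := by
  let R : ℕ → Set ℕ := fun n => {y | y < n ∧ u ∉ acl H {y}}
  have hR : ∀ n, (R n).Finite := fun n => (Set.finite_lt_nat n).subset fun y hy => hy.1
  have h1 : ∀ n, (O (st H (R n)) u).Infinite := fun n =>
    hT.notMem hu (hR n) fun y hy => hy.2
  choose p hp hpm using fun n => exists_NP (h1 n)
  obtain ⟨q, hq, hqm⟩ := exists_bind hp
  refine ⟨q, hq, fun r hr hur => ?_⟩
  apply hqm
  obtain ⟨m, hm⟩ := hr.bddAbove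
  refine ⟨m + 1, fun n hn => ?_⟩
  refine Filter.mem_of_superset (hpm n) (O_mono (st_anti H ?_) u)
  intro y hy
  refine ⟨?_, fun h => hur (acl_mono H (Set.singleton_subset_iff.2 hy) h)⟩
  have := hm hy
  omega

theorem exists_Ad {H : PG} (hT : Triv H) {u : ℕ} (hu : u ∉ acl H ∅) :
    ∃ p, NP p ∧ Ad H p u := by
  obtain ⟨p, hp, h⟩ := exists_SA hT hu
  exact ⟨p, hp, fun y hy => h {y} (Set.finite_singleton y) hy⟩

theorem Ad_lim {H : PG} (hH : Nice H) {r : Ultrafilter ℕ} (hr : NP r)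
    {p : ℕ → Ultrafilter ℕ} (hp : ∀ u, NP (p u)) (h : ∀ᶠ u in r, Ad H (p u) u) :
    ∀ᶠ u in r, T H (p u) = T H r := by
  obtain ⟨τ, -, hτ⟩ := pigeon (q := r) (f := fun u => T H (p u)) (fin1' hH)
    (Filter.Eventually.of_forall fun u => ⟨p u, hp u, rfl⟩)
  have h1 : τ = T H r := by
    funext y
    have h2 : ∀ᶠ u in r, u ∉ acl H {y} := hr.compl (acl_finite hH.oli (Set.finite_singleton y))
    have h3 : ∀ᶠ u in r, u ∈ T H r y := T_mem hH.oli r y
    obtain ⟨u, k1, k2, k3, k4⟩ := (h.and (hτ.and (h2.and h3))).exists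
    have k5 := k1 y k3
    rw [← k2]
    show T H (p u) y = T H r y
    rw [T_orb (show u ∈ T H (p u) y from k5), T_orb k4]
  rw [← h1]
  exact hτ

theorem ae_Ad {H : PG} (hH : Nice H) (hT : Triv H) {r : Ultrafilter ℕ} (hr : NP r) :
    ∀ᶠ u in r, Ad H r u := by
  have h1 : ∀ u, ∃ p, NP p ∧ (u ∉ acl H ∅ → Ad H p u) := by
    intro u
    by_cases hu : u ∈ acl H ∅
    · exact ⟨r, hr, fun h => absurd hu h⟩
    · obtain ⟨p, hp, hp'⟩ := exists_Ad hT hu
      exact ⟨p, hp, fun _ => hp'⟩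
  choose p hp hpA using h1
  have h2 : ∀ᶠ u in r, u ∉ acl H ∅ := hr.compl (acl_finite hH.oli Set.finite_empty)
  have h3 := Ad_lim hH hr hp (h2.mono fun u hu => hpA u hu)
  filter_upwards [h2, h3] with u h4 h5
  exact Ad_congr h5 (hpA u h4)

/-- the image of an ultrafilter under a permutation -/
theorem NP.map {p : Ultrafilter ℕ} (hp : NP p) (g : Equiv.Perm ℕ) : NP (p.map g) := by
  intro A hA
  show A ∈ p.map g
  rw [Ultrafilter.mem_map]
  refine hp ?_
  rw [Filter.mem_cofinite] at hA ⊢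
  have : (g ⁻¹' A)ᶜ = g ⁻¹' Aᶜ := rfl
  rw [this]
  exact hA.preimage g.injective.injOn

theorem mem_map_image {p : Ultrafilter ℕ} {g : Equiv.Perm ℕ} {A : Set ℕ} :
    g '' A ∈ p.map g ↔ A ∈ p := by
  rw [Ultrafilter.mem_map, Set.preimage_image_eq _ g.injective]

theorem T_map {H : PG} {g : Equiv.Perm ℕ} (hg : g ∈ H) (p : Ultrafilter ℕ) (x y : ℕ) :
    g x ∈ T H (p.map g) (g y) ↔ x ∈ T H p y := by
  show O (st H {g y}) (g x) ∈ p.map g ↔ O (st H {y}) x ∈ p
  have h1 := O_conj hg {y} x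
  rw [Set.image_singleton] at h1
  rw [← h1, mem_map_image]

theorem T_map_ne {H : PG} {g : Equiv.Perm ℕ} (hg : g ∈ H) {p q : Ultrafilter ℕ}
    (h : T H (p.map g) = T H (q.map g)) : T H p = T H q := by
  funext y
  ext x
  rw [← T_map hg p x y, h, T_map hg q x y]

theorem mem_acl_conj {H : PG} {g : Equiv.Perm ℕ} (hg : g ∈ H) {s : Set ℕ} {u : ℕ} :
    g u ∈ acl H (g '' s) ↔ u ∈ acl H s := by
  rw [← acl_conj hg]
  exact g.injective.mem_set_image

/-- conjugation of adapted ultrafilters over a finite set -/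
theorem Ad_conj {H : PG} {g : Equiv.Perm ℕ} (hg : g ∈ H) {s : Set ℕ} {p : Ultrafilter ℕ} {u : ℕ}
    (h : Ad (st H s) p u) : Ad (st H (g '' s)) (p.map g) (g u) := by
  intro y hy
  obtain ⟨y, rfl⟩ := g.surjective y
  rw [acl_st, ← Set.image_singleton, ← Set.image_union, mem_acl_conj hg, ← acl_st] at hy
  have h1 := h y hy
  rw [st_st] at h1 ⊢
  rw [← Set.image_singleton, ← Set.image_union, ← O_conj hg, mem_map_image]
  exact h1

theorem Ad_conj0 {H : PG} {g : Equiv.Perm ℕ} (hg : g ∈ H) {p : Ultrafilter ℕ} {u : ℕ}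
    (h : Ad H p u) : Ad H (p.map g) (g u) := by
  have h1 := Ad_conj hg (s := ∅) (p := p) (u := u) (by rw [st_empty]; exact h)
  rwa [Set.image_empty, st_empty] at h1

theorem Ad_unique {H : PG} (hH : Nice H) {u : ℕ} (hu : u ∉ acl H ∅) {p q : Ultrafilter ℕ}
    (hp : NP p) (hq : NP q) (hpA : Ad H p u) (hqA : Ad H q u) : T H p = T H q := by
  by_contra hne
  let J : Set ℕ := {u | u ∉ acl H ∅ ∧ ∃ p q, NP p ∧ NP q ∧ Ad H p u ∧ Ad H q u ∧ T H p ≠ T H q}
  have huJ : u ∈ J := ⟨hu, p, q, hp, hq, hpA, hqA, hne⟩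
  have hfin : J.Finite := by
    by_contra hinf
    obtain ⟨r, hr, hrJ⟩ := exists_NP (show J.Infinite from hinf)
    have h1 : ∀ u, ∃ p q, NP p ∧ NP q ∧ (u ∈ J → Ad H p u ∧ Ad H q u ∧ T H p ≠ T H q) := by
      intro u
      by_cases h : u ∈ J
      · obtain ⟨-, p, q, h1, h2, h3⟩ := h
        exact ⟨p, q, h1, h2, fun _ => h3⟩
      · exact ⟨r, r, hr, hr, fun h' => absurd h' h⟩
    choose P Q h1 h2 h3 using h1
    have h4 := Ad_lim hH hr h1 (Filter.mem_of_superset hrJ fun u hu => (h3 u hu).1)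
    have h5 := Ad_lim hH hr h2 (Filter.mem_of_superset hrJ fun u hu => (h3 u hu).2.1)
    have h6 : ∀ᶠ u in r, u ∈ J := hrJ
    obtain ⟨v, k1, k2, k3⟩ := (h4.and (h5.and h6)).exists
    exact (h3 v k3).2.2 (k1.trans k2.symm)
  apply hu
  refine acl_of_inv hfin ?_ huJ
  rintro g hg v ⟨h0, p, q, h1, h2, h3, h4, h5⟩
  rw [st_empty] at hg
  refine ⟨?_, p.map g, q.map g, h1.map g, h2.map g, Ad_conj0 hg h3, Ad_conj0 hg h4,
    fun h => h5 (T_map_ne hg h)⟩
  intro h6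
  apply h0
  have h7 := mem_acl_conj hg (s := ∅) (u := v)
  rw [Set.image_empty] at h7
  exact h7.1 h6

/-- the set of the points of the same type as `u` over `y` -/
def Q (H : PG) (u y : ℕ) : Set ℕ :=
  {v | v ∉ acl H {y} ∧ ∃ q, NP q ∧ Ad (st H {y}) q v ∧ Ad (st H {y}) q u}

theorem Q_mem {H : PG} (hH : Nice H) (hT : Triv H) {u y : ℕ} {p : Ultrafilter ℕ}
    (hp : NP p) : Q H u y ∈ p ↔ Ad (st H {y}) p u := by
  have hH' := hH.st (Set.finite_singleton y)
  have hT' := hT.st (Set.finite_singleton y)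
  have h1 : ∀ᶠ v in p, Ad (st H {y}) p v := ae_Ad hH' hT' hp
  have h2 : ∀ᶠ v in p, v ∉ acl H {y} := hp.compl (acl_finite hH.oli (Set.finite_singleton y))
  constructor
  · intro h
    have h3 : ∀ᶠ v in p, v ∈ Q H u y := h
    obtain ⟨v, k1, k2, -, q, hq, k3, k4⟩ := (h1.and (h2.and h3)).exists
    have k5 : v ∉ acl (st H {y}) ∅ := by
      rw [acl_st, Set.union_empty]; exact k2
    exact Ad_congr (Ad_unique hH' k5 hq hp k3 k1) k4
  · intro h
    have h3 : ∀ᶠ v in p, v ∈ Q H u y := by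
      filter_upwards [h1, h2] with v k1 k2
      exact ⟨k2, p, hp, k1, h⟩
    exact h3

theorem Q_conj {H : PG} {u y v : ℕ} {g : Equiv.Perm ℕ} (hg : g ∈ H) (hv : v ∈ Q H u y) :
    g v ∈ Q H (g u) (g y) := by
  obtain ⟨h1, q, hq, h2, h3⟩ := hv
  have h4 := Ad_conj hg h2
  have h5 := Ad_conj hg h3
  rw [Set.image_singleton] at h4 h5
  refine ⟨?_, q.map g, hq.map g, h4, h5⟩
  rw [← Set.image_singleton, mem_acl_conj hg]
  exact h1

/-- adapted over all singletons -/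
def Rr (H : PG) (p : Ultrafilter ℕ) (u : ℕ) : Prop := ∀ y, u ∉ acl H {y} → Ad (st H {y}) p u

theorem Rr_conj {H : PG} {p : Ultrafilter ℕ} {u : ℕ} {g : Equiv.Perm ℕ} (hg : g ∈ H)
    (h : Rr H p u) : Rr H (p.map g) (g u) := by
  intro y hy
  obtain ⟨y, rfl⟩ := g.surjective y
  rw [← Set.image_singleton, mem_acl_conj hg] at hy
  have h1 := Ad_conj hg (h y hy)
  rwa [Set.image_singleton] at h1

/-- finitely many conditions suffice -/
theorem exists_Y {H : PG} (hH : Nice H) (hT : Triv H) (u : ℕ) :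
    ∃ Y : Set ℕ, Y.Finite ∧ (∀ y ∈ Y, u ∉ acl H {y}) ∧
      ∀ p, NP p → (∀ y ∈ Y, Q H u y ∈ p) → Rr H p u := by
  have hH' := hH.st (Set.finite_singleton u)
  have hfin := fin1' hH'
  have h1 : ∀ f : ℕ → Set ℕ, ∃ y, (∃ p, NP p ∧ f = T (st H {u}) p ∧ ¬ Rr H p u) →
      u ∉ acl H {y} ∧ ∀ q, NP q → f = T (st H {u}) q → Q H u y ∉ q := by
    intro f
    by_cases h : ∃ p, NP p ∧ f = T (st H {u}) p ∧ ¬ Rr H p u
    · obtain ⟨p, hp, hf, h⟩ := h
      unfold Rr at h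
      push Not at h
      obtain ⟨y, hy1, hy2⟩ := h
      refine ⟨y, fun _ => ⟨hy1, fun q hq hf' hQ => hy2 ?_⟩⟩
      rw [← Q_mem hH hT hp]
      have h2 : T (st H {u}) q y ∈ q := T_mem hH'.oli q y
      obtain ⟨w, hw1, hw2⟩ := q.nonempty_of_mem (Filter.inter_mem h2 hQ)
      have h3 : T (st H {u}) p y ⊆ Q H u y := by
        rw [← hf, hf', T_orb hw1]
        rintro _ ⟨g, hg, rfl⟩
        have h4 := Q_conj hg.1.1 hw2
        rwa [hg.2 y rfl, hg.1.2 u rfl] at h4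
      exact Filter.mem_of_superset (T_mem hH'.oli p y) h3
    · exact ⟨0, fun h' => absurd h' h⟩
  choose y hy using h1
  let B : Set (ℕ → Set ℕ) := {f | ∃ p, NP p ∧ f = T (st H {u}) p ∧ ¬ Rr H p u}
  have hB : B.Finite := hfin.subset (by rintro f ⟨p, hp, hf, -⟩; exact ⟨p, hp, hf⟩)
  refine ⟨y '' B, hB.image y, ?_, ?_⟩
  · rintro _ ⟨f, hf, rfl⟩
    exact (hy f hf).1
  · intro p hp h
    by_contra hR
    have h2 : T (st H {u}) p ∈ B := ⟨p, hp, rfl, hR⟩
    exact (hy _ h2).2 p hp rfl (h _ ⟨_, h2, rfl⟩)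

theorem Ad_st {H : PG} (hH : Nice H) (hT : Triv H) {u : ℕ} (hu : u ∉ acl H ∅)
    {p : Ultrafilter ℕ} (hp : NP p) (hA : Ad H p u) : Rr H p u := by
  by_contra hR
  obtain ⟨Y, hY, hYu, hYR⟩ := exists_Y hH hT u
  obtain ⟨p₁, hp₁, hS⟩ := exists_SA hT hu
  have hA₁ : Ad H p₁ u := fun y hy => hS {y} (Set.finite_singleton y) hy
  have hR₁ : Rr H p₁ u := by
    intro y hy z hz
    rw [acl_st] at hz
    rw [st_st]
    exact hS _ ((Set.finite_singleton y).union (Set.finite_singleton z)) hz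
  have hTT := Ad_unique hH hu hp hp₁ hA hA₁
  let Z : Set ℕ := {v | ∀ y ∈ Y, v ∈ Q H u y}
  have hZ : ∀ q : Ultrafilter ℕ, Z ∈ q ↔ ∀ y ∈ Y, Q H u y ∈ q := by
    intro q
    exact Filter.eventually_all_finite (l := (q : Filter ℕ)) hY
      (p := fun y v => v ∈ Q H u y)
  have hZR : ∀ q, NP q → Z ∈ q → Rr H q u := fun q hq h => hYR q hq ((hZ q).1 h)
  have hRZ : ∀ q, NP q → Rr H q u → Z ∈ q := fun q hq h =>
    (hZ q).2 fun y hy => (Q_mem hH hT hq).2 (h y (hYu y hy))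
  have hZp : Z ∉ p := fun h => hR (hZR p hp h)
  have hZp₁ : Z ∈ p₁ := hRZ p₁ hp₁ hR₁
  -- the set is invariant up to finite sets
  have hfin : ∀ h ∈ st H {u}, ((h '' Z) \ Z).Finite := by
    intro h hh
    by_contra hinf
    obtain ⟨q, hq, hqm⟩ := exists_NP (show ((h '' Z) \ Z).Infinite from hinf)
    have h1 : h '' Z ∈ q := Filter.mem_of_superset hqm Set.sdiff_subset
    have h2 : Z ∉ q := by
      intro h2
      obtain ⟨w, hw1, hw2⟩ := q.nonempty_of_mem (Filter.inter_mem hqm h2)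
      exact hw1.2 hw2
    apply h2
    apply hRZ q hq
    have h3 : Z ∈ q.map (h⁻¹ : Equiv.Perm ℕ) := by
      rw [Ultrafilter.mem_map]
      have : (h⁻¹ : Equiv.Perm ℕ) ⁻¹' Z = h '' Z := by
        ext w
        constructor
        · intro hw
          exact ⟨h⁻¹ w, hw, by simp⟩
        · rintro ⟨z, hz, rfl⟩
          show h⁻¹ (h z) ∈ Z
          simpa using hz
      rw [this]; exact h1
    have h4 := Rr_conj hh.1 (hZR _ (hq.map (h⁻¹ : Equiv.Perm ℕ)) h3)
    have h5 : (q.map (h⁻¹ : Equiv.Perm ℕ)).map h = q := by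
      rw [Ultrafilter.map_map]
      have : (h ∘ (h⁻¹ : Equiv.Perm ℕ)) = id := by
        funext w; simp
      rw [this, Ultrafilter.map_id]
    rw [h5, hh.2 u rfl] at h4
    exact h4
  -- the two points
  let r : Set ℕ := insert u Y
  have hr : r.Finite := hY.insert u
  have haf : (acl H r).Finite := acl_finite hH.oli hr
  obtain ⟨x, hx⟩ := p.nonempty_of_mem (T_mem hH.oli p u)
  have hO : O (st H {u}) x ∈ p := hx
  have hO₁ : O (st H {u}) x ∈ p₁ := by rw [hTT] at hx; exact hx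
  obtain ⟨v, hv1, hv2, hv3⟩ := p₁.nonempty_of_mem
    (Filter.inter_mem hO₁ (Filter.inter_mem hZp₁ (hp₁.compl haf)))
  obtain ⟨w, hw1, hw2, hw3⟩ := p.nonempty_of_mem
    (Filter.inter_mem hO (Filter.inter_mem (Ultrafilter.compl_mem_iff_notMem.2 hZp)
      (hp.compl haf)))
  obtain ⟨h, hh, hhv⟩ : w ∈ O (st H {u}) v := O_trans (O_symm hv1) hw1
  have hZinv : ∀ g ∈ st H r, ∀ z ∈ Z, g z ∈ Z := by
    intro g hg z hz y hy
    have h1 := Q_conj hg.1 (hz y hy)
    rwa [hg.2 u (Set.mem_insert _ _), hg.2 y (Set.mem_insert_of_mem _ hy)] at h1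
  have hX : (h '' Z) \ Z ⊆ acl H (r ∪ h '' r) := by
    refine acl_of_inv (hfin h hh) ?_
    rintro g hg _ ⟨⟨z, hz, rfl⟩, hz2⟩
    refine ⟨?_, ?_⟩
    · refine ⟨(h⁻¹ * g * h) z, ?_, by simp⟩
      refine hZinv _ ⟨H.mul_mem (H.mul_mem (H.inv_mem hh.1) hg.1) hh.1, ?_⟩ z hz
      intro i hi
      have h1 := hg.2 (h i) (Or.inr ⟨i, hi, rfl⟩)
      rw [Equiv.Perm.mul_apply, Equiv.Perm.mul_apply, h1]; simp
    · intro h1
      apply hz2
      have h2 := hZinv g⁻¹ ⟨H.inv_mem hg.1, ?_⟩ _ h1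
      · simpa using h2
      · intro i hi
        rw [Equiv.Perm.inv_eq_iff_eq]
        exact (hg.2 i (Or.inl hi)).symm
  have hwX : w ∈ (h '' Z) \ Z := ⟨⟨v, hv2, hhv⟩, hw2⟩
  rcases hT.union hr (hr.image h) (hX hwX) with h1 | h1
  · exact hw3 h1
  · rw [← hhv, mem_acl_conj hh.1] at h1
    exact hv3 h1

/-- the type over a point is determined -/
theorem T_step {H : PG} (hH : Nice H) (hT : Triv H) {p q : Ultrafilter ℕ} (hp : NP p) (hq : NP q)
    (h : T H p = T H q) (y : ℕ) : T (st H {y}) p = T (st H {y}) q := by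
  have h1 : ∀ᶠ u in p, Ad H p u := ae_Ad hH hT hp
  have h2 : ∀ᶠ u in p, u ∉ acl H {y} := hp.compl (acl_finite hH.oli (Set.finite_singleton y))
  obtain ⟨u, k1, k2⟩ := (h1.and h2).exists
  have k3 : u ∉ acl H ∅ := fun h => k2 (acl_mono H (Set.empty_subset _) h)
  have k4 := Ad_st hH hT k3 hp k1 y k2
  have k5 := Ad_st hH hT k3 hq (Ad_congr h k1) y k2
  refine Ad_unique (hH.st (Set.finite_singleton y)) ?_ hp hq k4 k5
  rw [acl_st, Set.union_empty]; exact k2

theorem T_all {H : PG} (hH : Nice H) (hT : Triv H) {p q : Ultrafilter ℕ} (hp : NP p) (hq : NP q)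
    (h : T H p = T H q) {s : Set ℕ} (hs : s.Finite) : T (st H s) p = T (st H s) q := by
  induction s, hs using Set.Finite.induction_on with
  | empty => rw [st_empty]; exact h
  | @insert x s hx hs ih =>
    have h1 := T_step (hH.st hs) (hT.st hs) hp hq ih x
    rw [st_st, Set.union_singleton] at h1
    exact h1

theorem s_stat : S_STAT := by
  intro G hG _ hT
  classical
  -- a finite set separating the types
  have hfin := fin1' hG
  have h1 : ∀ a : (ℕ → Set ℕ) × (ℕ → Set ℕ), ∃ y, a.1 ≠ a.2 → a.1 y ≠ a.2 y := by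
    intro a
    by_cases h : a.1 = a.2
    · exact ⟨0, fun h' => absurd h h'⟩
    · obtain ⟨y, hy⟩ := Function.ne_iff.1 h
      exact ⟨y, fun _ => hy⟩
  choose y hy using h1
  refine ⟨y '' ({f : ℕ → Set ℕ | ∃ p, NP p ∧ f = T G p} ×ˢ {f : ℕ → Set ℕ | ∃ p, NP p ∧ f = T G p}),
    (hfin.prod hfin).image y, ?_⟩
  intro F hF hDF x z hx hz hxz
  obtain ⟨p, hp, hpm⟩ := exists_NP (show (O (st G F) x).Infinite from hx)
  obtain ⟨q, hq, hqm⟩ := exists_NP (show (O (st G F) z).Infinite from hz)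
  have h2 : T G p = T G q := by
    by_contra hne
    have h3 := hy (T G p, T G q) hne
    apply h3
    set d := y (T G p, T G q) with hd
    have hdD : d ∈ y '' ({f : ℕ → Set ℕ | ∃ p, NP p ∧ f = T G p} ×ˢ
        {f : ℕ → Set ℕ | ∃ p, NP p ∧ f = T G p}) := ⟨_, ⟨⟨p, hp, rfl⟩, ⟨q, hq, rfl⟩⟩, rfl⟩
    have h4 : x ∈ T G p d := Filter.mem_of_superset hpm
      (O_mono (st_anti G (Set.singleton_subset_iff.2 (hDF hdD))) x)
    have h5 : z ∈ T G q d := Filter.mem_of_superset hqm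
      (O_mono (st_anti G (Set.singleton_subset_iff.2 (hDF hdD))) z)
    show T G p d = T G q d
    rw [T_orb h4, T_orb h5]
    exact (O_eq (O_mono (st_anti G (Set.singleton_subset_iff.2 hdD)) x hxz)).symm
  have h3 := T_all hG hT hp hq h2 hF
  have h4 : O (st G F) x ∈ q := by
    have hd : y (T G p, T G q) ∈ F := hDF ⟨_, ⟨⟨p, hp, rfl⟩, ⟨q, hq, rfl⟩⟩, rfl⟩
    have h6 : st (st G F) {y (T G p, T G q)} = st G F := by
      rw [st_st, Set.union_eq_left.2 (Set.singleton_subset_iff.2 hd)]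
    have h5 : x ∈ T (st G F) p (y (T G p, T G q)) := by
      show O (st (st G F) {y (T G p, T G q)}) x ∈ p
      rw [h6]; exact hpm
    rw [h3] at h5
    have h7 : O (st (st G F) {y (T G p, T G q)}) x ∈ q := h5
    rw [h6] at h7
    exact h7
  obtain ⟨w, hw1, hw2⟩ := q.nonempty_of_mem (Filter.inter_mem h4 hqm)
  exact O_trans hw1 (O_symm hw2)

end Pool.Agent.L7h71.FP
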