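import Pool.Agent.L7h71.FP.Nice
import Pool.Agent.L7h71.FP.Sta
import Pool.Agent.L7h71.FP.Two
import Pool.Agent.L7h71.FP.FO
import Pool.Agent.L7h26.FP.Triv
import Pool.Agent.L7h73.FP.Chain
import Pool.Agent.L7h73.FP.Orb
import Pool.Agent.L7h7.FP.Asm

set_option autoImplicit false

/-!
Assembly.
-/

namespace Pool.Agent.L7h71.FP

open Set Filter

theorem s_grp : S_GRP := by
  intro G hC hF
  have hN : Nice G := s_nice Pool.Agent.L7h73.FP.s_chain G hF
  have hE : Exch G := s_exch G hN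
  have hT : Triv G := Pool.Agent.L7h26.FP.s_triv G (fun s hs => hF.st hs) hN hE
  have hS : Stat G := s_stat G hN hE hT
  exact ⟨hF.oli, Pool.Agent.L7h73.FP.Orb.s_orb G hC hN hE hT hS⟩

theorem s_bor : S_BOR := by
  intro a i₀ h B hB hinv hcl
  rcases Nat.lt_or_ge (a i₀) 2 with h1 | h1
  · exact Pool.Agent.L7h7.FP.s_asm s_grp a i₀ (by omega) B hB hinv hcl
  · exact two h1 B hcl

end Pool.Agent.L7h71.FP
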