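import Pool.Agent.L7h71.FP.Dc
import Pool.Agent.L7h71.FP.Grp

set_option autoImplicit false

/-!
Parts DC and CLS: the theorem on double cosets and on classes of structures.
-/

namespace Pool.Agent.L7h71.FP

open Set Filter MeasureTheory
open Pool.Agent.L7h71.COV (Str Iso)
open Pool.Agent.L7h71.CC (Perf perf_of_inv)

variable {a : ℕ → ℕ}

theorem clo_GrI (I : Set ℕ) (x : Str a) : Clo (GrI I x) := by
  intro g hg i hi v
  obtain ⟨h, hh, hv⟩ := hg (Finset.univ.image v)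
  have h1 : ⇑g ∘ v = ⇑h ∘ v := by
    funext j
    exact (hv (v j) (Finset.mem_image_of_mem _ (Finset.mem_univ _))).symm
  rw [h1]
  exact hh i hi v

theorem PresI.symm {I : Set ℕ} {x y : Str a} {σ : Equiv.Perm ℕ} (h : PresI I x y σ) :
    PresI I y x σ⁻¹ := by
  intro i hi v
  rw [← h i hi]
  congr 1
  funext j
  simp

theorem PresI.trans {I : Set ℕ} {x y z : Str a} {σ τ : Equiv.Perm ℕ} (h : PresI I x y σ)
    (h' : PresI I y z τ) : PresI I x z (τ * σ) := by
  intro i hi v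
  have h1 : ⇑(τ * σ) ∘ v = ⇑τ ∘ (⇑σ ∘ v) := rfl
  rw [h1, h' i hi, h i hi]

theorem s_dc (hN : S_NOP) (hL : S_LOC) (hS : S_SUP) : S_DC := by
  intro G K hG hK
  by_cases hOG : Opn G
  · exact Or.inl (dcc_of_opn hOG).symm
  by_cases hOK : Opn K
  · exact Or.inl (dcc_of_opn hOK)
  by_cases hFG : Few G
  swap
  · exact Or.inr (hN G K hG hK hFG hOK)
  by_cases hFK : Few K
  swap
  · exact Or.inr (hN K G hK hG hFK hOG).symm
  have hloc : ∀ G : PG, Clo G → Few G → ∃ D : Set ℕ, D.Finite ∧ ∃ u : Str rr,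
      LocI univ u ∧ GrI univ u = st G D := by
    intro G hG hF
    have hN : Nice G := s_nice Pool.Agent.L7h73.FP.s_chain G hF
    have hE : Exch G := s_exch G hN
    have hT : Triv G := Pool.Agent.L7h26.FP.s_triv G (fun s hs => hF.st hs) hN hE
    exact hL G hG hN hE hT (s_stat G hN hE hT)
  obtain ⟨D, hD, u, hu1, hu2⟩ := hloc G hG hFG
  obtain ⟨E, hE, v, hv1, hv2⟩ := hloc K hK hFK
  have hOlG : Oli (st G D) := (hFG.oli).st hD
  have hOlK : Oli (st K E) := (hFK.oli).st hE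
  let I : Set ℕ := {n | n % 2 = 0}
  let z : Str (fun n => rr (n / 2)) := fun n => if n % 2 = 0 then u (n / 2) else v (n / 2)
  have hz0 : ∀ n, n % 2 = 0 → z n = u (n / 2) := fun n hn => if_pos hn
  have hz1 : ∀ n, ¬ n % 2 = 0 → z n = v (n / 2) := fun n hn => if_neg hn
  have e1 : GrI I z = st G D := by
    rw [← hu2]
    ext g
    constructor
    · intro h k _ w
      obtain ⟨n, hn, hk⟩ : ∃ n, n % 2 = 0 ∧ n / 2 = k := ⟨2 * k, by omega, by omega⟩
      subst hk
      have := h n hn w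
      rwa [hz0 n hn] at this
    · intro h n hn w
      rw [hz0 n hn]
      exact h (n / 2) (mem_univ _) w
  have e2 : GrI Iᶜ z = st K E := by
    rw [← hv2]
    ext g
    constructor
    · intro h k _ w
      obtain ⟨n, hn, hk⟩ : ∃ n, ¬ n % 2 = 0 ∧ n / 2 = k := ⟨2 * k + 1, by omega, by omega⟩
      subst hk
      have := h n hn w
      rwa [hz1 n hn] at this
    · intro h n hn w
      rw [hz1 n hn]
      exact h (n / 2) (mem_univ _) w
  have l1 : LocI I z := by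
    obtain ⟨S, hS1, hS2⟩ := hu1
    refine ⟨S, hS1, fun n hn t ht => ?_⟩
    rw [hz0 n hn] at ht
    exact hS2 (n / 2) (mem_univ _) t ht
  have l2 : LocI Iᶜ z := by
    obtain ⟨S, hS1, hS2⟩ := hv1
    refine ⟨S, hS1, fun n hn t ht => ?_⟩
    rw [hz1 n hn] at ht
    exact hS2 (n / 2) (mem_univ _) t ht
  have h1 := hS _ I z l1 l2 (by rw [e1]; exact hOlG) (by rw [e2]; exact hOlK)
  rw [e1, e2] at h1
  have h2 := s_idx G K hG hK D E hD hE
  exact h1.imp h2.1 h2.2

/-! ### classes of structures -/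

open Classical in
/-- the relations outside `I` are moved by `σ` -/
noncomputable def mx (I : Set ℕ) (y : Str a) (σ : Equiv.Perm ℕ) : Str a :=
  fun i v => if i ∈ I then y i v else y i (⇑σ⁻¹ ∘ v)

theorem mx_in {I : Set ℕ} (y : Str a) (σ : Equiv.Perm ℕ) {i : ℕ} (hi : i ∈ I) :
    mx I y σ i = y i := by
  funext v
  exact if_pos hi

theorem mx_out {I : Set ℕ} (y : Str a) (σ : Equiv.Perm ℕ) {i : ℕ} (hi : i ∈ Iᶜ)
    (v : Fin (a i) → ℕ) : mx I y σ i v = y i (⇑σ⁻¹ ∘ v) := if_neg hi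

theorem mx_pres_in {I : Set ℕ} (y : Str a) (σ : Equiv.Perm ℕ) : PresI I y (mx I y σ) 1 := by
  intro i hi v
  rw [mx_in y σ hi]
  rfl

theorem mx_pres_out {I : Set ℕ} (y : Str a) (σ : Equiv.Perm ℕ) : PresI Iᶜ y (mx I y σ) σ := by
  intro i hi v
  rw [mx_out y σ hi]
  congr 1
  funext j
  simp

theorem iso_iff {x y : Str a} (I : Set ℕ) : Iso x y ↔ ∃ g, PresI I x y g ∧ PresI Iᶜ x y g := by
  constructor
  · rintro ⟨g, hg⟩
    exact ⟨g, fun i _ => hg i, fun i _ => hg i⟩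
  · rintro ⟨g, h1, h2⟩
    refine ⟨g, fun i => ?_⟩
    by_cases hi : i ∈ I
    · exact h1 i hi
    · exact h2 i hi

/-- isomorphic mixtures are in the same double coset -/
theorem mx_iso {I : Set ℕ} {y : Str a} {σ τ : Equiv.Perm ℕ}
    (h : Iso (mx I y σ) (mx I y τ)) : ∃ g ∈ GrI I y, ∃ k ∈ GrI Iᶜ y, τ = g * σ * k := by
  obtain ⟨g, h1, h2⟩ := (iso_iff I).1 h
  refine ⟨g, ?_, τ⁻¹ * g * σ |>.symm, ?_, ?_⟩
  · have := ((mx_pres_in y σ).trans h1).trans (mx_pres_in y τ).symm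
    have h3 : PresI I y y g := by simpa using this
    exact h3
  · have := ((mx_pres_out y σ).trans h2).trans (mx_pres_out y τ).symm
    have h3 : τ⁻¹ * (g * σ) ∈ GrI Iᶜ y := this
    have h4 := (GrI Iᶜ y).inv_mem h3
    rw [mul_assoc]
    exact h4
  · ext n
    have : τ n = g (σ ((τ⁻¹ * g * σ)⁻¹ n)) := by
      have e : τ = g * σ * (τ⁻¹ * g * σ)⁻¹ := by group
      conv_lhs => rw [e]
      rfl
    exact this

theorem mx_perf {I : Set ℕ} {B : Set (Str a)} {y : Str a}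
    (hB : ∀ σ, mx I y σ ∈ B) (h : DCp (GrI I y) (GrI Iᶜ y)) : Perf B := by
  obtain ⟨σ, hσ, hc⟩ := h
  refine ⟨fun c => mx I y (σ c), ?_, fun c => hB _, fun c d hi => hc c d (mx_iso hi)⟩
  refine continuous_pi fun i => continuous_pi fun v => ?_
  by_cases hi : i ∈ I
  · have : (fun c => mx I y (σ c) i v) = fun _ => y i v := by
      funext c
      rw [mx_in y _ hi]
    rw [this]
    exact continuous_const
  · have h1 : (fun c => mx I y (σ c) i v) = (fun w : Fin (a i) → ℕ => y i w) ∘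
        fun c => (⇑(σ c)⁻¹ ∘ v) := by
      funext c
      rw [mx_out y _ hi]
      rfl
    rw [h1]
    refine continuous_of_discreteTopology.comp (continuous_pi fun j => ?_)
    exact (continuous_apply (v j)).comp hσ.2

theorem few_iff_of_eq {I : Set ℕ} {x y : Str a} (h : ∀ i ∈ I, y i = x i) :
    GrI I y = GrI I x := by
  ext g
  constructor
  · intro hg i hi v
    have := hg i hi v
    rwa [h i hi] at this
  · intro hg i hi v
    have := hg i hi v
    rwa [← h i hi] at this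

/-- an invariant takes countably many values, or there is a perfect family -/
theorem inv_countable {B : Set (Str a)} (hB : MeasurableSet B) (hP : ¬ Perf B)
    (J : Str a → ℕ → Bool) (hJ : Measurable J) (hi : ∀ x y, Iso x y → J x = J y) :
    (J '' B).Countable := by
  by_contra hc
  apply hP
  have : StandardBorelSpace {x // x ∈ B} := hB.standardBorel
  refine perf_of_inv (B := B) (Y := {x // x ∈ B}) (Z := ℕ → Bool) (ι := Unit)
    (fun y => y.1) measurable_subtype_coe (fun y => y.2) (fun _ y => J y.1) ?_ ?_ ?_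
  · intro _
    exact hJ.comp measurable_subtype_coe
  · intro y y' h i
    exact ⟨i, hi _ _ h⟩
  · intro h
    apply hc
    refine h.mono ?_
    rintro _ ⟨x, hx, rfl⟩
    exact mem_iUnion.2 ⟨(), ⟨x, hx⟩, rfl⟩

theorem s_cls (hN : S_NOP) (hT : S_THY) (hD : S_DC) : S_CLS := by
  intro a I B hB hmix h1 h2
  by_cases hP : Perf B
  · exact Or.inr hP
  left
  have hmx : ∀ y ∈ B, ∀ σ, mx I y σ ∈ B := fun y hy σ =>
    hmix y hy _ ⟨_, mx_pres_in y σ⟩ ⟨_, mx_pres_out y σ⟩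
  have hf1 : ∀ x ∈ B, Few (GrI I x) := by
    intro x hx
    rcases h1 x hx with h | ⟨y, hy, hyx, ho⟩
    · exact h
    by_contra hc
    apply hP
    rw [← few_iff_of_eq hyx] at hc
    exact mx_perf (hmx y hy) (hN _ _ (clo_GrI I y) (clo_GrI Iᶜ y) hc ho)
  have hf2 : ∀ x ∈ B, Few (GrI Iᶜ x) := by
    intro x hx
    rcases h2 x hx with h | ⟨y, hy, hyx, ho⟩
    · exact h
    by_contra hc
    apply hP
    rw [← few_iff_of_eq hyx] at hc
    exact mx_perf (hmx y hy) (hN _ _ (clo_GrI Iᶜ y) (clo_GrI I y) hc ho).symm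
  obtain ⟨J, hJm, hJi, hJ⟩ := hT a I
  obtain ⟨J', hJm', hJi', hJ'⟩ := hT a Iᶜ
  have c1 : (J '' B).Countable := inv_countable hB hP J hJm fun x y h => by
    obtain ⟨g, hg, _⟩ := (iso_iff I).1 h
    exact hJi x y g hg
  have c2 : (J' '' B).Countable := inv_countable hB hP J' hJm' fun x y h => by
    obtain ⟨g, _, hg⟩ := (iso_iff I).1 h
    exact hJi' x y g hg
  -- for each pair of values countably many types
  have key : ∀ p : (ℕ → Bool) × (ℕ → Bool), ∃ f : ℕ → Str a, ∀ y ∈ B, J y = p.1 → J' y = p.2 →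
      ∃ n, Iso (f n) y := by
    intro p
    by_cases hx : ∃ x ∈ B, J x = p.1 ∧ J' x = p.2
    swap
    · exact ⟨fun _ _ _ => false, fun y hy h3 h4 => absurd ⟨y, hy, h3, h4⟩ hx⟩
    obtain ⟨x, hx, e1, e2⟩ := hx
    rcases hD (GrI I x) (GrI Iᶜ x) (clo_GrI I x) (clo_GrI Iᶜ x) with ⟨f, hf⟩ | hd
    swap
    · exact absurd (mx_perf (hmx x hx) hd) hP
    refine ⟨fun n => mx I x (f n), fun y hy h3 h4 => ?_⟩
    obtain ⟨ρ, hρ⟩ := hJ x y (hf1 x hx).oli (e1.trans h3.symm)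
    obtain ⟨τ, hτ⟩ := hJ' x y (hf2 x hx).oli (e2.trans h4.symm)
    obtain ⟨n, g, hg, k, hk, e⟩ := hf (ρ⁻¹ * τ)
    refine ⟨n, (iso_iff I).2 ⟨ρ * g, ?_, ?_⟩⟩
    · have h5 : PresI I (mx I x (f n)) x 1⁻¹ := (mx_pres_in x (f n)).symm
      have h6 : PresI I x x g := hg
      have := (h5.trans h6).trans hρ
      simpa using this
    · have h5 : PresI Iᶜ (mx I x (f n)) x (f n)⁻¹ := (mx_pres_out x (f n)).symm
      have h6 : PresI Iᶜ x x k⁻¹ := (GrI Iᶜ x).inv_mem hk
      have := (h5.trans h6).trans hτ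
      have h7 : ρ * g = τ * (k⁻¹ * (f n)⁻¹) := by
        have h8 : τ = ρ * (g * f n * k) := by rw [← e]; group
        rw [h8]; group
      rw [h7]
      exact this
  choose F hF using key
  have hc : ((J '' B) ×ˢ (J' '' B)).Countable := c1.prod c2
  rcases B.eq_empty_or_nonempty with hE | ⟨x0, hx0⟩
  · exact ⟨fun _ _ _ => false, fun x hx => by rw [hE] at hx; exact absurd hx (notMem_empty _)⟩
  obtain ⟨e, he⟩ := hc.exists_eq_range ⟨(J x0, J' x0), ⟨x0, hx0, rfl⟩, ⟨x0, hx0, rfl⟩⟩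
  refine ⟨fun n => F (e (Nat.unpair n).1) (Nat.unpair n).2, fun x hx => ?_⟩
  have h3 : (J x, J' x) ∈ (J '' B) ×ˢ (J' '' B) := ⟨⟨x, hx, rfl⟩, ⟨x, hx, rfl⟩⟩
  rw [he] at h3
  obtain ⟨m, hm⟩ := h3
  obtain ⟨n, hn⟩ := hF (J x, J' x) x hx rfl rfl
  refine ⟨Nat.pair m n, ?_⟩
  simp only [Nat.unpair_pair]
  rw [hm]
  exact hn

end Pool.Agent.L7h71.FP
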