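import Pool.Agent.L7h71.FP.Stm2

set_option autoImplicit false

/-!
Tool: for `p, q : ℕ → ι` with all fibres infinite, the permutation `sg p q` with `q (sg p q n) = p n`
which is increasing on the fibres; continuity in `q`.
-/

namespace Pool.Agent.L7h71.FP.Seg

open Set Filter Pool.Agent.L7h71.FP

variable {ι : Type} [DecidableEq ι]

/-- the number of the predecessors in the fibre -/
def rk (p : ℕ → ι) (n : ℕ) : ℕ := Nat.count (fun x => p x = p n) n

/-- the element with number `k` of the fibre of `i` -/
noncomputable def en (q : ℕ → ι) (i : ι) (k : ℕ) : ℕ := Nat.nth (fun x => q x = i) k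

/-- all fibres are infinite -/
def Inf (p : ℕ → ι) : Prop := ∀ i, {x | p x = i}.Infinite

theorem en_spec {q : ℕ → ι} (hq : Inf q) (i : ι) (k : ℕ) : q (en q i k) = i :=
  Nat.nth_mem_of_infinite (hq i) k

theorem rk_en {q : ℕ → ι} (hq : Inf q) (i : ι) (k : ℕ) : rk q (en q i k) = k := by
  unfold rk
  rw [en_spec hq i k]
  exact Nat.count_nth_of_infinite (hq i) k

theorem en_rk {q : ℕ → ι} (n : ℕ) : en q (q n) (rk q n) = n :=
  Nat.nth_count (p := fun x => q x = q n) rfl

theorem en_eq_iff {q : ℕ → ι} (hq : Inf q) (i : ι) (k n : ℕ) :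
    en q i k = n ↔ q n = i ∧ rk q n = k := by
  constructor
  · rintro rfl
    exact ⟨en_spec hq i k, rk_en hq i k⟩
  · rintro ⟨rfl, rfl⟩
    exact en_rk n

/-- the permutation -/
noncomputable def sg {p q : ℕ → ι} (hp : Inf p) (hq : Inf q) : Equiv.Perm ℕ where
  toFun n := en q (p n) (rk p n)
  invFun n := en p (q n) (rk q n)
  left_inv n := by
    show en p (q (en q (p n) (rk p n))) (rk q (en q (p n) (rk p n))) = n
    rw [en_spec hq, rk_en hq, en_rk]
  right_inv n := by
    show en q (p (en p (q n) (rk q n))) (rk p (en p (q n) (rk q n))) = n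
    rw [en_spec hp, rk_en hp, en_rk]

theorem sg_apply {p q : ℕ → ι} (hp : Inf p) (hq : Inf q) (n : ℕ) :
    sg hp hq n = en q (p n) (rk p n) := rfl

theorem sg_inv_apply {p q : ℕ → ι} (hp : Inf p) (hq : Inf q) (n : ℕ) :
    (sg hp hq)⁻¹ n = en p (q n) (rk q n) := rfl

theorem sg_spec {p q : ℕ → ι} (hp : Inf p) (hq : Inf q) (n : ℕ) : q (sg hp hq n) = p n :=
  en_spec hq _ _

theorem sg_inv_spec {p q : ℕ → ι} (hp : Inf p) (hq : Inf q) (n : ℕ) :
    p ((sg hp hq)⁻¹ n) = q n :=
  en_spec hp _ _

/-- the permutation maps fibres onto fibres -/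
theorem sg_image {p q : ℕ → ι} (hp : Inf p) (hq : Inf q) (i : ι) :
    sg hp hq '' {x | p x = i} = {x | q x = i} := by
  ext y
  constructor
  · rintro ⟨x, hx, rfl⟩
    exact (sg_spec hp hq x).trans hx
  · intro hy
    refine ⟨(sg hp hq)⁻¹ y, (sg_inv_spec hp hq y).trans hy, by simp⟩

theorem rk_continuous [TopologicalSpace ι] [DiscreteTopology ι] {X : Type} [TopologicalSpace X]
    {q : X → ℕ → ι} (hq : Continuous q) (n : ℕ) : Continuous fun x => rk (q x) n := by
  have h1 : Continuous fun x => (fun i : Fin (n + 1) => q x i.1) :=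
    continuous_pi fun i => (continuous_apply i.1).comp hq
  have h2 : (fun x => rk (q x) n) = (fun w : Fin (n + 1) → ι =>
      ((Finset.range n).filter fun j => w (Fin.ofNat (n + 1) j) = w (Fin.last n)).card) ∘
        fun x => (fun i : Fin (n + 1) => q x i.1) := by
    funext x
    simp only [Function.comp]
    unfold rk
    rw [Nat.count_eq_card_filter_range]
    congr 1
    apply Finset.filter_congr
    intro j hj
    have h3 : j % (n + 1) = j := Nat.mod_eq_of_lt (by have := Finset.mem_range.1 hj; omega)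
    simp [Fin.ofNat, h3]
  rw [h2]
  exact continuous_of_discreteTopology.comp h1

theorem sg_cfam [TopologicalSpace ι] [DiscreteTopology ι] {p : ℕ → ι} {q : (ℕ → Bool) → ℕ → ι}
    (hp : Inf p) (hq : ∀ c, Inf (q c)) (hc : Continuous q) : CFam fun c => sg hp (hq c) := by
  constructor
  · refine continuous_pi fun n => ?_
    rw [continuous_discrete_rng]
    intro m
    have h1 : (fun c => (sg hp (hq c)) n) ⁻¹' {m} =
        {c | q c m = p n} ∩ {c | rk (q c) m = rk p n} := by
      ext c
      simp only [mem_preimage, mem_singleton_iff, mem_inter_iff, mem_ofPred_eq]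
      rw [sg_apply, en_eq_iff (hq c)]
    rw [h1]
    refine IsOpen.inter ?_ ?_
    · exact (isOpen_discrete {p n}).preimage ((continuous_apply m).comp hc)
    · exact (isOpen_discrete {rk p n}).preimage (rk_continuous hc m)
  · refine continuous_pi fun n => ?_
    have h1 : (fun c => ((sg hp (hq c))⁻¹ : Equiv.Perm ℕ) n) =
        (fun w : ι × ℕ => en p w.1 w.2) ∘ fun c => (q c n, rk (q c) n) := by
      funext c
      rw [sg_inv_apply]
      rfl
    rw [h1]
    exact continuous_of_discreteTopology.comp
      (((continuous_apply n).comp hc).prodMk (rk_continuous hc n))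

end Pool.Agent.L7h71.FP.Seg
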