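import Pool.Agent.L7h71.FP.Ind
import Pool.Agent.L7h71.FP.Seg

set_option autoImplicit false

/-!
Parts NOP and DC: assembly of the theorem on double cosets.
-/

namespace Pool.Agent.L7h71.FP

open Set Filter MeasureTheory

theorem DCp.mono {G G' K K' : PG} (hG : G ≤ G') (hK : K ≤ K') (h : DCp G' K') : DCp G K := by
  obtain ⟨σ, hσ, hc⟩ := h
  exact ⟨σ, hσ, fun c d ⟨g, hg, k, hk, e⟩ => hc c d ⟨g, hG hg, k, hK hk, e⟩⟩

theorem cfam_mul_right {σ : (ℕ → Bool) → Equiv.Perm ℕ} (hσ : CFam σ) (ρ : Equiv.Perm ℕ) :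
    CFam fun c => σ c * ρ := by
  constructor
  · refine continuous_pi fun n => ?_
    exact (continuous_apply (ρ n)).comp hσ.1
  · refine continuous_pi fun n => ?_
    have h1 : (fun c => ((σ c * ρ)⁻¹ : Equiv.Perm ℕ) n) = (fun m => ρ⁻¹ m) ∘
        fun c => ((σ c)⁻¹ : Equiv.Perm ℕ) n := by
      funext c
      simp [mul_inv_rev]
    rw [h1]
    exact continuous_of_discreteTopology.comp ((continuous_apply n).comp hσ.2)

theorem cfam_mul_left {σ : (ℕ → Bool) → Equiv.Perm ℕ} (hσ : CFam σ) (ρ : Equiv.Perm ℕ) :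
    CFam fun c => ρ * σ c := by
  constructor
  · refine continuous_pi fun n => ?_
    have h1 : (fun c => (ρ * σ c : Equiv.Perm ℕ) n) = (fun m => ρ m) ∘
        fun c => (σ c : Equiv.Perm ℕ) n := rfl
    rw [h1]
    exact continuous_of_discreteTopology.comp ((continuous_apply n).comp hσ.1)
  · refine continuous_pi fun n => ?_
    have h1 : (fun c => ((ρ * σ c)⁻¹ : Equiv.Perm ℕ) n) =
        fun c => ((σ c)⁻¹ : Equiv.Perm ℕ) (ρ⁻¹ n) := by
      funext c
      simp [mul_inv_rev]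
    rw [h1]
    exact (continuous_apply (ρ⁻¹ n)).comp hσ.2

theorem cfam_inv {σ : (ℕ → Bool) → Equiv.Perm ℕ} (hσ : CFam σ) : CFam fun c => (σ c)⁻¹ := by
  refine ⟨hσ.2, ?_⟩
  simp only [inv_inv]
  exact hσ.1

theorem DCp.conjR {G K N : PG} {ρ : Equiv.Perm ℕ} (hK : ∀ k ∈ K, ρ * k * ρ⁻¹ ∈ N)
    (h : DCp G N) : DCp G K := by
  obtain ⟨σ, hσ, hc⟩ := h
  refine ⟨fun c => σ c * ρ, cfam_mul_right hσ ρ, fun c d ⟨g, hg, k, hk, e⟩ => hc c d
    ⟨g, hg, _, hK k hk, ?_⟩⟩
  have e' : σ d * ρ = g * (σ c * ρ) * k := e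
  have : σ d = (σ d * ρ) * ρ⁻¹ := by group
  rw [this, e']
  group

theorem DCp.conjL {G K N : PG} {ρ : Equiv.Perm ℕ} (hG : ∀ g ∈ G, ρ * g * ρ⁻¹ ∈ N)
    (h : DCp N K) : DCp G K := by
  obtain ⟨σ, hσ, hc⟩ := h
  refine ⟨fun c => ρ⁻¹ * σ c, cfam_mul_left hσ ρ⁻¹, fun c d ⟨g, hg, k, hk, e⟩ => hc c d
    ⟨_, hG g hg, k, hk, ?_⟩⟩
  have e' : ρ⁻¹ * σ d = g * (ρ⁻¹ * σ c) * k := e
  have : σ d = ρ * (ρ⁻¹ * σ d) := by group
  rw [this, e']
  group

theorem DCp.symm {G K : PG} (h : DCp G K) : DCp K G := by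
  obtain ⟨σ, hσ, hc⟩ := h
  refine ⟨fun c => (σ c)⁻¹, cfam_inv hσ, fun c d ⟨k, hk, g, hg, e⟩ => hc c d
    ⟨g⁻¹, G.inv_mem hg, k⁻¹, K.inv_mem hk, ?_⟩⟩
  have e' : (σ d)⁻¹ = k * (σ c)⁻¹ * g := e
  have : σ d = ((σ d)⁻¹)⁻¹ := by group
  rw [this, e']
  group

theorem DCc.symm {G K : PG} (h : DCc G K) : DCc K G := by
  obtain ⟨f, hf⟩ := h
  refine ⟨fun n => (f n)⁻¹, fun σ => ?_⟩
  obtain ⟨n, g, hg, k, hk, e⟩ := hf σ⁻¹
  refine ⟨n, k⁻¹, K.inv_mem hk, g⁻¹, G.inv_mem hg, ?_⟩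
  have : σ = (σ⁻¹)⁻¹ := by group
  rw [this, e]
  group

/-- if one of the groups is open then there are countably many double cosets -/
theorem dcc_of_opn {G K : PG} (hK : Opn K) : DCc G K := by
  classical
  obtain ⟨F, hF, hKF⟩ := hK
  have : Finite F := hF
  have : Countable (F → ℕ) := inferInstance
  obtain ⟨e, he⟩ := exists_surjective_nat (F → ℕ)
  refine ⟨fun n => if h : ∃ τ : Equiv.Perm ℕ, F.domRestrict ⇑τ = e n then h.choose else 1,
    fun σ => ?_⟩
  obtain ⟨n, hn⟩ := he (F.domRestrict ⇑σ)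
  have hex : ∃ τ : Equiv.Perm ℕ, F.domRestrict ⇑τ = e n := ⟨σ, hn.symm⟩
  refine ⟨n, 1, G.one_mem, hex.choose⁻¹ * σ, hKF _ fun i hi => ?_, ?_⟩
  · have h1 : F.domRestrict ⇑hex.choose = F.domRestrict ⇑σ := hex.choose_spec.trans hn
    have h2 : hex.choose i = σ i := congrFun h1 ⟨i, hi⟩
    rw [Equiv.Perm.mul_apply, ← h2]; simp
  · have h3 : (if h : ∃ τ : Equiv.Perm ℕ, F.domRestrict ⇑τ = e n then h.choose else 1) =
        hex.choose := dif_pos hex
    show σ = 1 * (if h : ∃ τ : Equiv.Perm ℕ, F.domRestrict ⇑τ = e n then h.choose else 1) *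
      (hex.choose⁻¹ * σ)
    rw [h3]; group

/-- open groups have countably many orbits on subsets -/
theorem few_of_opn {G : PG} (hG : Opn G) : Few G := by
  classical
  obtain ⟨F, hF, hGF⟩ := hG
  rintro ⟨A, hA, hc⟩
  -- two infinite coinfinite sets with the same restriction to `F` are in the same orbit
  have hinf : Infinite {n : ℕ // n ∉ F} := hF.infinite_compl.to_subtype
  obtain ⟨e⟩ : Nonempty (ℕ ≃ {n : ℕ // n ∉ F}) := nonempty_equiv_of_countable
  let Inf2 : (ℕ → Bool) → Prop := fun a => ∀ b, {n | a n = b}.Infinite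
  have key : ∀ a b : ℕ → Bool, Inf2 a → Inf2 b → (∀ n ∈ F, a n = b n) →
      ∃ g ∈ G, ∀ n, b (g n) = a n := by
    intro a b ha hb hab
    have hI : ∀ a : ℕ → Bool, Inf2 a → Seg.Inf (fun n => a (e n)) := by
      intro a ha i
      have h1 : {n | a n = i} ⊆ F ∪ (fun n => (e n : ℕ)) '' {x | a (e x) = i} := by
        intro n hn
        by_cases h : n ∈ F
        · exact Or.inl h
        · refine Or.inr ⟨e.symm ⟨n, h⟩, ?_, by simp⟩
          simpa using hn
      intro h2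
      exact ha i ((hF.union (h2.image _)).subset h1)
    let τ : Equiv.Perm ℕ := Seg.sg (hI a ha) (hI b hb)
    have hτ : ∀ n, b (e (τ n)) = a (e n) := Seg.sg_spec (hI a ha) (hI b hb)
    refine ⟨τ.extendDomain e, hGF _ fun n hn => ?_, fun n => ?_⟩
    · exact Equiv.Perm.extendDomain_apply_not_subtype _ _ (by simpa using hn)
    · by_cases h : n ∈ F
      · rw [Equiv.Perm.extendDomain_apply_not_subtype _ _ (by simpa using h), hab n h]
      · rw [Equiv.Perm.extendDomain_apply_subtype τ e (b := n) h, hτ]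
        simp
  -- the values are countable in number
  have h0 : ∀ c, {d | A d = A c}.Countable := fun c =>
    (hc c).mono fun d (hd : A d = A c) => by
      refine ⟨1, G.one_mem, fun n => ?_⟩
      rw [hd]; rfl
  have h1 : {c | ¬ Inf2 (A c)}.Countable := by
    have h2 : ({a : ℕ → Bool | ¬ Inf2 a}).Countable := by
      have h3 : {a : ℕ → Bool | ¬ Inf2 a} ⊆
          ⋃ b : Bool, Set.range fun s : Finset ℕ => fun n => if n ∈ s then b else !b := by
        intro a ha
        simp only [Inf2, not_forall, mem_ofPred_eq, Set.not_infinite] at ha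
        obtain ⟨b, hb⟩ := ha
        refine mem_iUnion.2 ⟨b, hb.toFinset, ?_⟩
        funext n
        by_cases h : a n = b
        · simp [h]
        · simp only [Set.Finite.mem_toFinset, mem_ofPred_eq, h, if_false]
          revert h; cases a n <;> cases b <;> simp
      exact (countable_iUnion fun b => countable_range _).mono h3
    have h4 : {c | ¬ Inf2 (A c)} ⊆ ⋃ a ∈ {a : ℕ → Bool | ¬ Inf2 a}, {c | A c = a} := by
      intro c hc'
      exact mem_biUnion (x := A c) hc' rfl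
    refine (Set.Countable.biUnion h2 fun a _ => ?_).mono h4
    by_cases h5 : ∃ c, A c = a
    · obtain ⟨c, rfl⟩ := h5
      exact h0 c
    · have : {c | A c = a} = ∅ := by
        ext c; simp only [mem_ofPred_eq, mem_empty_iff_false, iff_false]; exact fun h => h5 ⟨c, h⟩
      rw [this]; exact countable_empty
  have h2 : {c | Inf2 (A c)}.Countable := by
    have : Finite F := hF
    have : Countable (F → Bool) := inferInstance
    have h3 : {c | Inf2 (A c)} ⊆ ⋃ w : F → Bool, {c | Inf2 (A c) ∧ F.domRestrict (A c) = w} := by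
      intro c hc'
      exact mem_iUnion.2 ⟨_, hc', rfl⟩
    refine (countable_iUnion fun w => ?_).mono h3
    by_cases h5 : ∃ c, Inf2 (A c) ∧ F.domRestrict (A c) = w
    · obtain ⟨c, h6, h7⟩ := h5
      refine (hc c).mono ?_
      rintro d ⟨h8, h9⟩
      obtain ⟨g, hg, h10⟩ := key (A c) (A d) h6 h8 fun n hn => by
        have := congrFun (h7.trans h9.symm) ⟨n, hn⟩
        exact this
      exact ⟨g, hg, h10⟩
    · have : {c | Inf2 (A c) ∧ F.domRestrict (A c) = w} = ∅ := by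
        ext c; simp only [mem_ofPred_eq, mem_empty_iff_false, iff_false]; exact fun h => h5 ⟨c, h⟩
      rw [this]; exact countable_empty
  refine Pool.Agent.L7h71.CC.not_countable_cantor ((h1.union h2).mono fun c _ => ?_)
  exact (em (Inf2 (A c))).symm

theorem s_nop (hM : S_MOI) (hC : S_CRO) (hT : S_TWO) (hE : S_EQV) : S_NOP := by
  intro G K hG hK hF hO
  by_cases hm : Moi K
  · exact hM G K hG hK hF hm
  obtain ⟨C, hC1, r, m, h2, ρ, hρ⟩ := hE K hK hm hO
  by_cases hm' : Moi G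
  · have h3 : DCp G (NE r m) := hC G hG hF hm' r m h2
    have h4 : DCp G (st K C) := h3.conjR hρ
    have h5 := (s_idx G K hG hK ∅ C Set.finite_empty hC1).2
    rw [st_empty] at h5
    exact h5 h4
  · obtain ⟨D, hD1, r', m', h2', ρ', hρ'⟩ := hE G hG hm' fun h => hF (few_of_opn h)
    have h3 : DCp (NE r' m') (NE r m) := hT r' m' r m h2' h2
    have h4 : DCp (st G D) (st K C) := (h3.conjR hρ).conjL hρ'
    exact (s_idx G K hG hK D C hD1 hC1).2 h4

end Pool.Agent.L7h71.FP
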