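import Pool.Agent.L7h71.FP.Stm

set_option autoImplicit false

/-!
Exchange.
-/

namespace Pool.Agent.L7h71.FP

open Set Filter

theorem pigeon {β : Type*} {q : Ultrafilter ℕ} {f : ℕ → β} {S : Set β} (hS : S.Finite)
    (h : ∀ᶠ n in q, f n ∈ S) : ∃ b ∈ S, ∀ᶠ n in q, f n = b := by
  have h1 : (⋃ b ∈ S, {n | f n = b}) ∈ q := by
    filter_upwards [h] with n hn
    exact Set.mem_biUnion hn rfl
  rw [Ultrafilter.finite_biUnion_mem_iff hS] at h1
  exact h1

theorem exch0 {H : PG} (hH : Nice H) {x y : ℕ} (hx : (O H x).Infinite)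
    (hf : (O (st H {y}) x).Finite) : (O (st H {x}) y).Finite := by
  classical
  by_contra hinf
  have hinf' : (O (st H {x}) y).Infinite := hinf
  -- choice of the ultrafilters
  have h1 : ∀ u, ∃ p, NP p ∧ (u ∈ O H x → {v | E2 H x y u v} ∈ p) := by
    intro u
    by_cases hu : u ∈ O H x
    · obtain ⟨g, hg, rfl⟩ := hu
      have h2 : ({v | E2 H x y (g x) v}).Infinite := by
        refine (hinf'.image (f := g) g.injective.injOn).mono ?_
        rintro _ ⟨_, ⟨k, hk, rfl⟩, rfl⟩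
        refine ⟨g * k, H.mul_mem hg hk.1, ?_, rfl⟩
        rw [Equiv.Perm.mul_apply, hk.2 x rfl]
      obtain ⟨p, hp, hp'⟩ := exists_NP h2
      exact ⟨p, hp, fun _ => hp'⟩
    · obtain ⟨p, hp, -⟩ := exists_NP (Set.infinite_univ (α := ℕ))
      exact ⟨p, hp, fun h => absurd h hu⟩
  choose p hp hpm using h1
  obtain ⟨q, hq, hqm⟩ := exists_NP hx
  have hfin : Fin1 H := by
    have := hH.fin1 ∅ Set.finite_empty
    rwa [st_empty] at this
  obtain ⟨τ, -, hτ⟩ := pigeon (q := q) (f := fun u => T H (p u)) hfin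
    (Filter.Eventually.of_forall fun u => ⟨p u, hp u, rfl⟩)
  have hW : {u | u ∈ O H x ∧ T H (p u) = τ} ∈ q := Filter.inter_mem hqm hτ
  have hWi := hq.infinite hW
  obtain ⟨u₀, hu₀, hu₀'⟩ := hWi.nonempty
  -- all sets belong to one ultrafilter
  have h3 : ∀ u ∈ {u | u ∈ O H x ∧ T H (p u) = τ}, {v | E2 H x y u v} ∈ p u₀ := by
    rintro u ⟨⟨g, hg, rfl⟩, hu'⟩
    have h4 : {v | E2 H x y (g x) v} = O (st H {g x}) (g y) := by
      ext v
      rw [← E2_iff]
      constructor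
      · intro h
        exact E2_trans (E2_symm ⟨g, hg, rfl, rfl⟩) h
      · intro h
        exact E2_trans ⟨g, hg, rfl, rfl⟩ h
    have h5 : g y ∈ T H (p (g x)) (g x) := by
      show O (st H {g x}) (g y) ∈ p (g x)
      rw [← h4]
      exact hpm (g x) ⟨g, hg, rfl⟩
    rw [hu', ← hu₀'] at h5
    rw [h4]
    exact h5
  -- a bound
  have h6 : ∀ v, {u | E2 H x y u v}.Finite ∧
      {u | E2 H x y u v}.ncard ≤ (O (st H {y}) x).ncard := by
    intro v
    by_cases hv : v ∈ O H y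
    · obtain ⟨g, hg, rfl⟩ := hv
      have h7 : {u | E2 H x y u (g y)} ⊆ g '' O (st H {y}) x := by
        rintro u ⟨k, hk, rfl, hk'⟩
        refine ⟨g⁻¹ (k x), ⟨g⁻¹ * k, ⟨H.mul_mem (H.inv_mem hg) hk, ?_⟩, rfl⟩, by simp⟩
        rintro i rfl
        rw [Equiv.Perm.mul_apply, hk']; simp
      refine ⟨(hf.image g).subset h7, ?_⟩
      exact (Set.ncard_le_ncard h7 (hf.image g)).trans (Set.ncard_image_le hf)
    · have h7 : {u | E2 H x y u v} = ∅ := by
        ext u
        simp only [Set.mem_ofPred_eq, Set.mem_empty_iff_false, iff_false]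
        rintro ⟨k, hk, -, rfl⟩
        exact hv ⟨k, hk, rfl⟩
      rw [h7]
      simp
  obtain ⟨W, hW1, hW2⟩ := hWi.exists_subset_card_eq ((O (st H {y}) x).ncard + 1)
  have h8 : ∀ᶠ v in p u₀, ∀ u ∈ W, E2 H x y u v := by
    rw [Filter.eventually_all_finset]
    intro u hu
    exact h3 u (hW1 hu)
  obtain ⟨v, hv⟩ := h8.exists
  have h9 : (W : Set ℕ) ⊆ {u | E2 H x y u v} := fun u hu => hv u hu
  have h10 := Set.ncard_le_ncard h9 (h6 v).1
  rw [Set.ncard_coe_finset, hW2] at h10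
  have := (h6 v).2
  omega

theorem s_exch : S_EXCH := by
  intro G hG s hs x y h1 h2
  have hH := hG.st hs
  have h3 : (O (st G s) x).Infinite := h1
  have h4 : (O (st (st G s) {y}) x).Finite := by
    rw [st_st, Set.union_singleton]; exact h2
  have h5 := exch0 hH h3 h4
  rw [st_st, Set.union_singleton] at h5
  exact h5

end Pool.Agent.L7h71.FP
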