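import Pool.Agent.L7h71.FP.FoF
import Pool.Agent.L7h26.DU.Moi
import Pool.Agent.L7h50.DU.Std
import Pool.Agent.L7h50.DU.Eqv
import Pool.Agent.L7h50.DU.Two
import Pool.Agent.L7h65.DU.Cro
import Pool.Agent.L7h65.DU.Thy
import Pool.Agent.L7h23.DU.Loc
import Pool.Agent.L7h23.DU.Sup

set_option autoImplicit false

/-!
The final assembly for theories in disjoint languages.
-/

namespace Pool.Agent.L7h71.FP

open Set Filter MeasureTheory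
open Pool.Agent.L7h71.COV (Str Iso)
open Pool.Agent.L7h71.CC (Perf)

theorem nop : S_NOP :=
  s_nop (Pool.Agent.L7h26.DU.s_moi s_ind) (Pool.Agent.L7h65.DU.s_cro s_ind s_idx)
    (Pool.Agent.L7h50.DU.Two.s_two s_ind Pool.Agent.L7h50.DU.s_std)
    (Pool.Agent.L7h50.DU.s_eqv Pool.Agent.L7h50.DU.s_std)

/-- countably or perfectly many double cosets -/
theorem dc : S_DC :=
  s_dc nop Pool.Agent.L7h23.DU.s_loc (Pool.Agent.L7h23.DU.s_sup Pool.Agent.L7h65.DU.s_thy)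

/-- classes of structures closed under independent changes of two parts of the language -/
theorem cls' : S_CLS := s_cls nop Pool.Agent.L7h65.DU.s_thy dc

/-- countably many orbits on subsets -/
theorem few_of_cnt {G : PG} (h : ∃ f : ℕ → ℕ → Bool, ∀ A : ℕ → Bool, ∃ n, ∃ g ∈ G,
    ∀ m, A (g m) = f n m) : Few G := by
  rintro ⟨A, hA, hc⟩
  obtain ⟨f, hf⟩ := h
  apply Pool.Agent.L7h71.CC.not_countable_cantor
  have h1 : (univ : Set (ℕ → Bool)) ⊆ ⋃ n, {c | ∃ g ∈ G, ∀ m, A c (g m) = f n m} := by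
    intro c _
    obtain ⟨n, g, hg, h2⟩ := hf (A c)
    exact mem_iUnion.2 ⟨n, g, hg, h2⟩
  refine (countable_iUnion fun n => ?_).mono h1
  by_cases hn : ∃ c, ∃ g ∈ G, ∀ m, A c (g m) = f n m
  · obtain ⟨c, g, hg, h2⟩ := hn
    refine (hc c).mono ?_
    rintro d ⟨k, hk, h3⟩
    refine ⟨k * g⁻¹, G.mul_mem hk (G.inv_mem hg), fun m => ?_⟩
    have h4 := h3 (g⁻¹ m)
    have h5 := h2 (g⁻¹ m)
    rw [Equiv.Perm.mul_apply, h4, ← h5]
    simp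
  · have : {c | ∃ g ∈ G, ∀ m, A c (g m) = f n m} = ∅ := by
      ext c
      simp only [mem_ofPred_eq, mem_empty_iff_false, iff_false]
      exact fun h => hn ⟨c, h⟩
    rw [this]; exact countable_empty

/-- intersections of classes for disjoint parts of the language -/
theorem inter {a : ℕ → ℕ} (I : Set ℕ) (B₀ B₁ : Set (Str a)) (m0 : MeasurableSet B₀)
    (m1 : MeasurableSet B₁) (i0 : ∀ x y, Iso x y → (x ∈ B₀ ↔ y ∈ B₀))
    (i1 : ∀ x y, Iso x y → (x ∈ B₁ ↔ y ∈ B₁))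
    (d0 : ∀ x y : Str a, (∀ i ∈ I, x i = y i) → (x ∈ B₀ ↔ y ∈ B₀))
    (d1 : ∀ x y : Str a, (∀ i ∉ I, x i = y i) → (x ∈ B₁ ↔ y ∈ B₁))
    (n1 : (∀ x ∈ B₀, Few (GrI I x)) ∨ ∃ x ∈ B₁, ¬ Opn (GrI Iᶜ x))
    (n0 : (∀ x ∈ B₁, Few (GrI Iᶜ x)) ∨ ∃ x ∈ B₀, ¬ Opn (GrI I x)) :
    (∃ f : ℕ → Str a, ∀ x ∈ B₀ ∩ B₁, ∃ n, Iso (f n) x) ∨ Perf (B₀ ∩ B₁) := by
  classical
  -- transport of a structure
  have tr : ∀ (x : Str a) (σ : Equiv.Perm ℕ), ∃ y : Str a, ∀ i v, y i (⇑σ ∘ v) = x i v := by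
    intro x σ
    refine ⟨fun i v => x i (⇑σ⁻¹ ∘ v), fun i v => ?_⟩
    show x i (⇑σ⁻¹ ∘ (⇑σ ∘ v)) = x i v
    congr 1
    funext j
    simp
  have hpi : ∀ {J : Set ℕ} {x y z : Str a} {σ : Equiv.Perm ℕ}, PresI J x y σ →
      (∀ i v, z i (⇑σ ∘ v) = x i v) → ∀ i ∈ J, z i = y i := by
    intro J x y z σ h1 h2 i hi
    funext v
    have h3 := h1 i hi (⇑σ⁻¹ ∘ v)
    have h4 := h2 i (⇑σ⁻¹ ∘ v)
    have h5 : ⇑σ ∘ (⇑σ⁻¹ ∘ v) = v := by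
      funext j
      simp
    rw [h5] at h3 h4
    rw [h3, h4]
  refine cls' a I (B₀ ∩ B₁) (m0.inter m1) ?_ ?_ ?_
  · rintro x ⟨hx0, hx1⟩ y ⟨σ, hσ⟩ ⟨τ, hτ⟩
    constructor
    · obtain ⟨z, hz⟩ := tr x σ
      have h1 : z ∈ B₀ := (i0 x z ⟨σ, hz⟩).1 hx0
      exact (d0 z y (hpi hσ hz)).1 h1
    · obtain ⟨z, hz⟩ := tr x τ
      have h1 : z ∈ B₁ := (i1 x z ⟨τ, hz⟩).1 hx1
      exact (d1 z y (hpi hτ hz)).1 h1
  · rintro x ⟨hx0, hx1⟩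
    rcases n1 with hf | ⟨w, hw, ho⟩
    · exact Or.inl (hf x hx0)
    refine Or.inr ⟨fun i => if i ∈ I then x i else w i, ⟨?_, ?_⟩, fun i hi => if_pos hi, ?_⟩
    · exact (d0 x _ fun i hi => (if_pos hi).symm).1 hx0
    · exact (d1 w _ fun i hi => (if_neg hi).symm).1 hw
    · rw [few_iff_of_eq (I := Iᶜ) (x := w) fun i (hi : i ∉ I) => if_neg hi]
      exact ho
  · rintro x ⟨hx0, hx1⟩
    rcases n0 with hf | ⟨w, hw, ho⟩
    · exact Or.inl (hf x hx1)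
    refine Or.inr ⟨fun i => if i ∈ I then w i else x i, ⟨?_, ?_⟩, fun i hi => if_neg hi, ?_⟩
    · exact (d0 w _ fun i hi => (if_pos hi).symm).1 hw
    · exact (d1 x _ fun i hi => (if_neg hi).symm).1 hx1
    · rw [few_iff_of_eq (I := I) (x := w) fun i hi => if_pos hi]
      exact ho

end Pool.Agent.L7h71.FP
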