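import Pool.Agent.L7h71.FP.Cls
import Pool.Agent.L7h71.FP.FO

set_option autoImplicit false

/-!
First-order theories in disjoint languages, relational version.
-/

namespace Pool.Agent.L7h71.FP

open FirstOrder FirstOrder.Language
open Pool.Agent.W889.FO (VaughtF Vaught SIso Ax ax_iff SIso.model SIso.trans SIso.symm)
open Pool.Agent.L7h71.COV (Str Iso)
open Pool.Agent.L7h71.CC (Perf)

/-- isomorphisms for the symbols with the property `Q` -/
def PP {L' : FirstOrder.Language.{0, 0}} (Q : (Σ n, L'.Relations n) → Prop)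
    (S S' : L'.Structure ℕ) (σ : Equiv.Perm ℕ) : Prop :=
  ∀ (n : ℕ) (R : L'.Relations n), Q ⟨n, R⟩ → ∀ v : Fin n → ℕ,
    (@Structure.RelMap L' ℕ S' n R (⇑σ ∘ v) ↔ @Structure.RelMap L' ℕ S n R v)

/-- automorphisms for the symbols with the property `Q` -/
def AQ {L' : FirstOrder.Language.{0, 0}} (Q : (Σ n, L'.Relations n) → Prop)
    (S : L'.Structure ℕ) : PG where
  carrier := {g | PP Q S S g}
  mul_mem' := by
    intro g h hg hh n R hQ v
    have h1 : ⇑(g * h) ∘ v = ⇑g ∘ (⇑h ∘ v) := rfl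
    rw [h1, hg n R hQ, hh n R hQ]
  one_mem' := fun n R hQ v => Iff.rfl
  inv_mem' := by
    intro g hg n R hQ v
    rw [← hg n R hQ]
    have h1 : ⇑g ∘ (⇑g⁻¹ ∘ v) = v := by
      funext j
      simp
    rw [h1]

section rel

open Pool.Agent.R617.VT

variable {L' : FirstOrder.Language.{0, 0}} [L'.IsRelational]
  {e : (Σ n, L'.Relations n) → ℕ} (he : Function.Injective e)

/-- the numbers of the symbols with the property `Q` -/
def iQ (e : (Σ n, L'.Relations n) → ℕ) (Q : (Σ n, L'.Relations n) → Prop) : Set ℕ :=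
  {i | ∃ p, e p = i ∧ Q p}

include he in
theorem pp_of_pres {Q : (Σ n, L'.Relations n) → Prop} {I : Set ℕ}
    (hI : ∀ p, Q p → e p ∈ I) {x y : Str (ar e)} {σ : Equiv.Perm ℕ}
    (h : PresI I x y σ) : PP Q (dc he x) (dc he y) σ := by
  intro n R hQ v
  rw [rel_dc, rel_dc]
  have := h (e ⟨n, R⟩) (hI _ hQ) (fun k => v (Fin.cast (ar_e he ⟨n, R⟩) k))
  rw [← this]
  exact Iff.rfl

include he in
theorem pres_of_pp {Q : (Σ n, L'.Relations n) → Prop} {I : Set ℕ}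
    (hI : ∀ p, e p ∈ I → Q p) {x y : Str (ar e)} (hx : Nrm x) (hy : Nrm y) {σ : Equiv.Perm ℕ}
    (h : PP Q (dc he x) (dc he y) σ) : PresI I x y σ := by
  intro i hi v
  by_cases hp : ∃ p, e p = i
  · obtain ⟨⟨n, R⟩, rfl⟩ := hp
    have hn := ar_e he ⟨n, R⟩
    have h1 := h n R (hI _ hi) (fun k => v (Fin.cast hn.symm k))
    rw [rel_dc, rel_dc] at h1
    rw [Bool.eq_iff_iff]
    exact h1
  · rw [hx i hp, hy i hp]

include he in
theorem aq_eq {Q : (Σ n, L'.Relations n) → Prop} {I : Set ℕ}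
    (hI : ∀ p, e p ∈ I ↔ Q p) {x : Str (ar e)} (hx : Nrm x) :
    GrI I x = AQ Q (dc he x) := by
  ext g
  exact ⟨fun h => pp_of_pres he (fun p hp => (hI p).2 hp) h,
    fun h => pres_of_pp he (fun p hp => (hI p).1 hp) hx hx h⟩

/-- equality of codes -/
theorem cd_eq {x : Str (ar e)} (hx : Nrm x) {S : L'.Structure ℕ} {i : ℕ}
    (h : ∀ (n : ℕ) (R : L'.Relations n), e ⟨n, R⟩ = i → ∀ v : Fin n → ℕ,
      (@Structure.RelMap L' ℕ S n R v ↔ @Structure.RelMap L' ℕ (dc he x) n R v)) :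
    cd he S i = x i := by
  funext v
  by_cases hp : ∃ p, e p = i
  · obtain ⟨⟨n, R⟩, rfl⟩ := hp
    have hn := ar_e he ⟨n, R⟩
    have h1 := cd_e he S R (fun k => v (Fin.cast hn.symm k))
    have h2 := h n R rfl (fun k => v (Fin.cast hn.symm k))
    rw [rel_dc] at h2
    rw [Bool.eq_iff_iff]
    exact h1.trans h2
  · rw [hx i hp, nrm_cd he _ i hp]

/-- decoding the code -/
theorem dc_cd_rel (S : L'.Structure ℕ) {n : ℕ} (R : L'.Relations n) (v : Fin n → ℕ) :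
    @Structure.RelMap L' ℕ (dc he (cd he S)) n R v ↔ @Structure.RelMap L' ℕ S n R v :=
  cd_e he S R v

theorem aq_dc_cd (Q : (Σ n, L'.Relations n) → Prop) (S : L'.Structure ℕ) :
    AQ Q (dc he (cd he S)) = AQ Q S := by
  ext g
  constructor
  · intro h n R hQ v
    have := h n R hQ v
    rwa [dc_cd_rel, dc_cd_rel] at this
  · intro h n R hQ v
    rw [dc_cd_rel, dc_cd_rel]
    exact h n R hQ v

end rel

/-- the relational version of the theorem for theories -/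
theorem fo_two_rel (hC : S_CLS) {L' : FirstOrder.Language.{0, 0}} [L'.IsRelational]
    [Countable (Σ n, L'.Relations n)] (Q : (Σ n, L'.Relations n) → Prop) (T : L'.Theory)
    (hmix : ∀ S S' : L'.Structure ℕ, @Theory.Model L' ℕ S T → (∃ σ, PP Q S S' σ) →
      (∃ τ, PP (fun p => ¬ Q p) S S' τ) → @Theory.Model L' ℕ S' T)
    (h1 : ∀ S : L'.Structure ℕ, @Theory.Model L' ℕ S T → Few (AQ Q S) ∨
      ∃ S' : L'.Structure ℕ, @Theory.Model L' ℕ S' T ∧ PP Q S S' 1 ∧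
        ¬ Opn (AQ (fun p => ¬ Q p) S'))
    (h2 : ∀ S : L'.Structure ℕ, @Theory.Model L' ℕ S T → Few (AQ (fun p => ¬ Q p) S) ∨
      ∃ S' : L'.Structure ℕ, @Theory.Model L' ℕ S' T ∧ PP (fun p => ¬ Q p) S S' 1 ∧
        ¬ Opn (AQ Q S')) : Vaught L' T := by
  obtain ⟨e, he⟩ := Countable.exists_injective_nat (Σ n, L'.Relations n)
  open Pool.Agent.R617.VT in
  let I : Set ℕ := iQ e Q
  have hI : ∀ p, e p ∈ I ↔ Q p := fun p =>
    ⟨fun ⟨q, hq, hQ⟩ => by rwa [he hq] at hQ, fun h => ⟨p, rfl, h⟩⟩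
  have hI' : ∀ p, e p ∈ Iᶜ ↔ ¬ Q p := fun p => not_congr (hI p)
  refine Pool.Agent.R617.VT.vaught_of he (hC (Pool.Agent.R617.VT.ar e) I
    (Pool.Agent.R617.VT.Md he T) (Pool.Agent.R617.VT.md_meas he T) ?_ ?_ ?_)
  · rintro x ⟨hx, hm⟩ y ⟨σ, hσ⟩ ⟨τ, hτ⟩
    refine ⟨fun i hi v => ?_, hmix _ _ hm ⟨σ, pp_of_pres he (fun p hp => (hI p).2 hp) hσ⟩
      ⟨τ, pp_of_pres he (fun p hp => (hI' p).2 hp) hτ⟩⟩
    have hiI : i ∈ Iᶜ := fun ⟨p, hp, _⟩ => hi ⟨p, hp⟩
    have h3 := hτ i hiI (⇑τ⁻¹ ∘ v)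
    have h4 : ⇑τ ∘ (⇑τ⁻¹ ∘ v) = v := by
      funext j
      simp
    rw [h4, hx i hi] at h3
    exact h3
  · rintro x ⟨hx, hm⟩
    rcases h1 _ hm with h | ⟨S', hS', hp, ho⟩
    · exact Or.inl (by rw [aq_eq he hI hx]; exact h)
    · right
      refine ⟨Pool.Agent.R617.VT.cd he S', ⟨Pool.Agent.R617.VT.nrm_cd he S',
        (Pool.Agent.R617.VT.siso_dc_cd he S').model hS'⟩, fun i hi => ?_, ?_⟩
      · refine cd_eq he hx fun n R hR v => ?_
        subst hR
        exact hp n R ((hI _).1 hi) v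
      · rw [aq_eq he hI' (Pool.Agent.R617.VT.nrm_cd he S'), aq_dc_cd]
        exact ho
  · rintro x ⟨hx, hm⟩
    rcases h2 _ hm with h | ⟨S', hS', hp, ho⟩
    · exact Or.inl (by rw [aq_eq he hI' hx]; exact h)
    · right
      refine ⟨Pool.Agent.R617.VT.cd he S', ⟨Pool.Agent.R617.VT.nrm_cd he S',
        (Pool.Agent.R617.VT.siso_dc_cd he S').model hS'⟩, fun i hi => ?_, ?_⟩
      · refine cd_eq he hx fun n R hR v => ?_
        subst hR
        exact hp n R ((hI' _).1 hi) v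
      · rw [aq_eq he hI (Pool.Agent.R617.VT.nrm_cd he S'), aq_dc_cd]
        exact ho

end Pool.Agent.L7h71.FP
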