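import Pool.Agent.L7h71.FP.FoD

set_option autoImplicit false

/-!
First-order theories in disjoint languages.
-/

namespace Pool.Agent.L7h71.FPE

open FirstOrder FirstOrder.Language
open Pool.Agent.L7h71.FP (PG PP AQ Few Opn S_CLS fo_two_rel)
open Pool.Agent.W889.FO (VaughtF Vaught SIso Ax ax_iff SIso.model SIso.trans SIso.symm)
open Pool.Agent.W889.FO.St0

/-- isomorphisms between structures on `ℕ` -/
structure IsI {L : FirstOrder.Language.{0, 0}} (S S' : L.Structure ℕ) (σ : Equiv.Perm ℕ) :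
    Prop where
  fn : ∀ (n : ℕ) (F : L.Functions n) (v : Fin n → ℕ),
    @Structure.funMap L ℕ S' n F (⇑σ ∘ v) = σ (@Structure.funMap L ℕ S n F v)
  rel : ∀ (n : ℕ) (R : L.Relations n) (v : Fin n → ℕ),
    (@Structure.RelMap L ℕ S' n R (⇑σ ∘ v) ↔ @Structure.RelMap L ℕ S n R v)

theorem IsI.siso {L : FirstOrder.Language.{0, 0}} {S S' : L.Structure ℕ} {σ : Equiv.Perm ℕ}
    (h : IsI S S' σ) : SIso S S' :=
  ⟨@FirstOrder.Language.Equiv.mk L ℕ ℕ S S' σ (fun {n} F v => (h.fn n F v).symm)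
    (fun {n} R v => h.rel n R v)⟩

theorem IsI.symm' {L : FirstOrder.Language.{0, 0}} {S S' : L.Structure ℕ} (h : IsI S S' 1) :
    IsI S' S 1 :=
  ⟨fun n F v => (h.fn n F v).symm, fun n R v => (h.rel n R v).symm⟩

variable {L₀ L₁ : FirstOrder.Language.{0, 0}}

/-- the left reduct -/
@[reducible] def lf (M : (L₀.sum L₁).Structure ℕ) : L₀.Structure ℕ where
  funMap := fun {n} F v => @Structure.funMap (L₀.sum L₁) ℕ M n (Sum.inl F) v
  RelMap := fun {n} R v => @Structure.RelMap (L₀.sum L₁) ℕ M n (Sum.inl R) v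

/-- the right reduct -/
@[reducible] def rt (M : (L₀.sum L₁).Structure ℕ) : L₁.Structure ℕ where
  funMap := fun {n} F v => @Structure.funMap (L₀.sum L₁) ℕ M n (Sum.inr F) v
  RelMap := fun {n} R v => @Structure.RelMap (L₀.sum L₁) ℕ M n (Sum.inr R) v

/-- the union of the theories -/
def un (T₀ : L₀.Theory) (T₁ : L₁.Theory) : (L₀.sum L₁).Theory :=
  (LHom.sumInl : L₀ →ᴸ L₀.sum L₁).onTheory T₀ ∪ (LHom.sumInr : L₁ →ᴸ L₀.sum L₁).onTheory T₁

theorem model_un (T₀ : L₀.Theory) (T₁ : L₁.Theory) (M : (L₀.sum L₁).Structure ℕ) :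
    @Theory.Model (L₀.sum L₁) ℕ M (un T₀ T₁) ↔
      @Theory.Model L₀ ℕ (lf M) T₀ ∧ @Theory.Model L₁ ℕ (rt M) T₁ := by
  unfold un
  rw [@Theory.model_union_iff]
  refine and_congr ?_ ?_
  · exact @LHom.onTheory_model L₀ (L₀.sum L₁) ℕ (lf M) M LHom.sumInl
      (@LHom.IsExpansionOn.mk L₀ (L₀.sum L₁) LHom.sumInl ℕ (lf M) M
        (fun _ _ => rfl) (fun _ _ => rfl)) T₀
  · exact @LHom.onTheory_model L₁ (L₀.sum L₁) ℕ (rt M) M LHom.sumInr
      (@LHom.IsExpansionOn.mk L₁ (L₀.sum L₁) LHom.sumInr ℕ (rt M) M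
        (fun _ _ => rfl) (fun _ _ => rfl)) T₁

/-- the symbols of the left language -/
def side : (Σ n, (LF (L₀.sum L₁)).Relations n) → Prop
  | ⟨_, RF.rel (Sum.inl _)⟩ => True
  | ⟨_, RF.rel (Sum.inr _)⟩ => False
  | ⟨_, RF.fn (Sum.inl _)⟩ => True
  | ⟨_, RF.fn (Sum.inr _)⟩ => False

theorem snoc_comp {n : ℕ} (σ : Equiv.Perm ℕ) (v : Fin n → ℕ) (b : ℕ) :
    Fin.snoc (α := fun _ => ℕ) (⇑σ ∘ v) (σ b) = ⇑σ ∘ Fin.snoc (α := fun _ => ℕ) v b := by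
  funext m
  refine Fin.lastCases ?_ (fun m' => ?_) m
  · simp
  · simp

theorem snoc_eta {n : ℕ} (v : Fin (n + 1) → ℕ) :
    v = Fin.snoc (α := fun _ => ℕ) (fun i => v i.castSucc) (v (Fin.last n)) := by
  funext m
  refine Fin.lastCases ?_ (fun m' => ?_) m
  · simp only [Fin.snoc_last]
  · simp only [Fin.snoc_castSucc]

/-- the isomorphism respects the graph of the function -/
def grI (S S' : (LF (L₀.sum L₁)).Structure ℕ) (σ : Equiv.Perm ℕ) {n : ℕ}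
    (F : (L₀.sum L₁).Functions n) : Prop :=
  ∀ (v : Fin n → ℕ) (b : ℕ), gr S' F (⇑σ ∘ v) (σ b) ↔ gr S F v b

theorem grI_iff {S S' : (LF (L₀.sum L₁)).Structure ℕ} {σ : Equiv.Perm ℕ} {n : ℕ}
    {F : (L₀.sum L₁).Functions n} : grI S S' σ F ↔ ∀ v : Fin (n + 1) → ℕ,
    (@Structure.RelMap (LF (L₀.sum L₁)) ℕ S' _ (RF.fn F) (⇑σ ∘ v) ↔
      @Structure.RelMap (LF (L₀.sum L₁)) ℕ S _ (RF.fn F) v) := by
  constructor
  · intro h v
    rw [snoc_eta v, ← snoc_comp]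
    exact h _ _
  · intro h v b
    unfold gr
    rw [snoc_comp]
    exact h _

theorem grI_fun {S S' : (LF (L₀.sum L₁)).Structure ℕ} (hS : W S) (hS' : W S')
    {σ : Equiv.Perm ℕ} {n : ℕ} {F : (L₀.sum L₁).Functions n} : grI S S' σ F ↔ ∀ v : Fin n → ℕ,
    @Structure.funMap (L₀.sum L₁) ℕ (D S') n F (⇑σ ∘ v) =
      σ (@Structure.funMap (L₀.sum L₁) ℕ (D S) n F v) := by
  constructor
  · intro h v
    rw [fun_iff hS', h, ← fun_iff hS]
  · intro h v b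
    rw [← fun_iff hS', ← fun_iff hS, h]
    exact σ.apply_eq_iff_eq

theorem pp_left {S S' : (LF (L₀.sum L₁)).Structure ℕ} (hS : W S) (hS' : W S')
    {σ : Equiv.Perm ℕ} : PP side S S' σ ↔ IsI (lf (D S)) (lf (D S')) σ := by
  constructor
  · intro h
    refine ⟨fun n F v => ?_, fun n R v => h n (RF.rel (Sum.inl R)) trivial v⟩
    exact (grI_fun hS hS').1 (grI_iff.2 (h (n + 1) (RF.fn (Sum.inl F)) trivial)) v
  · rintro ⟨h1, h2⟩ n R hR v
    cases R with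
    | rel R =>
      rcases R with R | R
      · exact h2 n R v
      · exact hR.elim
    | fn F =>
      rcases F with F | F
      · exact grI_iff.1 ((grI_fun hS hS').2 fun w => h1 _ F w) v
      · exact hR.elim

theorem pp_right {S S' : (LF (L₀.sum L₁)).Structure ℕ} (hS : W S) (hS' : W S')
    {σ : Equiv.Perm ℕ} : PP (fun p => ¬ side p) S S' σ ↔ IsI (rt (D S)) (rt (D S')) σ := by
  constructor
  · intro h
    refine ⟨fun n F v => ?_, fun n R v => h n (RF.rel (Sum.inr R)) (fun h => h) v⟩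
    exact (grI_fun hS hS').1 (grI_iff.2 (h (n + 1) (RF.fn (Sum.inr F)) (fun h => h))) v
  · rintro ⟨h1, h2⟩ n R hR v
    cases R with
    | rel R =>
      rcases R with R | R
      · exact (hR trivial).elim
      · exact h2 n R v
    | fn F =>
      rcases F with F | F
      · exact (hR trivial).elim
      · exact grI_iff.1 ((grI_fun hS hS').2 fun w => h1 _ F w) v

theorem W_of {S S' : (LF (L₀.sum L₁)).Structure ℕ} (hS : W S) {σ τ : Equiv.Perm ℕ}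
    (h : PP side S S' σ) (h' : PP (fun p => ¬ side p) S S' τ) : W S' := by
  have key : ∀ {n : ℕ} (F : (L₀.sum L₁).Functions n), ∃ ρ, grI S S' ρ F := by
    intro n F
    rcases F with F | F
    · exact ⟨σ, grI_iff.2 (h (n + 1) (RF.fn (Sum.inl F)) trivial)⟩
    · exact ⟨τ, grI_iff.2 (h' (n + 1) (RF.fn (Sum.inr F)) (fun h => h))⟩
  have hv : ∀ (ρ : Equiv.Perm ℕ) {n : ℕ} (v : Fin n → ℕ), ⇑ρ ∘ (⇑ρ⁻¹ ∘ v) = v := by
    intro ρ n v
    funext j
    simp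
  constructor
  · rintro ⟨n, F⟩ v
    obtain ⟨ρ, hρ⟩ := key F
    obtain ⟨b, hb⟩ := hS.ex ⟨n, F⟩ (⇑ρ⁻¹ ∘ v)
    refine ⟨ρ b, ?_⟩
    have := (hρ (⇑ρ⁻¹ ∘ v) b).2 hb
    rwa [hv] at this
  · rintro ⟨n, F⟩ v b b' hb hb'
    obtain ⟨ρ, hρ⟩ := key F
    have h1 := hρ (⇑ρ⁻¹ ∘ v) (ρ⁻¹ b)
    have h2 := hρ (⇑ρ⁻¹ ∘ v) (ρ⁻¹ b')
    rw [hv] at h1 h2
    have e1 : ρ (ρ⁻¹ b) = b := by simp
    have e2 : ρ (ρ⁻¹ b') = b' := by simp
    rw [e1] at h1
    rw [e2] at h2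
    exact ρ⁻¹.injective (hS.un ⟨n, F⟩ _ _ _ (h1.1 hb) (h2.1 hb'))

/-- the relational code of a pair of structures -/
@[reducible] def cu (M₀ : L₀.Structure ℕ) (M₁ : L₁.Structure ℕ) :
    (LF (L₀.sum L₁)).Structure ℕ where
  funMap := fun {_} f => isEmptyElim f
  RelMap := fun {n} Q => match n, Q with
    | _, @RF.rel _ n (Sum.inl R) => fun v => @Structure.RelMap L₀ ℕ M₀ n R v
    | _, @RF.rel _ n (Sum.inr R) => fun v => @Structure.RelMap L₁ ℕ M₁ n R v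
    | _, @RF.fn _ n (Sum.inl F) => fun v =>
        @Structure.funMap L₀ ℕ M₀ n F (fun i => v i.castSucc) = v (Fin.last n)
    | _, @RF.fn _ n (Sum.inr F) => fun v =>
        @Structure.funMap L₁ ℕ M₁ n F (fun i => v i.castSucc) = v (Fin.last n)

theorem cu_gr0 (M₀ : L₀.Structure ℕ) (M₁ : L₁.Structure ℕ) {n : ℕ} (F : L₀.Functions n)
    (v : Fin n → ℕ) (b : ℕ) : gr (L := L₀.sum L₁) (cu M₀ M₁) (n := n) (Sum.inl F) v b ↔
      @Structure.funMap L₀ ℕ M₀ n F v = b := by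
  show @Structure.funMap L₀ ℕ M₀ n F (fun i => Fin.snoc (α := fun _ => ℕ) v b i.castSucc) =
    Fin.snoc (α := fun _ => ℕ) v b (Fin.last n) ↔ _
  simp only [Fin.snoc_castSucc, Fin.snoc_last]

theorem cu_gr1 (M₀ : L₀.Structure ℕ) (M₁ : L₁.Structure ℕ) {n : ℕ} (F : L₁.Functions n)
    (v : Fin n → ℕ) (b : ℕ) : gr (L := L₀.sum L₁) (cu M₀ M₁) (n := n) (Sum.inr F) v b ↔
      @Structure.funMap L₁ ℕ M₁ n F v = b := by
  show @Structure.funMap L₁ ℕ M₁ n F (fun i => Fin.snoc (α := fun _ => ℕ) v b i.castSucc) =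
    Fin.snoc (α := fun _ => ℕ) v b (Fin.last n) ↔ _
  simp only [Fin.snoc_castSucc, Fin.snoc_last]

theorem cu_W (M₀ : L₀.Structure ℕ) (M₁ : L₁.Structure ℕ) : W (cu M₀ M₁) := by
  constructor
  · rintro ⟨n, F⟩ v
    rcases F with F | F
    · exact ⟨_, (cu_gr0 M₀ M₁ F v _).2 rfl⟩
    · exact ⟨_, (cu_gr1 M₀ M₁ F v _).2 rfl⟩
  · rintro ⟨n, F⟩ v b b' h h'
    rcases F with F | F
    · exact ((cu_gr0 M₀ M₁ F v _).1 h).symm.trans ((cu_gr0 M₀ M₁ F v _).1 h')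
    · exact ((cu_gr1 M₀ M₁ F v _).1 h).symm.trans ((cu_gr1 M₀ M₁ F v _).1 h')

theorem cu_lf (M₀ : L₀.Structure ℕ) (M₁ : L₁.Structure ℕ) : IsI M₀ (lf (D (cu M₀ M₁))) 1 := by
  refine ⟨fun n F v => ?_, fun n R v => Iff.rfl⟩
  exact (fun_iff (cu_W M₀ M₁) (Sum.inl F : L₀.Functions n ⊕ L₁.Functions n) v _).2
    ((cu_gr0 M₀ M₁ F v _).2 rfl)

theorem cu_rt (M₀ : L₀.Structure ℕ) (M₁ : L₁.Structure ℕ) : IsI M₁ (rt (D (cu M₀ M₁))) 1 := by
  refine ⟨fun n F v => ?_, fun n R v => Iff.rfl⟩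
  exact (fun_iff (cu_W M₀ M₁) (Sum.inr F : L₀.Functions n ⊕ L₁.Functions n) v _).2
    ((cu_gr1 M₀ M₁ F v _).2 rfl)

theorem IsI.trans' {L : FirstOrder.Language.{0, 0}} {S S' S'' : L.Structure ℕ}
    {σ τ : Equiv.Perm ℕ} (h : IsI S S' σ) (h' : IsI S' S'' τ) : IsI S S'' (τ * σ) := by
  refine ⟨fun n F v => ?_, fun n R v => ?_⟩
  · have h1 : ⇑(τ * σ) ∘ v = ⇑τ ∘ (⇑σ ∘ v) := rfl
    rw [h1, h'.fn, h.fn]
    rfl
  · have h1 : ⇑(τ * σ) ∘ v = ⇑τ ∘ (⇑σ ∘ v) := rfl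
    rw [h1, h'.rel, h.rel]

/-- the theory has a model on `ℕ` with an automorphism group which is not open -/
def NOM {L : FirstOrder.Language.{0, 0}} (T : L.Theory) : Prop :=
  ∃ S : L.Structure ℕ, @Theory.Model L ℕ S T ∧ ∀ F : Finset ℕ, ∃ σ : Equiv.Perm ℕ,
    (∀ n ∈ F, σ n = n) ∧ ¬ IsI S S σ

/-- all models on `ℕ` have few subsets up to automorphisms -/
def FM {L : FirstOrder.Language.{0, 0}} (T : L.Theory) : Prop :=
  ∀ S : L.Structure ℕ, @Theory.Model L ℕ S T → ∀ G : PG, (∀ g, g ∈ G ↔ IsI S S g) → Few G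

/-- the theorem for theories in disjoint languages -/
theorem fo_two (hC : S_CLS) (h0 : Countable L₀.Symbols) (h1 : Countable L₁.Symbols)
    (T₀ : L₀.Theory) (T₁ : L₁.Theory) (hN₁ : FM T₀ ∨ NOM T₁) (hN₀ : FM T₁ ∨ NOM T₀) :
    VaughtF (L₀.sum L₁) (un T₀ T₁) := by
  obtain ⟨T', hT'⟩ := ax_theory (un T₀ T₁)
  have hcs : Countable (L₀.sum L₁).Symbols := by
    have : Countable (L₀.Symbols ⊕ L₁.Symbols) := inferInstance
    let p : L₀.Symbols ⊕ L₁.Symbols → (L₀.sum L₁).Symbols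
      | Sum.inl (Sum.inl F) => Sum.inl ⟨F.1, Sum.inl F.2⟩
      | Sum.inl (Sum.inr R) => Sum.inr ⟨R.1, Sum.inl R.2⟩
      | Sum.inr (Sum.inl F) => Sum.inl ⟨F.1, Sum.inr F.2⟩
      | Sum.inr (Sum.inr R) => Sum.inr ⟨R.1, Sum.inr R.2⟩
    refine Function.Surjective.countable (f := p) ?_
    rintro (⟨n, F | F⟩ | ⟨n, R | R⟩)
    · exact ⟨Sum.inl (Sum.inl ⟨n, F⟩), rfl⟩
    · exact ⟨Sum.inr (Sum.inl ⟨n, F⟩), rfl⟩
    · exact ⟨Sum.inl (Sum.inr ⟨n, R⟩), rfl⟩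
    · exact ⟨Sum.inr (Sum.inr ⟨n, R⟩), rfl⟩
  have := countable_LF (L := L₀.sum L₁)
  have key : Vaught (LF (L₀.sum L₁)) T' := by
    refine fo_two_rel hC side T' ?_ ?_ ?_
    · rintro S S' hm ⟨σ, hσ⟩ ⟨τ, hτ⟩
      rw [hT', model_un] at hm ⊢
      obtain ⟨hW, hm0, hm1⟩ := hm
      have hW' := W_of hW hσ hτ
      exact ⟨hW', ((pp_left hW hW').1 hσ).siso.model hm0, ((pp_right hW hW').1 hτ).siso.model hm1⟩
    · intro S hm
      rw [hT', model_un] at hm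
      obtain ⟨hW, hm0, hm1⟩ := hm
      rcases hN₁ with hf | ⟨N, hN, ho⟩
      · exact Or.inl (hf _ hm0 _ fun g => pp_left hW hW)
      right
      refine ⟨cu (lf (D S)) N, ?_, (pp_left hW (cu_W _ _)).2 (cu_lf _ _), ?_⟩
      · refine (hT' _).2 ⟨cu_W _ _, (model_un _ _ _).2 ⟨(cu_lf _ _).siso.model hm0,
          (cu_rt _ _).siso.model hN⟩⟩
      · rintro ⟨F, hF, hFA⟩
        obtain ⟨σ, h3, h4⟩ := ho hF.toFinset
        apply h4
        have h5 : PP (fun p => ¬ side p) (cu (lf (D S)) N) (cu (lf (D S)) N) σ :=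
          hFA σ fun n hn => h3 n (hF.mem_toFinset.2 hn)
        rw [pp_right (cu_W _ _) (cu_W _ _)] at h5
        have h6 := ((cu_rt (lf (D S)) N).trans' h5).trans' (cu_rt (lf (D S)) N).symm'
        simpa using h6
    · intro S hm
      rw [hT', model_un] at hm
      obtain ⟨hW, hm0, hm1⟩ := hm
      rcases hN₀ with hf | ⟨N, hN, ho⟩
      · exact Or.inl (hf _ hm1 _ fun g => pp_right hW hW)
      right
      refine ⟨cu N (rt (D S)), ?_, (pp_right hW (cu_W _ _)).2 (cu_rt _ _), ?_⟩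
      · refine (hT' _).2 ⟨cu_W _ _, (model_un _ _ _).2 ⟨(cu_lf _ _).siso.model hN,
          (cu_rt _ _).siso.model hm1⟩⟩
      · rintro ⟨F, hF, hFA⟩
        obtain ⟨σ, h3, h4⟩ := ho hF.toFinset
        apply h4
        have h5 : PP side (cu N (rt (D S))) (cu N (rt (D S))) σ :=
          hFA σ fun n hn => h3 n (hF.mem_toFinset.2 hn)
        rw [pp_left (cu_W _ _) (cu_W _ _)] at h5
        have h6 := ((cu_lf N (rt (D S))).trans' h5).trans' (cu_lf N (rt (D S))).symm'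
        simpa using h6
  rcases key with ⟨g, hg⟩ | ⟨f, hf1, hf2, hf3⟩
  · left
    refine ⟨fun n => D (g n), fun M hM => ?_⟩
    obtain ⟨S, hS, hi⟩ := ex M
    obtain ⟨n, hn⟩ := hg S ((hT' S).2 ⟨hS, hi.symm.model hM⟩)
    obtain ⟨T'', hT''⟩ := ax_W (L₀.sum L₁)
    have hgn : W (g n) := (hT'' (g n)).1 (SIso.model hn ((hT'' S).2 hS))
    exact ⟨n, hi.symm.trans (iso_down hS hgn hn)⟩
  · right
    have hW : ∀ x, W (f x) := fun x => ((hT' _).1 (hf1 x)).1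
    refine ⟨fun x => D (f x), fun x => ((hT' _).1 (hf1 x)).2,
      fun x y hxy => hf2 x y (iso_up (hW x) (hW y) hxy), fun n R a => hf3 n (RF.rel R) a,
      fun n F a b => ?_⟩
    have : {x : ℕ → Bool | @FirstOrder.Language.Structure.funMap (L₀.sum L₁) ℕ (D (f x)) n F a = b} =
        {x | @Structure.RelMap (LF (L₀.sum L₁)) ℕ (f x) _ (RF.fn F)
          (Fin.snoc (α := fun _ => ℕ) a b)} := by
      ext x
      exact fun_iff (hW x) F a b
    rw [this]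
    exact (hf3 _ (RF.fn F) _).isOpen

end Pool.Agent.L7h71.FPE
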