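import Pool.Agent.L7h71.FP.FoE

set_option autoImplicit false

/-!
The theories which satisfy the conjecture of Vaught are closed under unions in disjoint languages.
-/

namespace Pool.Agent.L7h71.FPE

open FirstOrder FirstOrder.Language
open Pool.Agent.L7h71.FP (PG PP AQ Few Opn S_CLS fo_two_rel DCc dcc_of_opn)
open Pool.Agent.W889.FO (VaughtF Vaught SIso Ax ax_iff SIso.model SIso.trans SIso.symm)

variable {L : FirstOrder.Language.{0, 0}}

theorem IsI.refl' (S : L.Structure ℕ) : IsI S S 1 :=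
  ⟨fun _ _ _ => rfl, fun _ _ _ => Iff.rfl⟩

theorem IsI.symm {S S' : L.Structure ℕ} {σ : Equiv.Perm ℕ} (h : IsI S S' σ) : IsI S' S σ⁻¹ := by
  have hv : ∀ {n : ℕ} (v : Fin n → ℕ), ⇑σ ∘ (⇑σ⁻¹ ∘ v) = v := by
    intro n v
    funext j
    simp
  refine ⟨fun n F v => ?_, fun n R v => ?_⟩
  · have := h.fn n F (⇑σ⁻¹ ∘ v)
    rw [hv] at this
    rw [this]
    simp
  · have := h.rel n R (⇑σ⁻¹ ∘ v)
    rw [hv] at this
    exact this.symm

theorem isI_of_siso {S S' : L.Structure ℕ} (h : SIso S S') : ∃ σ, IsI S S' σ := by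
  obtain ⟨f⟩ := h
  refine ⟨@FirstOrder.Language.Equiv.toEquiv L ℕ ℕ S S' f, fun n F v => ?_, fun n R v => ?_⟩
  · exact (@FirstOrder.Language.Equiv.map_fun L ℕ ℕ S S' f _ F v).symm
  · exact @FirstOrder.Language.Equiv.map_rel L ℕ ℕ S S' f n R v

/-- the automorphism group -/
def AutG (S : L.Structure ℕ) : PG where
  carrier := {g | IsI S S g}
  mul_mem' := fun {_ _} hg hh => hh.trans' hg
  one_mem' := IsI.refl' S
  inv_mem' := fun {_} hg => hg.symm

/-- transport of a structure -/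
@[reducible] def tr (σ : Equiv.Perm ℕ) (S : L.Structure ℕ) : L.Structure ℕ where
  funMap := fun {n} F v => σ (@Structure.funMap L ℕ S n F (⇑σ⁻¹ ∘ v))
  RelMap := fun {n} R v => @Structure.RelMap L ℕ S n R (⇑σ⁻¹ ∘ v)

theorem isI_tr (σ : Equiv.Perm ℕ) (S : L.Structure ℕ) : IsI S (tr σ S) σ := by
  have hv : ∀ {n : ℕ} (v : Fin n → ℕ), ⇑σ⁻¹ ∘ (⇑σ ∘ v) = v := by
    intro n v
    funext j
    simp
  refine ⟨fun n F v => ?_, fun n R v => ?_⟩
  · show σ (@Structure.funMap L ℕ S n F (⇑σ⁻¹ ∘ (⇑σ ∘ v))) = _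
    rw [hv]
  · show @Structure.RelMap L ℕ S n R (⇑σ⁻¹ ∘ (⇑σ ∘ v)) ↔ _
    rw [hv]

variable {L₀ L₁ : FirstOrder.Language.{0, 0}}

/-- the structure for the sum of the languages -/
@[reducible] def jn (M₀ : L₀.Structure ℕ) (M₁ : L₁.Structure ℕ) : (L₀.sum L₁).Structure ℕ where
  funMap := fun {n} F v => Sum.elim (fun F => @Structure.funMap L₀ ℕ M₀ n F v)
    (fun F => @Structure.funMap L₁ ℕ M₁ n F v) F
  RelMap := fun {n} R v => Sum.elim (fun R => @Structure.RelMap L₀ ℕ M₀ n R v)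
    (fun R => @Structure.RelMap L₁ ℕ M₁ n R v) R

theorem isI_iff {M M' : (L₀.sum L₁).Structure ℕ} {σ : Equiv.Perm ℕ} :
    IsI M M' σ ↔ IsI (lf M) (lf M') σ ∧ IsI (rt M) (rt M') σ := by
  constructor
  · rintro ⟨h1, h2⟩
    exact ⟨⟨fun n F v => h1 n (Sum.inl F) v, fun n R v => h2 n (Sum.inl R) v⟩,
      ⟨fun n F v => h1 n (Sum.inr F) v, fun n R v => h2 n (Sum.inr R) v⟩⟩
  · rintro ⟨⟨h1, h2⟩, ⟨h3, h4⟩⟩
    constructor
    · intro n F v
      rcases F with F | F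
      · exact h1 n F v
      · exact h3 n F v
    · intro n R v
      rcases R with R | R
      · exact h2 n R v
      · exact h4 n R v

theorem lf_jn (M₀ : L₀.Structure ℕ) (M₁ : L₁.Structure ℕ) : lf (jn M₀ M₁) = M₀ := rfl

theorem rt_jn (M₀ : L₀.Structure ℕ) (M₁ : L₁.Structure ℕ) : rt (jn M₀ M₁) = M₁ := rfl

theorem model_jn {T₀ : L₀.Theory} {T₁ : L₁.Theory} {M₀ : L₀.Structure ℕ} {M₁ : L₁.Structure ℕ}
    (h0 : @Theory.Model L₀ ℕ M₀ T₀) (h1 : @Theory.Model L₁ ℕ M₁ T₁) :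
    @Theory.Model (L₀.sum L₁) ℕ (jn M₀ M₁) (un T₀ T₁) := (model_un _ _ _).2 ⟨h0, h1⟩

/-- countably many types of unions -/
theorem cnt_un {T₀ : L₀.Theory} {T₁ : L₁.Theory} {g₀ : ℕ → L₀.Structure ℕ}
    {g₁ : ℕ → L₁.Structure ℕ}
    (h0 : ∀ S, @Theory.Model L₀ ℕ S T₀ → ∃ n, SIso S (g₀ n))
    (h1 : ∀ S, @Theory.Model L₁ ℕ S T₁ → ∃ n, SIso S (g₁ n))
    (hc : ∀ n k, @Theory.Model L₀ ℕ (g₀ n) T₀ → @Theory.Model L₁ ℕ (g₁ k) T₁ →
      DCc (AutG (g₀ n)) (AutG (g₁ k))) : VaughtF (L₀.sum L₁) (un T₀ T₁) := by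
  left
  have hc' : ∀ n k, ∃ f : ℕ → Equiv.Perm ℕ, @Theory.Model L₀ ℕ (g₀ n) T₀ →
      @Theory.Model L₁ ℕ (g₁ k) T₁ → ∀ σ, ∃ m, ∃ g ∈ AutG (g₀ n), ∃ h ∈ AutG (g₁ k),
        σ = g * f m * h := by
    intro n k
    by_cases h : @Theory.Model L₀ ℕ (g₀ n) T₀ ∧ @Theory.Model L₁ ℕ (g₁ k) T₁
    · obtain ⟨f, hf⟩ := hc n k h.1 h.2
      exact ⟨f, fun _ _ => hf⟩
    · exact ⟨fun _ => 1, fun h2 h3 => absurd ⟨h2, h3⟩ h⟩
  choose f hf using hc'
  let u : ℕ → ℕ × ℕ × ℕ := fun i => ((Nat.unpair i).1, Nat.unpair (Nat.unpair i).2)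
  refine ⟨fun i => jn (g₀ (u i).1) (tr (f (u i).1 (u i).2.1 (u i).2.2) (g₁ (u i).2.1)),
    fun M hM => ?_⟩
  obtain ⟨m0, m1⟩ := (model_un _ _ _).1 hM
  obtain ⟨n, hn⟩ := h0 _ m0
  obtain ⟨k, hk⟩ := h1 _ m1
  obtain ⟨ρ, hρ⟩ := isI_of_siso hn.symm
  obtain ⟨τ, hτ⟩ := isI_of_siso hk.symm
  obtain ⟨m, g, hg, h, hh, e⟩ := hf n k (hn.model m0) (hk.model m1) (ρ⁻¹ * τ)
  refine ⟨Nat.pair n (Nat.pair k m), ?_⟩
  have hu : u (Nat.pair n (Nat.pair k m)) = (n, k, m) := by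
    simp only [u, Nat.unpair_pair]
  show SIso M _
  apply SIso.symm
  show SIso (jn (g₀ (u (Nat.pair n (Nat.pair k m))).1)
    (tr (f (u (Nat.pair n (Nat.pair k m))).1 (u (Nat.pair n (Nat.pair k m))).2.1
      (u (Nat.pair n (Nat.pair k m))).2.2) (g₁ (u (Nat.pair n (Nat.pair k m))).2.1))) M
  rw [hu]
  refine IsI.siso (σ := ρ * g) (isI_iff.2 ⟨?_, ?_⟩)
  · have hg' : IsI (g₀ n) (g₀ n) g := hg
    exact hg'.trans' hρ
  · have hh' : IsI (g₁ k) (g₁ k) h⁻¹ := (AutG (g₁ k)).inv_mem hh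
    have h3 := ((isI_tr (f n k m) (g₁ k)).symm.trans' hh').trans' hτ
    have h4 : ρ * g = τ * (h⁻¹ * (f n k m)⁻¹) := by
      have h5 : τ = ρ * (g * f n k m * h) := by rw [← e]; group
      rw [h5]; group
    rw [h4]
    exact h3

theorem opn_of_not {T : L.Theory} (h : ¬ NOM T) {S : L.Structure ℕ}
    (hS : @Theory.Model L ℕ S T) : Opn (AutG S) := by
  unfold NOM at h
  push Not at h
  obtain ⟨F, hF⟩ := h S hS
  exact ⟨↑F, F.finite_toSet, fun σ hσ => hF σ fun n hn => hσ n hn⟩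

/-- closure under unions in disjoint languages -/
theorem fo_cl (hC : S_CLS) (h0 : Countable L₀.Symbols) (h1 : Countable L₁.Symbols)
    (T₀ : L₀.Theory) (T₁ : L₁.Theory) (hV0 : VaughtF L₀ T₀) (hV1 : VaughtF L₁ T₁) :
    VaughtF (L₀.sum L₁) (un T₀ T₁) := by
  by_cases hN : NOM T₀ ∧ NOM T₁
  · exact fo_two hC h0 h1 T₀ T₁ (Or.inr hN.2) (Or.inr hN.1)
  by_cases hm : ∃ (M₀ : L₀.Structure ℕ) (M₁ : L₁.Structure ℕ), @Theory.Model L₀ ℕ M₀ T₀ ∧
      @Theory.Model L₁ ℕ M₁ T₁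
  swap
  · left
    refine ⟨fun _ => ⟨fun _ _ => 0, fun _ _ => True⟩, fun M hM => ?_⟩
    obtain ⟨m0, m1⟩ := (model_un _ _ _).1 hM
    exact absurd ⟨_, _, m0, m1⟩ hm
  obtain ⟨M₀, M₁, hM₀, hM₁⟩ := hm
  rcases hV0 with ⟨g₀, hg₀⟩ | ⟨f, hf1, hf2, hf3, hf4⟩
  · rcases hV1 with ⟨g₁, hg₁⟩ | ⟨f, hf1, hf2, hf3, hf4⟩
    · refine cnt_un (g₀ := g₀) (g₁ := g₁) (fun S h => hg₀ S h) (fun S h => hg₁ S h) fun n k hn hk => ?_
      by_cases hN0 : NOM T₀
      · have hN1 : ¬ NOM T₁ := fun h => hN ⟨hN0, h⟩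
        exact dcc_of_opn (opn_of_not hN1 hk)
      · exact (dcc_of_opn (opn_of_not hN0 hn)).symm
    · right
      refine ⟨fun c => jn M₀ (f c), fun c => model_jn hM₀ (hf1 c), fun c d hcd => ?_, ?_, ?_⟩
      · obtain ⟨σ, hσ⟩ := isI_of_siso hcd
        exact hf2 c d (isI_iff.1 hσ).2.siso
      · intro n R a
        rcases R with R | R
        · by_cases h : @Structure.RelMap L₀ ℕ M₀ n R a
          · have : {x : ℕ → Bool | @Structure.RelMap (L₀.sum L₁) ℕ (jn M₀ (f x)) n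
                (Sum.inl R : L₀.Relations n ⊕ L₁.Relations n) a} = Set.univ := by
              ext c; exact ⟨fun _ => trivial, fun _ => h⟩
            rw [this]; exact isClopen_univ
          · have : {x : ℕ → Bool | @Structure.RelMap (L₀.sum L₁) ℕ (jn M₀ (f x)) n
                (Sum.inl R : L₀.Relations n ⊕ L₁.Relations n) a} = ∅ := by
              ext c; exact ⟨fun h' => absurd h' h, fun h' => absurd h' (Set.notMem_empty c)⟩
            rw [this]; exact isClopen_empty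
        · exact hf3 n R a
      · intro n F a b
        rcases F with F | F
        · by_cases h : @Structure.funMap L₀ ℕ M₀ n F a = b
          · have : {x : ℕ → Bool | @Structure.funMap (L₀.sum L₁) ℕ (jn M₀ (f x)) n
                (Sum.inl F : L₀.Functions n ⊕ L₁.Functions n) a = b} = Set.univ := by
              ext c; exact ⟨fun _ => trivial, fun _ => h⟩
            rw [this]; exact isOpen_univ
          · have : {x : ℕ → Bool | @Structure.funMap (L₀.sum L₁) ℕ (jn M₀ (f x)) n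
                (Sum.inl F : L₀.Functions n ⊕ L₁.Functions n) a = b} = ∅ := by
              ext c; exact ⟨fun h' => absurd h' h, fun h' => absurd h' (Set.notMem_empty c)⟩
            rw [this]; exact isOpen_empty
        · exact hf4 n F a b
  · right
    refine ⟨fun c => jn (f c) M₁, fun c => model_jn (hf1 c) hM₁, fun c d hcd => ?_, ?_, ?_⟩
    · obtain ⟨σ, hσ⟩ := isI_of_siso hcd
      exact hf2 c d (isI_iff.1 hσ).1.siso
    · intro n R a
      rcases R with R | R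
      · exact hf3 n R a
      · by_cases h : @Structure.RelMap L₁ ℕ M₁ n R a
        · have : {x : ℕ → Bool | @Structure.RelMap (L₀.sum L₁) ℕ (jn (f x) M₁) n
              (Sum.inr R : L₀.Relations n ⊕ L₁.Relations n) a} = Set.univ := by
            ext c; exact ⟨fun _ => trivial, fun _ => h⟩
          rw [this]; exact isClopen_univ
        · have : {x : ℕ → Bool | @Structure.RelMap (L₀.sum L₁) ℕ (jn (f x) M₁) n
              (Sum.inr R : L₀.Relations n ⊕ L₁.Relations n) a} = ∅ := by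
            ext c; exact ⟨fun h' => absurd h' h, fun h' => absurd h' (Set.notMem_empty c)⟩
          rw [this]; exact isClopen_empty
    · intro n F a b
      rcases F with F | F
      · exact hf4 n F a b
      · by_cases h : @Structure.funMap L₁ ℕ M₁ n F a = b
        · have : {x : ℕ → Bool | @Structure.funMap (L₀.sum L₁) ℕ (jn (f x) M₁) n
              (Sum.inr F : L₀.Functions n ⊕ L₁.Functions n) a = b} = Set.univ := by
            ext c; exact ⟨fun _ => trivial, fun _ => h⟩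
          rw [this]; exact isOpen_univ
        · have : {x : ℕ → Bool | @Structure.funMap (L₀.sum L₁) ℕ (jn (f x) M₁) n
              (Sum.inr F : L₀.Functions n ⊕ L₁.Functions n) a = b} = ∅ := by
            ext c; exact ⟨fun h' => absurd h' h, fun h' => absurd h' (Set.notMem_empty c)⟩
          rw [this]; exact isOpen_empty

end Pool.Agent.L7h71.FPE
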