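import Pool.Agent.L7h71.FP.FO

set_option autoImplicit false

/-!
First-order theories which do not mention some symbol of positive arity.
-/

namespace Pool.Agent.L7h71.FP

open FirstOrder FirstOrder.Language
open Pool.Agent.W889.FO (VaughtF)

/-- a family of functions which are not conjugate -/
def fc (c : ℕ → Bool) (n : ℕ) : ℕ := if n % 2 = 0 then n - 2 else if c (n / 2) then n - 1 else n

theorem fc_odd {d : ℕ → Bool} {m k : ℕ} (h : fc d m = 2 * k + 1) : m = 2 * k + 1 ∧ d k = false := by
  unfold fc at h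
  split_ifs at h with h1 h2
  · omega
  · omega
  · refine ⟨h, ?_⟩
    have : m / 2 = k := by omega
    rw [this] at h2
    simpa using h2

theorem fc_even {d : ℕ → Bool} {m k : ℕ} (h : fc d m = 2 * k) :
    m = 2 * k + 2 ∨ (m = 2 * k + 1 ∧ d k = true) ∨ (k = 0 ∧ m = 0) := by
  unfold fc at h
  split_ifs at h with h1 h2
  · omega
  · have : m / 2 = k := by omega
    rw [this] at h2
    exact Or.inr (Or.inl ⟨by omega, h2⟩)
  · omega

theorem fc_ev (c : ℕ → Bool) (k : ℕ) : fc c (2 * k + 2) = 2 * k := by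
  unfold fc
  rw [if_pos (by omega)]
  omega

theorem fc_rigid {c d : ℕ → Bool} {σ : Equiv.Perm ℕ} (h : ∀ m, σ (fc c m) = fc d (σ m)) (k : ℕ) :
    σ (2 * k) = 2 * k := by
  -- a point with a preimage different from itself is even
  have h1 : ∀ k m, σ (2 * k) = 2 * m + 1 → False := by
    intro k m hk
    have h2 := h (2 * k + 2)
    rw [fc_ev, hk] at h2
    have h3 := (fc_odd h2.symm).1
    have h4 := σ.injective (hk.trans h3.symm)
    omega
  induction k with
  | zero =>
    have h2 : fc c 0 = 0 := by simp [fc]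
    have h3 := h 0
    rw [h2] at h3
    -- a fixed point
    rcases Nat.even_or_odd' (σ 0) with ⟨j, hj | hj⟩
    · rw [hj] at h3
      have : fc d (2 * j) = 2 * j - 2 := by simp [fc]
      rw [this] at h3
      have hj0 : j = 0 := by omega
      simp [hj, hj0]
    · exact absurd hj (fun h4 => h1 0 j h4)
  | succ k ih =>
    have h2 := h (2 * k + 2)
    rw [fc_ev, ih] at h2
    rcases fc_even h2.symm with h3 | ⟨h3, -⟩ | ⟨h3, h4⟩
    · exact h3
    · exact absurd h3 (fun h4 => h1 (k + 1) k h4)
    · subst h3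
      have h5 := σ.injective (h4.trans ih.symm)
      omega

theorem fc_inj {c d : ℕ → Bool} {σ : Equiv.Perm ℕ} (h : ∀ m, σ (fc c m) = fc d (σ m)) :
    ∀ k, c k = true → d k = true := by
  intro k hk
  have h0 := fc_rigid h
  have h1 := h (2 * k + 1)
  have h2 : fc c (2 * k + 1) = 2 * k := by
    unfold fc
    rw [if_neg (by omega)]
    have : (2 * k + 1) / 2 = k := by omega
    rw [this, if_pos hk]
    omega
  rw [h2, h0] at h1
  rcases fc_even h1.symm with h3 | ⟨h3, h4⟩ | ⟨h3, h4⟩
  · have h5 := h0 (k + 1)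
    have h6 := σ.injective (h3.trans h5.symm)
    omega
  · exact h4
  · have h5 := h0 0
    have h6 := σ.injective (h4.trans h5.symm)
    omega

theorem fc_eq {c d : ℕ → Bool} {σ : Equiv.Perm ℕ} (h : ∀ m, σ (fc c m) = fc d (σ m)) :
    c = d := by
  have h1 := fc_inj h
  have h2 : ∀ m, σ.symm (fc d m) = fc c (σ.symm m) := by
    intro m
    rw [Equiv.symm_apply_eq, h]
    simp
  have h3 := fc_inj h2
  funext k
  rw [Bool.eq_iff_iff]
  exact ⟨h1 k, h3 k⟩

/-- the arity of a symbol -/
def arity {L : FirstOrder.Language.{0, 0}} : L.Symbols → ℕ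
  | Sum.inl s => s.1
  | Sum.inr s => s.1

/-- the structures agree except for the symbol `s` -/
structure Agree {L : FirstOrder.Language.{0, 0}} (s : L.Symbols) (S S' : L.Structure ℕ) : Prop where
  fn : ∀ (m : ℕ) (F : L.Functions m) (v : Fin m → ℕ), Sum.inl ⟨m, F⟩ ≠ s →
    @Structure.funMap L ℕ S m F v = @Structure.funMap L ℕ S' m F v
  rel : ∀ (m : ℕ) (Q : L.Relations m) (v : Fin m → ℕ), Sum.inr ⟨m, Q⟩ ≠ s →
    (@Structure.RelMap L ℕ S m Q v ↔ @Structure.RelMap L ℕ S' m Q v)

open Classical in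
/-- change of a function -/
@[reducible] noncomputable def chg {L : FirstOrder.Language.{0, 0}} (S : L.Structure ℕ) {n : ℕ}
    (F : L.Functions n) (w : (Fin n → ℕ) → ℕ) : L.Structure ℕ where
  funMap := fun {m} G v => if h : (⟨m, G⟩ : Σ m, L.Functions m) = ⟨n, F⟩ then
    w (fun j => v (Fin.cast (congrArg Sigma.fst h).symm j)) else @Structure.funMap L ℕ S m G v
  RelMap := fun {m} Q v => @Structure.RelMap L ℕ S m Q v

theorem chg_self {L : FirstOrder.Language.{0, 0}} (S : L.Structure ℕ) {n : ℕ}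
    (F : L.Functions n) (w : (Fin n → ℕ) → ℕ) (v : Fin n → ℕ) :
    @Structure.funMap L ℕ (chg S F w) n F v = w v := by
  classical
  show (if h : (⟨n, F⟩ : Σ m, L.Functions m) = ⟨n, F⟩ then
    w (fun j => v (Fin.cast (congrArg Sigma.fst h).symm j)) else _) = _
  rw [dif_pos rfl]
  rfl

theorem chg_of_ne {L : FirstOrder.Language.{0, 0}} (S : L.Structure ℕ) {n : ℕ}
    (F : L.Functions n) (w : (Fin n → ℕ) → ℕ) {m : ℕ} {G : L.Functions m}
    (h : (⟨m, G⟩ : Σ m, L.Functions m) ≠ ⟨n, F⟩) (v : Fin m → ℕ) :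
    @Structure.funMap L ℕ (chg S F w) m G v = @Structure.funMap L ℕ S m G v := by
  classical
  show (if h : (⟨m, G⟩ : Σ m, L.Functions m) = ⟨n, F⟩ then
    w (fun j => v (Fin.cast (congrArg Sigma.fst h).symm j)) else _) = _
  rw [dif_neg h]

theorem fo_fun {L : FirstOrder.Language.{0, 0}} {n : ℕ} (hn : 1 ≤ n) (F : L.Functions n)
    (T : L.Theory) (hT : ∀ S S' : L.Structure ℕ, Agree (Sum.inl ⟨n, F⟩) S S' →
      @Theory.Model L ℕ S T → @Theory.Model L ℕ S' T) : VaughtF L T := by
  classical
  by_cases hm : ∃ S : L.Structure ℕ, @Theory.Model L ℕ S T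
  · right
    obtain ⟨S, hS⟩ := hm
    refine ⟨fun c => chg S F (fun v => fc c (v ⟨0, by omega⟩)), fun c => ?_, ?_, ?_, ?_⟩
    · refine hT S _ ⟨fun m G v h => ?_, fun m Q v _ => Iff.rfl⟩ hS
      rw [chg_of_ne]
      exact fun h1 => h (by rw [h1])
    · rintro c d ⟨f⟩
      let σ : Equiv.Perm ℕ := @FirstOrder.Language.Equiv.toEquiv L ℕ ℕ
        (chg S F (fun v => fc c (v ⟨0, by omega⟩))) (chg S F (fun v => fc d (v ⟨0, by omega⟩))) f
      refine fc_eq (σ := σ) fun m => ?_
      have h1 := @FirstOrder.Language.Equiv.map_fun' L ℕ ℕ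
        (chg S F (fun v => fc c (v ⟨0, by omega⟩))) (chg S F (fun v => fc d (v ⟨0, by omega⟩)))
        f _ F (fun _ => m)
      rw [chg_self, chg_self] at h1
      exact h1
    · intro m Q v
      by_cases h : @Structure.RelMap L ℕ S m Q v
      · have : {x : ℕ → Bool | @Structure.RelMap L ℕ
            (chg S F (fun v => fc x (v ⟨0, by omega⟩))) m Q v} = Set.univ := by
          ext c; exact ⟨fun _ => trivial, fun _ => h⟩
        rw [this]; exact isClopen_univ
      · have : {x : ℕ → Bool | @Structure.RelMap L ℕ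
            (chg S F (fun v => fc x (v ⟨0, by omega⟩))) m Q v} = ∅ := by
          ext c; exact ⟨fun h' => absurd h' h, fun h' => absurd h' (Set.notMem_empty c)⟩
        rw [this]; exact isClopen_empty
    · intro m G v b
      by_cases h : (⟨m, G⟩ : Σ m, L.Functions m) = ⟨n, F⟩
      · obtain ⟨rfl, h⟩ := Sigma.mk.inj_iff.1 h
        rw [heq_iff_eq] at h
        subst h
        have : {x : ℕ → Bool | @Structure.funMap L ℕ
            (chg S G (fun v => fc x (v ⟨0, by omega⟩))) m G v = b} =
            (fun x : ℕ → Bool => fc x (v ⟨0, by omega⟩)) ⁻¹' {b} := by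
          ext c
          show _ = b ↔ _
          rw [chg_self]
          rfl
        rw [this]
        have h2 : Continuous (fun x : ℕ → Bool => fc x (v ⟨0, by omega⟩)) := by
          have h3 : Continuous fun x : ℕ → Bool => x (v ⟨0, by omega⟩ / 2) := continuous_apply _
          exact (continuous_of_discreteTopology (f := fun b : Bool =>
            if v ⟨0, by omega⟩ % 2 = 0 then v ⟨0, by omega⟩ - 2 else
              if b = true then v ⟨0, by omega⟩ - 1 else v ⟨0, by omega⟩)).comp h3
        exact (isOpen_discrete {b}).preimage h2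
      · have : {x : ℕ → Bool | @Structure.funMap L ℕ
            (chg S F (fun v => fc x (v ⟨0, by omega⟩))) m G v = b} =
            {x : ℕ → Bool | @Structure.funMap L ℕ S m G v = b} := by
          ext c
          show _ = b ↔ _ = b
          rw [chg_of_ne S F _ h]
        rw [this]
        exact isOpen_const
  · left
    refine ⟨fun _ => ⟨fun _ _ => 0, fun _ _ => True⟩, fun S hS => absurd ⟨S, hS⟩ hm⟩

/-- theories which do not depend on a symbol of positive arity -/
theorem fo (hB : S_BOR) {L : FirstOrder.Language.{0, 0}} (hL : Countable L.Symbols)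
    (s : L.Symbols) (hs : 1 ≤ arity s) (T : L.Theory)
    (hT : ∀ S S' : L.Structure ℕ, Agree s S S' → @Theory.Model L ℕ S T →
      @Theory.Model L ℕ S' T) : VaughtF L T := by
  rcases s with ⟨n, F⟩ | ⟨n, R⟩
  · exact fo_fun hs F T hT
  · refine fo_rel' hB hL hs R T fun S S' h hm => hT S S' ⟨fun m F v _ => h.fn m F v, ?_⟩ hm
    intro m Q v hQ
    exact h.rel m Q v fun h1 => hQ (congrArg Sum.inr h1)

end Pool.Agent.L7h71.FP
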