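import Pool.Agent.L7h71.FP.Basic

set_option autoImplicit false

/-!
Statements of the parts of the theorem on closed groups of permutations with few orbits on subsets,
with proofs in words.
-/

namespace Pool.Agent.L7h71.FP

open Set Filter

/-- PART C. No infinite asymmetric sequence.

Proof. Suppose `(y, x)` is not in the orbit of `(x, y)`.
(1) Realisation of types. Let `lt` be any strict linear order on `ℕ`. For each `m` there is
`w : ℕ → ℕ` with `E2 G x y (w i) (w j)` for all `i, j < m` with `lt i j` (take `w i = v (rank of i)`).
Let `U` be a nonprincipal ultrafilter on `ℕ`, `w n` such a function for `m = n`. Since `Oli G`,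
there are finitely many orbits of `G` on tuples of length `m`, so for each `m` there is an orbit which
contains `(w n 0, …, w n (m-1))` for `U`-almost all `n`; these orbits are coherent, so one finds by
recursion `z : ℕ → ℕ` such that `(z 0, …, z (m-1))` is in the `m`-th orbit for each `m`. Then
`E2 G x y (z i) (z j)` for all `i, j` with `lt i j`, and `z` is injective.
(2) Take a countable linear order `I` of the type of the sum over `k = 0, 1, 2, …` (ordered like `ℕ`)
of `ω + (4 k + 4 points) + ω*`. Transport it to `ℕ` and use (1): `z : I → ℕ`, `E2 G x y (z i) (z j)`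
for `i < j`, so not `E2 G x y (z j) (z i)`. For `c : ℕ → Bool` let `A c` be the image under `z` of the
suborder which contains all infinite parts and, of the `k`-th finite part, all points except the
last one if `c k = false` (so `4 k + 3` or `4 k + 4` points). If `g ∈ G` maps `A c` onto `A d` then it
preserves the order; `u ~ v` iff there are only finitely many points of `A c` between `u` and `v`
is preserved; its finite classes are exactly the finite parts, so the set of the sizes of the finite
classes determines `c`, and `c = d`. This contradicts `Few G`. -/
def S_CHAIN : Prop := ∀ G : PG, Few G → Oli G → ∀ v : ℕ → ℕ, Function.Injective v → ∀ x y,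
  (∀ i j, i < j → E2 G x y (v i) (v j)) → E2 G x y y x

/-- PART T. Triviality. (Here `acl G s` is written `acl s`, and `O_s` is the orbit under `st G s`.)

Proof. Suppose `z ∈ acl (s ∪ x)`, `z ∉ acl s`, `z ∉ acl x` with `s` finite of the smallest
possible size; `s = s' ∪ b`. By minimality `z ∉ acl (s' ∪ x)`. Replace `G` by `st G s'` (`Few`,
`Nice`, `Exch` are inherited): `z ∈ acl {b, x}`, `z ∉ acl {b}`, `z ∉ acl {x}`, so
`x ∉ acl {b}`, `b ∉ acl {x}` and by exchange `b ∈ acl {x, z}`, `x ∈ acl {b, z}`.
(1) Choose a nonprincipal `p` with `O_x(b) ∈ p`. For `b' ∈ O_x(b)` the set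
`{x' | (b', x') ~ (b, x)}` (same orbit of `G`) is infinite, choose a nonprincipal `q_b'` containing
it. By `Fin1 G` the type `T G q_b'` is the same for `p`-almost all `b'`; fix `q` of this type. So
`∀ᶠ b' in p, ∀ᶠ x' in q, E2 G b x b' x'`, and by `Com G` also `∀ᶠ x' in q, ∀ᶠ b' in p`.
(2) Choose recursively `b_0, x_0, b_1, x_1, …` with `E2 G b x b_k x_i` for all `k, i`, each of them not
in the `acl` of the finite set of the previous ones. By exchange this set `E` is independent: no
`e ∈ E` is in `acl F` for a finite `F ⊆ E \ e`. Choose `z_ik` with `(z_ik, b_k, x_i)` in the orbit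
`Θ` of `(z, b, x)`.
(3) Let `f : ℕ → ℕ` tend to infinity, `A_f = {b_k} ∪ {x_i} ∪ {z_ik | k < f i}`. The support of `b_k` is
`{b_k}`, of `x_i` is `{x_i}`, of `z_ik` is `{b_k, x_i}`. If `a ∈ A_f` is in `acl W` with `W ⊆ A_f`
finite then the support of `a` is contained in the union of the supports of the elements of `W`
(exchange and independence). For `a ∈ A_f` let `c(a)` be the number of pairs `(u, v) ∈ A_f ^ 2` with
`(v, u, a) ∈ Θ`. For such a triple each entry is in the `acl` of the other two, no entry is in the
`acl` of one other entry, and `v ≠ u`. Hence: the pairs for `a = x_i` are among `(b_k, z_ik)`,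
`(z_ik, b_k)` with `k < f i`, and the first ones do count: `f i ≤ c(x_i) ≤ 2 f i`. The pairs for
`a = b_k` are among `(x_i, z_ik)`, `(z_ik, x_i)`; since all `(z_ik, b_k, x_i)` are in one orbit,
`c(b_k) = 0` or `c(b_k)` is infinite. The pairs for `a = z_ik` are among `(b_k, x_i)`, `(x_i, b_k)`:
`c(z_ik) ≤ 2`.
(4) For `c : ℕ → Bool` let `f i = 3 ^ (2 i + 1 + [c i])`. Then `c i` is true iff some finite value of
the function `c(a)`, `a ∈ A_f`, is in `[3 ^ (2 i + 2), 2 * 3 ^ (2 i + 2)]`. So sets for different `c`
are in different orbits of `G`, and they depend continuously on `c`: contradiction to `Few G`. -/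
def S_TRIV : Prop := ∀ G : PG, (∀ s : Set ℕ, s.Finite → Few (st G s)) → Nice G → Exch G → Triv G

/-- the conclusion of the stationarity part -/
def Stat (G : PG) : Prop := ∃ D : Set ℕ, D.Finite ∧ ∀ F : Set ℕ, F.Finite → D ⊆ F → ∀ x y,
  x ∉ acl G F → y ∉ acl G F → y ∈ O (st G D) x → y ∈ O (st G F) x

/-- PART O. Countably many orbits on subsets.

Proof. (`acl s` is finite for finite `s`; `acl (acl s) = acl s`.) By `Triv` and induction `acl s` is
the union of `acl ∅` and the `acl {x}`, `x ∈ s`. We may enlarge `D` and assume `acl D = D`. For
`x ∉ D` let `C(x) = acl (D ∪ x) \ D = acl {x} \ D`. By exchange these sets, the cells, are the classes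
of an equivalence relation on the complement of `D`, they are finite, of size at most `K` (there are
finitely many orbits of `G` on `ℕ`), and for a finite closed set `F ⊇ D` and `x ∉ F` the set
`acl {x} \ F` is the same as `C(x)`; a finite closed set `F ⊇ D` is the union of `D` and finitely many
cells. By a block we mean an injective enumeration `c : Fin m → ℕ` of a cell.
(1) After enlarging `D` (closed) the following holds: for all finite closed `F ⊇ D` and any two
blocks `c, c'` of cells outside `F`, if `c' = g c` for some `g ∈ st G D` then `c' = h c` for some
`h ∈ st G F`. To see this consider for finite closed `F ⊇ D` the number `ν(F)` of orbits of `st G F`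
on the blocks outside `F`. By the property of `D` there are boundedly many orbits of `st G F` on the
points outside `F`, and the block of a given cell are at most `K !`; so `ν` is bounded. If
`F ⊆ F'` then `ν(F) ≤ ν(F')`, since every orbit of `st G F` on blocks contains a block outside `F'`
(the orbit of a point outside `F` is infinite). Choose `D` with `ν(D)` maximal. Then every orbit of
`st G D` on blocks, restricted to the blocks outside `F`, is a single orbit of `st G F`.
(2) For `A ⊆ ℕ` call two cells `C, C'` (with respect to sets `A, A'`) equivalent if there are blocks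
`c` of `C`, `c'` of `C'` with `c' = g c` for some `g ∈ st G D` and `c i ∈ A` iff `c' i ∈ A'`. There
are finitely many labels (orbit of the block, pattern of `A`); let the invariant of `A` be `A ∩ D`
together with the function which gives for each label the number (in `ℕ ∪ {∞}`) of the cells whose
smallest label it is. There are countably many invariants. If `A` and `A'` have the same
invariant, choose a bijection of the cells respecting the labels and blocks as above; this gives a
permutation `g` of `ℕ` which fixes `D` and maps `A` to `A'`. By (1) and induction, for any finitely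
many cells `C_1, …, C_n` some `h ∈ G` agrees with `g` on `D ∪ C_1 ∪ … ∪ C_n` (if `h ∈ st G D`
works for `C_1, …, C_(n-1)`, then `h` maps the block of `C_n` to a block outside
`F = D ∪ g C_1 ∪ … ∪ g C_(n-1)` in the same orbit of `st G D` as the required block; correct by a member
of `st G F`). Since `G` is closed, `g ∈ G`. -/
def S_ORB : Prop := ∀ G : PG, Clo G → Nice G → Exch G → Triv G → Stat G →
  ∃ f : ℕ → ℕ → Bool, ∀ A : ℕ → Bool, ∃ n, ∃ g ∈ G, ∀ m, A (g m) = f n m

/-- PART S. Stationarity (done by helper71). -/
def S_STAT : Prop := ∀ G : PG, Nice G → Exch G → Triv G → Stat G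

/-- PART N. Groups with few orbits on subsets are nice (done by helper71). -/
def S_NICE : Prop := S_CHAIN → ∀ G : PG, Few G → Nice G

/-- PART E. Exchange (done by helper71). -/
def S_EXCH : Prop := ∀ G : PG, Nice G → Exch G

end Pool.Agent.L7h71.FP
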