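import Pool.Agent.L7h71.FP.Build
import Pool.Agent.L7h71.FP.Stm

set_option autoImplicit false

/-!
Groups with few orbits on subsets are nice.
-/

namespace Pool.Agent.L7h71.FP

open Set Filter

/-- stabilisers of finite sets inherit the property to have few orbits -/
theorem Few.st {G : PG} (hG : Few G) {s : Set ℕ} (hs : s.Finite) : Few (st G s) := by
  rintro ⟨A, hA, h⟩
  refine hG ⟨A, hA, fun c => ?_⟩
  have : Finite s := hs
  have h1 : {d | ∃ g ∈ G, ∀ n, A d (g n) = A c n} ⊆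
      ⋃ φ : s → ℕ, {d | ∃ g ∈ G, (∀ i : s, g (φ i) = i) ∧ ∀ n, A d (g n) = A c n} := by
    rintro d ⟨g, hg, hd⟩
    exact Set.mem_iUnion.2 ⟨fun i => g⁻¹ i, g, hg, fun i => by simp, hd⟩
  refine Set.Countable.mono h1 (Set.countable_iUnion fun φ => ?_)
  by_cases hne : ∃ d₀, d₀ ∈ {d | ∃ g ∈ G, (∀ i : s, g (φ i) = i) ∧ ∀ n, A d (g n) = A c n}
  · obtain ⟨d₀, g₀, hg₀, h2, h3⟩ := hne
    refine Set.Countable.mono ?_ (h d₀)
    rintro d ⟨g, hg, h4, h5⟩
    refine ⟨g * g₀⁻¹, ⟨G.mul_mem hg (G.inv_mem hg₀), ?_⟩, ?_⟩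
    · intro i hi
      have h6 := h2 ⟨i, hi⟩
      have h7 := h4 ⟨i, hi⟩
      have h8 : g₀⁻¹ i = φ ⟨i, hi⟩ := by rw [Equiv.Perm.inv_eq_iff_eq]; exact h6.symm
      rw [Equiv.Perm.mul_apply, h8, h7]
    · intro n
      have h6 := h5 (g₀⁻¹ n)
      have h7 := h3 (g₀⁻¹ n)
      rw [Equiv.Perm.mul_apply, h6, ← h7]; simp
  · refine Set.Countable.mono ?_ Set.countable_empty
    intro d hd
    exact hne ⟨d, hd⟩

theorem O_invt {G : PG} {g : Equiv.Perm ℕ} (hg : g ∈ G) {x y : ℕ} : g y ∈ O G x ↔ y ∈ O G x := by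
  constructor
  · intro h
    exact O_trans h ⟨g⁻¹, G.inv_mem hg, by simp⟩
  · intro h
    exact O_trans h ⟨g, hg, rfl⟩

theorem Few.fin_orb {G : PG} (hG : Few G) : {X | ∃ x, X = O G x}.Finite := by
  classical
  by_contra hinf
  rw [← Set.Infinite] at hinf
  have := hinf.to_subtype
  let e := Infinite.natEmbedding {X | ∃ x, X = O G x}
  choose x hx using fun n => (e n).2
  have hx' : ∀ i, (e i).1 = O G (x i) := hx
  have hdis : ∀ i j, x i ∈ O G (x j) → i = j := by
    intro i j hij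
    have h1 : (e i).1 = (e j).1 := by rw [hx', hx']; exact O_eq hij
    exact e.injective (Subtype.ext h1)
  apply hG
  refine ⟨fun c n => decide (∃ i, c i = true ∧ n ∈ O G (x i)), ?_, ?_⟩
  · refine continuous_pi fun n => ?_
    by_cases h : ∃ i, n ∈ O G (x i)
    · obtain ⟨i, hi⟩ := h
      have h2 : (fun c : ℕ → Bool => decide (∃ i, c i = true ∧ n ∈ O G (x i))) = fun c => c i := by
        funext c
        rw [Bool.eq_iff_iff, decide_eq_true_iff]
        constructor
        · rintro ⟨j, hj, hj'⟩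
          have : j = i := by
            apply hdis
            exact O_trans hi (O_symm hj')
          rw [← this]; exact hj
        · exact fun h => ⟨i, h, hi⟩
      rw [h2]
      exact continuous_apply i
    · have h2 : (fun c : ℕ → Bool => decide (∃ i, c i = true ∧ n ∈ O G (x i))) =
          fun c => false := by
        funext c
        rw [decide_eq_false_iff_not]
        rintro ⟨i, -, hi⟩
        exact h ⟨i, hi⟩
      rw [h2]
      exact continuous_const
  · intro c
    refine Set.Countable.mono ?_ (Set.countable_singleton c)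
    rintro d ⟨g, hg, h⟩
    have key : ∀ (c : ℕ → Bool) (i : ℕ) (z : ℕ), z ∈ O G (x i) →
        decide (∃ i, c i = true ∧ z ∈ O G (x i)) = c i := by
      intro c i z hz
      rw [Bool.eq_iff_iff, decide_eq_true_iff]
      constructor
      · rintro ⟨j, hj, hj'⟩
        have : j = i := by
          apply hdis
          exact O_trans hz (O_symm hj')
        rw [← this]; exact hj
      · exact fun h => ⟨i, h, hz⟩
    show d = c
    funext i
    have h1 := h (x i)
    dsimp only at h1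
    rw [key c i (x i) (O_refl G _), key d i (g (x i)) ((O_invt hg).2 (O_refl G _))] at h1
    exact h1

theorem Few.oli {G : PG} (hG : Few G) : Oli G := fun _ hs => (hG.st hs).fin_orb

/-- the equivalence relation on pairs -/
def sE (G : PG) : Setoid (ℕ × ℕ) where
  r a b := E2 G a.1 a.2 b.1 b.2
  iseqv := ⟨fun _ => E2_refl _ _ _, fun h => E2_symm h, fun h h' => E2_trans h h'⟩

/-- the colour of a pair -/
def col (G : PG) (u v : ℕ) : Quotient (sE G) := Quotient.mk (sE G) (u, v)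

theorem col_eq {G : PG} {u v u' v' : ℕ} : col G u v = col G u' v' ↔ E2 G u v u' v' := by
  unfold col
  rw [Quotient.eq]
  rfl

/-- exchange of the two points -/
def swp (G : PG) : Quotient (sE G) → Quotient (sE G) :=
  Quotient.map (fun a => (a.2, a.1)) fun _ _ h => E2_swap h

theorem swp_col {G : PG} (u v : ℕ) : col G v u = swp G (col G u v) := rfl

theorem Oli.reps {G : PG} (hG : Oli G) {s : Set ℕ} (hs : s.Finite) :
    ∃ R : Set ℕ, R.Finite ∧ ∀ x, ∃ r ∈ R, r ∈ O (FP.st G s) x := by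
  classical
  have h1 := hG s hs
  have h2 : ∀ X : Set ℕ, ∃ r, (∃ x, X = O (FP.st G s) x) → r ∈ X := by
    intro X
    by_cases h : ∃ x, X = O (FP.st G s) x
    · obtain ⟨x, hx⟩ := h
      exact ⟨x, fun _ => hx ▸ O_refl _ _⟩
    · exact ⟨0, fun h' => absurd h' h⟩
  choose r hr using h2
  refine ⟨r '' {X | ∃ x, X = O (FP.st G s) x}, h1.image r, fun x => ?_⟩
  exact ⟨r (O (FP.st G s) x), ⟨_, ⟨x, rfl⟩, rfl⟩, hr _ ⟨x, rfl⟩⟩

theorem Oli.fin_col {G : PG} (hG : Oli G) : Finite (Quotient (sE G)) := by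
  obtain ⟨R, hR, h⟩ := hG.reps (Set.finite_empty)
  rw [st_empty] at h
  have h2 := fun x : ℕ => hG.reps (Set.finite_singleton x)
  choose R' hR' h' using h2
  have h3 : (⋃ x ∈ R, ({x} : Set ℕ) ×ˢ R' x).Finite :=
    hR.biUnion fun x _ => (Set.finite_singleton x).prod (hR' x)
  have h4 : Set.range (fun a : ℕ × ℕ => Quotient.mk (sE G) a) ⊆
      (fun a : ℕ × ℕ => Quotient.mk (sE G) a) '' (⋃ x ∈ R, ({x} : Set ℕ) ×ˢ R' x) := by
    rintro _ ⟨⟨x, y⟩, rfl⟩
    obtain ⟨x₀, hx₀, g, hg, hgx⟩ := h x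
    obtain ⟨y₀, hy₀, g', hg', hgy⟩ := h' x₀ (g y)
    refine ⟨(x₀, y₀), ?_, ?_⟩
    · simp only [Set.mem_iUnion, Set.mem_prod, Set.mem_singleton_iff]
      exact ⟨x₀, hx₀, rfl, hy₀⟩
    · refine Quotient.sound ?_
      show E2 G x₀ y₀ x y
      refine E2_symm ⟨g' * g, G.mul_mem hg'.1 hg, ?_, ?_⟩
      · rw [Equiv.Perm.mul_apply, hgx]; exact hg'.2 _ rfl
      · rw [Equiv.Perm.mul_apply, hgy]
  have h5 := (h3.image (fun a : ℕ × ℕ => Quotient.mk (sE G) a)).subset h4
  rw [Quotient.mk_surjective.range_eq] at h5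
  exact Set.finite_univ_iff.1 h5

theorem Few.not_perf {G : PG} (hG : Few G) : ¬ PerfT (col G) := by
  rintro ⟨A, hA, -, h⟩
  refine hG ⟨A, hA, fun c => ?_⟩
  refine Set.Countable.mono ?_ (Set.countable_singleton c)
  rintro d ⟨g, hg, hd⟩
  show d = c
  refine (h c d ⟨g, ⟨?_, g.injective.injOn, ?_⟩, ?_⟩).symm
  · intro n hn
    show A d (g n) = true
    rw [hd n]; exact hn
  · intro m hm
    refine ⟨g⁻¹ m, ?_, by simp⟩
    show A c (g⁻¹ m) = true
    rw [← hd]
    simpa using hm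
  · intro u v _ _ _
    rw [col_eq]
    exact E2_symm ⟨g, hg, rfl, rfl⟩

theorem noCh_of {G : PG} (hc : S_CHAIN) (hG : Few G) : NoCh (col G) := by
  intro v hv c h
  have h1 : E2 G (v 0) (v 1) (v 1) (v 0) := by
    refine hc G hG hG.oli v hv (v 0) (v 1) fun i j hij => ?_
    rw [← col_eq, h 0 1 one_pos, h i j hij]
  rw [← col_eq] at h1
  rw [← h1]
  exact h 0 1 one_pos

theorem T_eq {G : PG} [Finite (Quotient (sE G))] (p : Ultrafilter ℕ) :
    T G p = fun y => {x | col G y x = D (col G) p y} := by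
  funext y
  ext x
  have h1 : O (st G {y}) x = {v | col G y v = col G y x} := by
    ext v
    rw [Set.mem_ofPred_eq, col_eq]
    exact ⟨fun h => E2_symm (E2_iff.2 h), fun h => E2_iff.1 (E2_symm h)⟩
  constructor
  · intro h
    have h2 : O (st G {y}) x ∈ p := h
    rw [h1] at h2
    exact (lim_eq h2).symm
  · intro h
    show O (st G {y}) x ∈ p
    have h2 : col G y x = D (col G) p y := h
    rw [h1, h2]
    exact D_spec _ p y

theorem fin1_of {G : PG} (hc : S_CHAIN) (hG : Few G) : Fin1 G := by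
  have := hG.oli.fin_col
  have h1 : {f : ℕ → Quotient (sE G) | ∃ p, NP p ∧ f = D (col G) p}.Finite := by
    by_contra h
    exact hG.not_perf (perf_of_inf (swp G) (fun u v => swp_col u v) (noCh_of hc hG) h)
  refine (h1.image (fun f => fun y => {x | col G y x = f y})).subset ?_
  rintro _ ⟨p, hp, rfl⟩
  exact ⟨D (col G) p, ⟨p, hp, rfl⟩, (T_eq p).symm⟩

theorem com_of {G : PG} (hc : S_CHAIN) (hG : Few G) : Com G := by
  have := hG.oli.fin_col
  intro p q hp hq x y h
  by_contra h2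
  refine hG.not_perf (perf_of_ncom (swp G) (fun u v => swp_col u v) (noCh_of hc hG) hp hq
    (σ := col G x y) ?_ ?_)
  · refine h.mono fun u hu => hu.mono fun v hv => ?_
    rw [col_eq]; exact E2_symm hv
  · intro h3
    apply h2
    refine h3.mono fun u hu => hu.mono fun v hv => ?_
    rw [col_eq] at hv; exact E2_symm hv

theorem s_nice : S_NICE := by
  intro hc G hG
  refine ⟨hG.oli, fun s hs => fin1_of hc (hG.st hs), fun s hs => com_of hc (hG.st hs)⟩

end Pool.Agent.L7h71.FP
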