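import Pool.Agent.L7h71.FP.Tvc

set_option autoImplicit false

/-!
Second project: theories in disjoint languages. Statements with proofs in words.

THEOREM. (1) Let `G`, `K` be closed groups of permutations of `ℕ`. Then there are countably or
perfectly many double cosets `G σ K`. (2) Let `T₀`, `T₁` be theories in disjoint countable languages,
each of which has a model on `ℕ` whose automorphism group is not open (it does not contain all the
permutations fixing some finite set). Then the conjecture of Vaught holds for `T₀ ∪ T₁`.
-/

namespace Pool.Agent.L7h71.FP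

open Set Filter MeasureTheory
open Pool.Agent.L7h71.COV (Str Iso)
open Pool.Agent.L7h71.CC (Perf)

/-- the group contains all permutations which fix some finite set pointwise -/
def Opn (K : PG) : Prop := ∃ F : Set ℕ, F.Finite ∧ ∀ σ : Equiv.Perm ℕ, (∀ n ∈ F, σ n = n) → σ ∈ K

/-- over a finite set there is an invariant infinite coinfinite set -/
def Moi (K : PG) : Prop := ∃ F : Set ℕ, F.Finite ∧ ∃ A : Set ℕ, A.Infinite ∧ Aᶜ.Infinite ∧
  ∀ k ∈ st K F, ∀ n, k n ∈ A ↔ n ∈ A

/-- continuous families of permutations -/
def CFam (σ : (ℕ → Bool) → Equiv.Perm ℕ) : Prop :=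
  (Continuous fun c => (⇑(σ c) : ℕ → ℕ)) ∧ Continuous fun c => (⇑(σ c)⁻¹ : ℕ → ℕ)

/-- perfectly many double cosets -/
def DCp (G K : PG) : Prop := ∃ σ, CFam σ ∧
  ∀ c d, (∃ g ∈ G, ∃ k ∈ K, σ d = g * σ c * k) → c = d

/-- countably many double cosets -/
def DCc (G K : PG) : Prop := ∃ f : ℕ → Equiv.Perm ℕ, ∀ σ, ∃ n, ∃ g ∈ G, ∃ k ∈ K, σ = g * f n * k

/-- isomorphisms for the relations with number in `I` -/
def PresI {a : ℕ → ℕ} (I : Set ℕ) (x y : Str a) (σ : Equiv.Perm ℕ) : Prop :=
  ∀ i ∈ I, ∀ v : Fin (a i) → ℕ, y i (⇑σ ∘ v) = x i v

/-- the automorphism group for the relations with number in `I` -/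
def GrI {a : ℕ → ℕ} (I : Set ℕ) (x : Str a) : PG where
  carrier := {g | PresI I x x g}
  mul_mem' := by
    intro g h hg hh i hi v
    have h1 : ⇑(g * h) ∘ v = ⇑g ∘ (⇑h ∘ v) := rfl
    rw [h1, hg i hi, hh i hi]
  one_mem' := fun i _ v => rfl
  inv_mem' := by
    intro g hg i hi v
    rw [← hg i hi]
    congr 1
    funext j
    simp

theorem mem_GrI {a : ℕ → ℕ} {I : Set ℕ} {x : Str a} {g : Equiv.Perm ℕ} :
    g ∈ GrI I x ↔ PresI I x x g := Iff.rfl

/-- the relations with number in `I` live on a locally finite graph -/
def LocI {a : ℕ → ℕ} (I : Set ℕ) (x : Str a) : Prop :=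
  ∃ S : SimpleGraph ℕ, (∀ p, {q | S.Adj p q}.Finite) ∧
    ∀ i ∈ I, ∀ t, x i t = true → ∀ j l, t j = t l ∨ S.Adj (t j) (t l)

/-- enumeration of the finite sequences -/
noncomputable def ls : ℕ ≃ List ℕ := (Denumerable.eqv (List ℕ)).symm

/-- the arities -/
noncomputable def rr (i : ℕ) : ℕ := (ls i).length

/-- PART IND (helper71). The relation `σ d ∈ G σ c K` is analytic (compare `analytic_grp`), so
`Pool.Agent.H566W.perfect_independent` applies. -/
def S_IND : Prop := ∀ G K : PG, Clo G → Clo K → ∀ σ, CFam σ →
  (∀ c, {d | ∃ g ∈ G, ∃ k ∈ K, σ d = g * σ c * k}.Countable) → DCp G K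

/-- PART MOI. (Theorem `s_moi : S_IND → S_MOI`; see also the tools in `FP/Seg.lean`.)

Proof. Let `F`, `A` be as in `Moi K`. As in the proof of `tvc`, `¬ Few G` and `Clo G` give a
continuous `B : (ℕ → Bool) → ℕ → Bool` with: `B c`, `B d` in the same orbit of `G` implies `c = d`. In
particular `B` is injective, so `{c | {n | B c n = true} is finite or cofinite}` is countable; let
`e 0, e 1, …` be an enumeration (of a superset). The map `h b (2 n) = b n`,
`h b (2 n + 1) = !(e n (2 n + 1))` is continuous, injective and avoids all `e n`. So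
`B' b = B (h b)` is a continuous family of infinite coinfinite sets in different orbits of `G`. Let
`σ b` be the permutation which maps `A` to `B' b` and the complement to the complement and which
is increasing on both (`Seg.sg`, a continuous family). Fix `b`. If `σ b' = g * σ b * k` with `g ∈ G`, `k ∈ K`, then
`B' b' = σ b' '' A = g '' (σ b '' (k '' A))`. Here `k '' A` depends only on the restriction of `k` to
`F` (if `k`, `k'` agree on `F` then `k⁻¹ k' ∈ st K F`), so there are countably many possibilities for
`σ b '' (k '' A)`, and for each of them at most one `b'` (the `B' b'` are in different orbits of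
`G`). Now apply `S_IND`. -/
def S_MOI : Prop := ∀ G K : PG, Clo G → Clo K → ¬ Few G → Moi K → DCp G K

/-- PART LOC. (Use `Pool.Agent.L7h73.FP.Orb`: `exists_good`, `mem_of_local`, cells `C G D x`.)

Proof. Let `D` be as in `Good G D`. For `i : ℕ` let `t = ls i`, a list of length `rr i`, also as a
function on `Fin (rr i)`. Let `u i v = true` iff there is `g ∈ st G D` with `v = g ∘ t`, and `t` is
local, that is, all entries of `t` are in `C G D x` for some `x ∉ D`, or they are all equal to some
`d ∈ D`. The graph: `p`, `q` are adjacent iff `p ≠ q`, both are not in `D` and `C G D p = C G D q`.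
It is locally finite since the cells are finite; if `u i v = true` then the entries of `v` are all
equal or in one cell (the cells are permuted by `st G D`, `C_conj`). If `σ ∈ st G D` then it
preserves `u`. Conversely, if `σ` preserves `u`, then it fixes all `d ∈ D` (take `t = [d]`), and for
`x ∉ D` let `t` be a list of all elements of the cell `C G D x` (contains `x`); `u i t = true` gives
`u i (σ ∘ t) = true`, so there is `k ∈ st G D` which agrees with `σ` on the cell, and so on
`acl G {x}`; by `mem_of_local`, `σ ∈ G`. -/
def S_LOC : Prop := ∀ G : PG, Clo G → Nice G → Exch G → Triv G → Stat G →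
  ∃ D : Set ℕ, D.Finite ∧ ∃ u : Str rr, LocI univ u ∧ GrI univ u = st G D

/-- PART THY. (Adapt `Pool.Agent.L7h7.FP.Asm`: formulas `Fm`, with the relations in `I` instead of
the relations different from `i₀`; `J x` = the truth values of the sentences.)

The only new point: in the last part only `x` is oligomorphic, not `y`. So in the back and forth
one has to show, for tuples `u` in `x` and `v` in `y` with the same formulas (sentences included):
(a) for `m` in `y` there is `n` in `x` such that `u n`, `v m` satisfy the same formulas: this is the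
existing lemma `forth` with the roles exchanged. (b) For `n` in `x` there is `m` in `y`: there are
finitely many orbits `X` of the stabiliser of `u` in `x`; choose `r X ∈ X`; for each `X` such that
`u n` and `u (r X)` do not satisfy the same formulas choose a formula `φ_X` true for `u n` and false
for `u (r X)`; let `ψ` be the conjunction of the `φ_X`. So `x` satisfies, for every formula `φ` which
is true for `u n`, the formula `∀ w (ψ(u, w) → φ(u, w))`, and also `∃ w ψ(u, w)`; hence the same holds
in `y` for `v`. Choose `m` with `ψ(v, m)`. -/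
def S_THY : Prop := ∀ (a : ℕ → ℕ) (I : Set ℕ), ∃ J : Str a → ℕ → Bool, Measurable J ∧
  (∀ x y σ, PresI I x y σ → J x = J y) ∧
  ∀ x y, Oli (GrI I x) → J x = J y → ∃ σ, PresI I x y σ

/-- PART SUP. (Theorem `s_sup : S_THY → S_SUP`; uses
`Pool.Agent.Results.MP_5df2c5_lc.FiniteFlips.result a _ (Tame.flip a)`, its second part, for one
Borel class. `FiniteFlips.Str`, `Iso` are the same as `COV.Str`, `Iso`, compare
`Pool/Agent/Results/MP_5df2c5_lc/CountingLogic.lean`.)

Proof. Let `J`, `J'` be the invariants of `S_THY` for `I` and `Iᶜ`, and let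
`W = {w | J w = J z ∧ J' w = J' z}`, a measurable class closed under isomorphism. By `S_THY`, for
`w ∈ W` there are `ρ`, `τ` with `PresI I z w ρ` and `PresI Iᶜ z w τ`. Conversely for permutations
`ρ`, `τ` let `w ρ τ` be the structure with `w i v = z i (ρ⁻¹ ∘ v)` for `i ∈ I` and
`w i v = z i (τ⁻¹ ∘ v)` for `i ∉ I`; it is in `W`, and all members of `W` are of this form.
All members of `W` are `FiniteFlips.FlipSparse`: the graph is the union of the images of the two
graphs under `ρ` and `τ`, it is locally finite; a subdivision of the infinite clique has a vertex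
with infinitely many neighbours (the second vertices of the paths from `v 0` to `v j` are different
neighbours of `v 0`); one colour, `f = false`. So `W` has countably many isomorphism types or a
perfect family.
If it has countably many types `f n`: choose for each `n` some `σ n` with `w 1 (σ n) ≅ f n` (if it
exists). For every `σ`, `w 1 σ ≅ f n ≅ w 1 (σ n)` for some `n`, by `ρ`: then
`ρ ∈ GrI I z`, `(σ n)⁻¹ ρ σ ∈ GrI Iᶜ z`; so `DCc`.
If there is a continuous family `g c ∈ W` of pairwise non-isomorphic structures, let `Y` be the
closed set of the `(c, ρ, ρ', τ, τ')` in `(ℕ → Bool) × (ℕ → ℕ)^4` with `ρ ρ' = ρ' ρ = 1`,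
`τ τ' = τ' τ = 1`, `PresI I z (g c) ρ`, `PresI Iᶜ z (g c) τ`. Every `c` occurs. By
`Pool.Agent.H565R2.FO2.perfect_of_uncountable` (with `incl` the inclusion, one `J`, the projection
to `c`, and `E` equality of the projections) there is a continuous map `b ↦ (c, ρ, ρ', τ, τ')` from
the Cantor space with different `c` for different `b`. Put `σ b = ρ⁻¹ τ`: a continuous family. If
`σ b' = h * σ b * k` with `h ∈ GrI I z`, `k ∈ GrI Iᶜ z` then `w 1 (σ b) ≅ w 1 (σ b')`, and
`g c ≅ w 1 (σ b)`, so `g c ≅ g c'`, `c = c'` and `b = b'`. -/
def S_SUP : Prop := ∀ (a : ℕ → ℕ) (I : Set ℕ) (z : Str a), LocI I z → LocI Iᶜ z →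
  Oli (GrI I z) → Oli (GrI Iᶜ z) → DCc (GrI I z) (GrI Iᶜ z) ∨ DCp (GrI I z) (GrI Iᶜ z)

/-- PART IDX (helper71). -/
def S_IDX : Prop := ∀ G K : PG, Clo G → Clo K → ∀ D E : Set ℕ, D.Finite → E.Finite →
  (DCc (st G D) (st K E) → DCc G K) ∧ (DCp (st G D) (st K E) → DCp G K)

/-- the standard equivalence relation with `r` one-element classes and all other classes of size `m`:
the number of the class of `n` -/
def cls (r m n : ℕ) : ℕ := if n < r then n else r + (n - r) / m

/-- the automorphism group of the standard equivalence relation -/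
def NE (r m : ℕ) : PG where
  carrier := {k | ∀ x y, cls r m (k x) = cls r m (k y) ↔ cls r m x = cls r m y}
  mul_mem' := by
    intro g h hg hh x y
    rw [Equiv.Perm.mul_apply, Equiv.Perm.mul_apply, hg, hh]
  one_mem' := fun x y => Iff.rfl
  inv_mem' := by
    intro g hg x y
    rw [← hg]
    simp

theorem mem_NE {r m : ℕ} {k : Equiv.Perm ℕ} :
    k ∈ NE r m ↔ ∀ x y, cls r m (k x) = cls r m (k y) ↔ cls r m x = cls r m y := Iff.rfl

/-- PART STD. Every equivalence relation on a countable infinite set with `r` one-element classes and
all other classes of size `m` is isomorphic to the standard one. -/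
def S_STD : Prop := ∀ (Ω ι : Type) (_ : Countable Ω) (_ : Infinite Ω) (e : Ω → ι) (r m : ℕ), 2 ≤ m →
  {x : Ω | ∀ y, e y = e x → y = x}.Finite → {x : Ω | ∀ y, e y = e x → y = x}.ncard = r →
  (∀ x, (∃ y, e y = e x ∧ y ≠ x) → {y | e y = e x}.ncard = m) →
  ∃ α : Ω ≃ ℕ, ∀ x y, cls r m (α x) = cls r m (α y) ↔ e x = e y

/-- PART EQV. (Theorem `s_eqv : S_STD → S_EQV`.)

Proof. Let `F` be finite. If `st K F` had two infinite orbits, or only finite ones, then there would
be an infinite coinfinite invariant set (one of the infinite orbits, or the union of every second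
finite orbit). So, since `¬ Moi K`, there is exactly one infinite orbit, and it is cofinite: `acl K F`
is finite and `st K F` is transitive on the complement of `acl K F`.
There are a finite set `C` with `acl K C = C` and `x ∉ C` with `acl K (C ∪ x) ≠ C ∪ x`. Otherwise, let
`C = acl K ∅`; by induction all finite sets `X ⊇ C` satisfy `acl K X = X`, so `st K X` is transitive
on the complement of `X`; so for any injective tuples `x_1 … x_n`, `y_1 … y_n` outside `C` there is
`k ∈ st K C` with `k x_i = y_i` (induction on `n`), and since `K` is closed it contains all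
permutations which fix `C` pointwise: `Opn K`.
For `x ∉ C` let `cell x = acl K (C ∪ x) \ C`. The cells are conjugate under `st K C`, so they have
the same size `m ≥ 2`. If `y ∈ cell x` then `cell y ⊆ cell x`, so they are equal (same finite size).
So the cells are the classes of an equivalence relation on the complement of `C`, preserved by
`st K C`. Now use `S_STD` with `r = |C|` (points of `C` are one-element classes). -/
def S_EQV : Prop := ∀ K : PG, Clo K → ¬ Moi K → ¬ Opn K → ∃ C : Set ℕ, C.Finite ∧
  ∃ r m : ℕ, 2 ≤ m ∧ ∃ ρ : Equiv.Perm ℕ, ∀ k ∈ st K C, ρ * k * ρ⁻¹ ∈ NE r m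

/-- PART CRO. (Theorem `s_cro : S_IND → S_IDX → S_CRO`; see also the tools in `FP/Seg.lean`.)

Proof. Let `F`, `A` be as in `Moi G`; write `U = A`, `V = Aᶜ`. By `S_IDX` (with `E = ∅`) we may
replace `G` by `G' = st G F`, which preserves `U` and `V` and is not `Few`. Let `A c` be the family
for `G'` (countable sections: `{d | A d ∈ G' A c}` is countable for each `c`).
(1) We may assume that the four sets `U ∩ A c`, `U \ A c`, `V ∩ A c`, `V \ A c` are infinite for
all `c`. First suppose that for uncountably many `c` one of `V ∩ A c`, `V \ A c` is finite. There are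
countably many such sets `V ∩ A c`, so for some `W` the closed set `{c | V ∩ A c = W}` is uncountable;
so (perfect set theorem) we may assume that `V ∩ A c = W` for all `c`. Then `U ∩ A c` is finite or
`U \ A c` is finite only for countably many `c`; leaving out countably many `c` (see the proof of
`S_MOI`) we may assume that `U ∩ A c`, `U \ A c` are infinite for all `c`. Let `W'` be a subset of
`V` such that `W'` and `V \ W'` are infinite, and let `B c = (U ∩ A c) ∪ W'`. It has countable sections:
let `c` be given and `D` the set of the `d` such that `U ∩ A d = g_d (U ∩ A c)` for some `g_d ∈ G'`.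
There are countably many possibilities for `g_d⁻¹ W` (subsets of `V`, finite or cofinite in `V`). If
`g_d⁻¹ W = g_e⁻¹ W` then `g = g_e g_d⁻¹` maps `W` to `W` and `U ∩ A d` to `U ∩ A e`, so it maps `A d` to
`A e`; for each `d` this holds for countably many `e`. So `D` is countable. The case that one of
`U ∩ A c`, `U \ A c` is finite for uncountably many `c` is the same with `U`, `V` exchanged. In the
remaining case leave out countably many `c`.
(2) Let `p : ℕ → Fin 4` (a function of `cls r m` and of the position in the class) be such that the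
classes of type `0/1` have one element with `p = 0` and `m - 1` elements with `p = 1`, on the other
classes `p` is constant, equal to `2` or to `3`, and all four fibres are infinite (put the
one-element classes with number `< r` in `p = 2`). Let `q c n` be `0, 1, 2, 3` if `n` is in
`U ∩ A c`, `V ∩ A c`, `U \ A c`, `V \ A c`, and let `σ c = Seg.sg p (q c)` be the permutation with
`q c (σ c n) = p n` which is increasing on the fibres. It is a continuous family (`Seg`). For any
permutation `τ` let `Cross τ` be the set of all `τ x` such that there is `y` in the class of `x` with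
`τ x ∈ U`, `τ y ∈ V` or `τ x ∈ V`, `τ y ∈ U`. Then `Cross (σ c) = A c` and
`Cross (g * τ * k) = g '' Cross τ` for `g ∈ G'`, `k ∈ NE r m`. So `S_IND` applies. -/
def S_CRO : Prop := ∀ G : PG, Clo G → ¬ Few G → Moi G → ∀ r m, 2 ≤ m → DCp G (NE r m)

/-- PART TWO. (Theorem `s_two : S_IND → S_STD → S_TWO`.)

Proof. Let `Ω = ℕ ⊕ (((n : ℕ) × Fin (n + 2)) × Fin m × Fin m')` with the functions `e`, `e'`: on the
first summand `e = cls r m`, `e' = cls r' m'`, on the second summand `e (j, a, b) = (j, b)`,
`e' (j, a, b) = (j, a)` (with values in a sum type). By `S_STD` there are bijections `α, α' : Ω ≃ ℕ`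
which transform `e`, `e'` into the standard relations. For `c : ℕ → Bool` let `π c` be the
permutation of `Ω` which for all `n` with `c n = true` permutes the points `((n, i), 0, 0)`,
`i : Fin (n + 2)`, cyclically (`i ↦ i + 1`) and fixes all other points. Let
`σ c = α ∘ π c ∘ α'⁻¹`, a continuous family of permutations of `ℕ`.
For a permutation `τ` of `ℕ` call `X ⊆ ℕ` closed if it is a union of classes of `cls r m` and
`τ⁻¹ X` is a union of classes of `cls r' m'`; let `Inv τ` be the set of the sizes of the finite
minimal nonempty closed sets. Then `Inv (g * τ * k) = Inv τ` for `g ∈ NE r m`, `k ∈ NE r' m'`.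
Put `X = α '' Y`: `X` is closed for `σ c` iff `Y` is closed under `e` and `π c⁻¹ Y` is closed under
`e'`. The minimal such sets in the second summand: for `c n = true` the whole
`{((n, i), a, b)}` of size `(n + 2) m m'` (it is connected: `((n, i), 0, 0)` is `e`-equivalent to
`((n, i), 1, 0)`, this one is `e'`-equivalent to all `((n, i), 1, b)`, these are `e`-equivalent to all
`((n, i), a, b)`; and `((n, i + 1), 0, 0)` is `e' ∘ π⁻¹`-equivalent to `((n, i), 0, 1)`); for
`c n = false` the sets `{((n, i), a, b) | a, b}` of size `m m'`. The minimal finite closed sets `Y` in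
the first summand have at most `r + r' + 2 m m'` elements: call `t` a cut if
no class of `cls r m` or `cls r' m'` contains elements `< t` and elements `≥ t`. If `Y` is minimal
then all elements of `Y` are on the same side of each cut; if `Y` is finite and `x` is its largest
element then `x + 1` is a cut; if `t ≥ max r r'` then `t` is a cut iff `t + m m'` is a cut.
Hence `σ d ∈ G σ c K` implies `c n = d n` for all `n > r + r' + 2`, so `S_IND` applies (the groups `NE`
are closed). -/
def S_TWO : Prop := ∀ r m r' m' : ℕ, 2 ≤ m → 2 ≤ m' → DCp (NE r m) (NE r' m')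

/-- PART NOP (helper71). -/
def S_NOP : Prop := ∀ G K : PG, Clo G → Clo K → ¬ Few G → ¬ Opn K → DCp G K

/-- the main theorem for groups (helper71) -/
def S_DC : Prop := ∀ G K : PG, Clo G → Clo K → DCc G K ∨ DCp G K

/-- PART CLS (helper71). The main theorem for classes of structures. The class is closed under
independent isomorphic changes of the relations with number in `I` and of the other ones. -/
def S_CLS : Prop := ∀ (a : ℕ → ℕ) (I : Set ℕ) (B : Set (Str a)), MeasurableSet B →
  (∀ x ∈ B, ∀ y : Str a, (∃ σ, PresI I x y σ) → (∃ τ, PresI Iᶜ x y τ) → y ∈ B) →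
  (∀ x ∈ B, Few (GrI I x) ∨ ∃ y ∈ B, (∀ i ∈ I, y i = x i) ∧ ¬ Opn (GrI Iᶜ y)) →
  (∀ x ∈ B, Few (GrI Iᶜ x) ∨ ∃ y ∈ B, (∀ i ∈ Iᶜ, y i = x i) ∧ ¬ Opn (GrI I y)) →
  (∃ f : ℕ → Str a, ∀ x ∈ B, ∃ n, Iso (f n) x) ∨ Perf B

end Pool.Agent.L7h71.FP
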