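import Pool.Agent.L7h71.FP.Stm
import Pool.Agent.L7h71.CC.Per

set_option autoImplicit false

/-!
The last part: from closed groups to classes of structures.
-/

namespace Pool.Agent.L7h71.FP

open Set Filter MeasureTheory
open Pool.Agent.L7h71.COV (Str Iso)
open Pool.Agent.L7h71.CC (Perf)

/-- the main theorem on groups -/
def S_GRP : Prop := ∀ G : PG, Clo G → Few G → Oli G ∧
  ∃ f : ℕ → ℕ → Bool, ∀ A : ℕ → Bool, ∃ n, ∃ g ∈ G, ∀ m, A (g m) = f n m

/-- PART A. Classes of structures closed under arbitrary changes of the unary relation `i₀`.

Proof. Suppose `B` has no perfect family. For `x ∈ B` let `G_x` be the group of the permutations which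
preserve all relations `i ≠ i₀` of `x`; it is closed. If not `Few G_x`, let `A` be the family, and let
`z c` be `x` with the relation `i₀` replaced by `A c`; it is in `B` and depends continuously on `c`. The
relation `Iso (z c) (z d)` is analytic (projection of a closed subset of the Polish space
`Cantor × Cantor × (ℕ → ℕ) × (ℕ → ℕ)`, a permutation being coded by itself and its inverse) and has
countable sections, so `Pool.Agent.H566W.perfect_independent` gives a perfect family in `B`. So `G_x` is
`Few`, and `S_GRP` applies to `G_x`.
Let `B₀` be the set of the members of `B` whose relation `i₀` is empty (a measurable invariant set).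
For finite tuples `u` in `x`, `v` in `y` of the same length define `(x, u) ≡_0 (y, v)` always, and
`(x, u) ≡_(m+1) (y, v)` iff the relations with number `≤ m` agree on `u` and `v` (for all tuples with
entries in `u` resp. `v`) and for each `u'` there is `v'` with `(x, u u') ≡_m (y, v v')` and vice
versa. These are equivalence relations with finitely many classes for each `m` and each length, and
for fixed `(y, v)` and `u` the set of the `x` with `(x, u) ≡_m (y, v)` is measurable. If `x, y ∈ B₀`
and `x ≡_m y` for all `m` (empty tuples) then `Iso x y`: if `(x, u) ≡_m (y, v)` for all `m` and `u'` is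
given, choose `v_m` with `(x, u u') ≡_m (y, v v_m)`; since `G_y` is `Oli`, infinitely many `v_m` are in
the same orbit of the stabiliser of `v`, so one of them is good for infinitely many `m`, so for
all `m`; now do a back and forth construction. Hence the sequence of the classes of `x` under
`≡_m`, `m ∈ ℕ`, is a measurable complete invariant with values in a Polish space on `B₀`, and
by `Pool.Agent.L7h71.CC.perf_of_inv` there are countably many types `x_n` in `B₀`. Every member of `B` is
isomorphic to some `x_n` with the relation `i₀` replaced by a subset, and by `S_GRP` for `G_(x_n)` there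
are countably many of these up to isomorphism. -/
def S_ASM : Prop := S_GRP → ∀ (a : ℕ → ℕ) (i₀ : ℕ), a i₀ = 1 → ∀ B : Set (Str a),
  MeasurableSet B → (∀ x y, Iso x y → (x ∈ B ↔ y ∈ B)) →
  (∀ x ∈ B, ∀ y : Str a, (∀ i, i ≠ i₀ → y i = x i) → y ∈ B) →
  (∃ f : ℕ → Str a, ∀ x ∈ B, ∃ n, Iso (f n) x) ∨ Perf B

end Pool.Agent.L7h71.FP
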