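import Pool.Agent.L7h71.FP.Grp

set_option autoImplicit false

/-!
Orbits of closed groups on the set of all subsets.
-/

namespace Pool.Agent.L7h71.FP

open Set Filter MeasureTheory
open Pool.Agent.L7h7.FP (cont_ev cont_evB)

theorem analytic_grp {G : PG} (hG : Clo G) {A : (ℕ → Bool) → ℕ → Bool} (hA : Continuous A) :
    AnalyticSet {p : (ℕ → Bool) × (ℕ → Bool) | ∃ g ∈ G, ∀ n, A p.2 (g n) = A p.1 n} := by
  let D : Set (((ℕ → Bool) × (ℕ → Bool)) × ((ℕ → ℕ) × (ℕ → ℕ))) :=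
    {q | (∀ n, q.2.1 (q.2.2 n) = n) ∧ (∀ n, q.2.2 (q.2.1 n) = n) ∧
      (∀ s : Finset ℕ, ∃ h ∈ G, ∀ i ∈ s, h i = q.2.1 i) ∧
      ∀ n, A q.1.2 (q.2.1 n) = A q.1.1 n}
  have hc1 : Continuous fun q : ((ℕ → Bool) × (ℕ → Bool)) × ((ℕ → ℕ) × (ℕ → ℕ)) => q.2.1 :=
    continuous_fst.comp continuous_snd
  have hc2 : Continuous fun q : ((ℕ → Bool) × (ℕ → Bool)) × ((ℕ → ℕ) × (ℕ → ℕ)) => q.2.2 :=
    continuous_snd.comp continuous_snd
  have hD : IsClosed D := by
    have e : D = (⋂ n, {q | q.2.1 (q.2.2 n) = n}) ∩ ((⋂ n, {q | q.2.2 (q.2.1 n) = n}) ∩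
        ((⋂ s : Finset ℕ, {q | ∃ h ∈ G, ∀ i ∈ s, h i = q.2.1 i}) ∩
          ⋂ n, {q | A q.1.2 (q.2.1 n) = A q.1.1 n})) := by
      ext q
      simp only [D, mem_ofPred_eq, mem_inter_iff, mem_iInter]
    rw [e]
    refine IsClosed.inter (isClosed_iInter fun n => ?_) (IsClosed.inter
      (isClosed_iInter fun n => ?_) (IsClosed.inter (isClosed_iInter fun s => ?_)
        (isClosed_iInter fun n => ?_)))
    · exact isClosed_eq (cont_ev hc1 ((continuous_apply n).comp hc2)) continuous_const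
    · exact isClosed_eq (cont_ev hc2 ((continuous_apply n).comp hc1)) continuous_const
    · have h1 : Continuous fun q : ((ℕ → Bool) × (ℕ → Bool)) × ((ℕ → ℕ) × (ℕ → ℕ)) =>
          (fun i : s => q.2.1 i) := by
        rw [continuous_pi_iff]
        intro j
        exact (continuous_apply j.1).comp hc1
      have h2 : {q : ((ℕ → Bool) × (ℕ → Bool)) × ((ℕ → ℕ) × (ℕ → ℕ)) |
          ∃ h ∈ G, ∀ i ∈ s, h i = q.2.1 i} =
          (fun q : ((ℕ → Bool) × (ℕ → Bool)) × ((ℕ → ℕ) × (ℕ → ℕ)) =>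
            (fun i : s => q.2.1 i)) ⁻¹' {w | ∃ h ∈ G, ∀ i : s, h i = w i} := by
        ext q
        constructor
        · rintro ⟨h, h1, h2⟩
          exact ⟨h, h1, fun i => h2 i.1 i.2⟩
        · rintro ⟨h, h1, h2⟩
          exact ⟨h, h1, fun i hi => h2 ⟨i, hi⟩⟩
      rw [h2]
      exact (isClosed_discrete _).preimage h1
    · refine isClosed_eq (cont_evB (hA.comp (continuous_snd.comp continuous_fst))
        ((continuous_apply n).comp hc1)) ?_
      exact (continuous_apply n).comp (hA.comp (continuous_fst.comp continuous_fst))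
  have e2 : {p : (ℕ → Bool) × (ℕ → Bool) | ∃ g ∈ G, ∀ n, A p.2 (g n) = A p.1 n} =
      Prod.fst '' D := by
    ext p
    constructor
    · rintro ⟨g, hg, h1⟩
      exact ⟨(p, (⇑g, ⇑g.symm)), ⟨fun n => g.apply_symm_apply n, fun n => g.symm_apply_apply n,
        fun s => ⟨g, hg, fun _ _ => rfl⟩, h1⟩, rfl⟩
    · rintro ⟨q, ⟨h1, h2, h3, h4⟩, rfl⟩
      exact ⟨⟨q.2.1, q.2.2, h2, h1⟩, hG _ h3, h4⟩
  rw [e2]
  have t1 : TopologicalSpace.IsCompletelyMetrizableSpace (ℕ → Bool) := inferInstance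
  have t2 : TopologicalSpace.SeparableSpace (ℕ → Bool) := inferInstance
  have t3 : PolishSpace (ℕ → Bool) :=
    @instPolishSpaceOfSeparableSpaceOfIsCompletelyMetrizableSpace _ _ t2 t1
  have t4 : PolishSpace (ℕ → ℕ) := inferInstance
  exact hD.analyticSet.image_of_continuous continuous_fst

/-- the dichotomy for the orbits of a closed group on subsets -/
theorem tvc (G : PG) (hG : Clo G) :
    (∃ f : ℕ → ℕ → Bool, ∀ A : ℕ → Bool, ∃ n, ∃ g ∈ G, ∀ m, A (g m) = f n m) ∨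
    (∃ A : (ℕ → Bool) → ℕ → Bool, Continuous A ∧
      ∀ c d, (∃ g ∈ G, ∀ n, A d (g n) = A c n) → c = d) := by
  by_cases h : Few G
  · exact Or.inl (s_grp G hG h).2
  · right
    unfold Few at h
    rw [not_not] at h
    obtain ⟨A, hA, hc⟩ := h
    obtain ⟨h, h1, h2⟩ := Pool.Agent.H566W.perfect_independent
      (fun c d => ∃ g ∈ G, ∀ n, A d (g n) = A c n) (analytic_grp hG hA) hc
    refine ⟨fun b => A (h b), hA.comp h1, fun b b' hi => ?_⟩
    by_contra hne
    exact h2 b b' hne hi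

end Pool.Agent.L7h71.FP
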