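import Mathlib

set_option autoImplicit false

/-!
Perfectly many subsets from classes of twins.
-/

namespace Pool.Agent.L7h71.FP

open Set Filter

variable {C : Type}

/-- isomorphism of the substructures on two sets for the colouring `t` of the pairs -/
def TIso (t : ℕ → ℕ → C) (A B : ℕ → Bool) : Prop :=
  ∃ g : ℕ → ℕ, BijOn g {n | A n = true} {n | B n = true} ∧
    ∀ u v, A u = true → A v = true → u ≠ v → t (g u) (g v) = t u v

/-- perfectly many infinite subsets -/
def PerfT (t : ℕ → ℕ → C) : Prop := ∃ A : (ℕ → Bool) → ℕ → Bool, Continuous A ∧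
  (∀ c, {n | A c n = true}.Infinite) ∧ ∀ c d, TIso t (A c) (A d) → c = d

/-- twins -/
def Tw (t : ℕ → ℕ → C) (A : ℕ → Bool) (u : ℕ) : Set ℕ :=
  {v | A v = true ∧ (v = u ∨ (t u v = t v u ∧ ∀ w, A w = true → w ≠ u → w ≠ v →
    t u w = t v w ∧ t w u = t w v))}

theorem Tw_iso {t : ℕ → ℕ → C} {A B : ℕ → Bool} {g : ℕ → ℕ}
    (hg : BijOn g {n | A n = true} {n | B n = true})
    (ht : ∀ u v, A u = true → A v = true → u ≠ v → t (g u) (g v) = t u v) {u : ℕ}
    (hu : A u = true) : (Tw t B (g u)).ncard = (Tw t A u).ncard := by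
  have hinj := hg.injOn
  have h1 : Tw t B (g u) = g '' Tw t A u := by
    ext w
    constructor
    · rintro ⟨hw, h⟩
      obtain ⟨v, hv, rfl⟩ := hg.surjOn hw
      refine ⟨v, ⟨hv, ?_⟩, rfl⟩
      rcases h with h | ⟨h1, h2⟩
      · exact Or.inl (hinj hv hu h)
      · by_cases hvu : v = u
        · exact Or.inl hvu
        refine Or.inr ⟨?_, fun w hw h3 h4 => ?_⟩
        · rw [ht u v hu hv (Ne.symm hvu), ht v u hv hu hvu] at h1
          exact h1
        · have h5 := h2 (g w) (hg.mapsTo hw) (fun h => h3 (hinj hw hu h))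
            (fun h => h4 (hinj hw hv h))
          rw [ht u w hu hw (Ne.symm h3), ht v w hv hw (Ne.symm h4), ht w u hw hu h3,
            ht w v hw hv h4] at h5
          exact h5
    · rintro ⟨v, ⟨hv, h⟩, rfl⟩
      refine ⟨hg.mapsTo hv, ?_⟩
      rcases h with rfl | ⟨h1, h2⟩
      · exact Or.inl rfl
      · by_cases hvu : v = u
        · exact Or.inl (by rw [hvu])
        refine Or.inr ⟨?_, fun w hw h3 h4 => ?_⟩
        · rw [ht u v hu hv (Ne.symm hvu), ht v u hv hu hvu]
          exact h1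
        · obtain ⟨w, hw', rfl⟩ := hg.surjOn hw
          replace hw' : A w = true := hw'
          have h5 : w ≠ u := fun h => h3 (by rw [h])
          have h6 : w ≠ v := fun h => h4 (by rw [h])
          rw [ht u w hu hw' h5.symm, ht v w hv hw' h6.symm, ht w u hw' hu h5, ht w v hw' hv h6]
          exact h2 w hw' h5 h6
  rw [h1]
  exact Set.InjOn.ncard_image (hinj.mono fun v hv => hv.1)

/-- the data of the construction -/
structure Rows (t : ℕ → ℕ → C) (F : ℕ → Bool → Finset ℕ) (y : ℕ → ℕ) (β : C) : Prop where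
  sub : ∀ k, F k false ⊆ F k true
  card : ∀ k b, (F k b).card = 8 * k + 4 + 4 * b.toNat
  disj : ∀ k l, k ≠ l → Disjoint (F k true) (F l true)
  yinj : Function.Injective y
  yF : ∀ k l, y k ∉ F l true
  const : ∀ k, ∃ μ, ∀ u ∈ F k true, ∀ v ∈ F k true, u ≠ v → t u v = μ
  uniF : ∀ k l, k ≠ l → ∀ u ∈ F k true, ∀ v ∈ F k true, ∀ w ∈ F l true,
    t u w = t v w ∧ t w u = t w v
  uniy : ∀ k l, ∀ u ∈ F k true, ∀ v ∈ F k true, t u (y l) = t v (y l) ∧ t (y l) u = t (y l) v
  eqb : ∀ k, ∀ u ∈ F k true, t (y k) u = β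
  neb : ∀ k l, k < l → ∀ u ∈ F l true, t (y k) u ≠ β

variable {t : ℕ → ℕ → C} {F : ℕ → Bool → Finset ℕ} {y : ℕ → ℕ} {β : C}

open Classical in
/-- the subsets -/
noncomputable def SA (F : ℕ → Bool → Finset ℕ) (y : ℕ → ℕ) (c : ℕ → Bool) (n : ℕ) : Bool :=
  decide ((∃ k, n = y k) ∨ ∃ k, n ∈ F k (c k))

theorem SA_iff {c : ℕ → Bool} {n : ℕ} :
    SA F y c n = true ↔ (∃ k, n = y k) ∨ ∃ k, n ∈ F k (c k) := by
  simp [SA]

theorem Rows.mono (h : Rows t F y β) {k : ℕ} {b : Bool} {n : ℕ} (hn : n ∈ F k b) :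
    n ∈ F k true := by
  cases b
  · exact h.sub k hn
  · exact hn

theorem Rows.uniq (h : Rows t F y β) {k l : ℕ} {b b' : Bool} {n : ℕ} (hn : n ∈ F k b)
    (hn' : n ∈ F l b') : k = l := by
  by_contra hne
  exact Finset.disjoint_left.1 (h.disj k l hne) (h.mono hn) (h.mono hn')

theorem Rows.continuous (h : Rows t F y β) : Continuous (SA F y) := by
  classical
  refine continuous_pi fun n => ?_
  by_cases h1 : ∃ k, n = y k
  · have : (fun c => SA F y c n) = fun _ => true := by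
      funext c
      rw [SA_iff]
      exact Or.inl h1
    rw [this]
    exact continuous_const
  · by_cases h2 : ∃ k, n ∈ F k true
    · obtain ⟨k, hk⟩ := h2
      have : (fun c => SA F y c n) = fun c => decide (n ∈ F k (c k)) := by
        funext c
        rw [Bool.eq_iff_iff, SA_iff, decide_eq_true_iff]
        constructor
        · rintro (h3 | ⟨l, hl⟩)
          · exact absurd h3 h1
          · rw [h.uniq hk hl]; exact hl
        · exact fun h3 => Or.inr ⟨k, h3⟩
      rw [this]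
      exact (continuous_of_discreteTopology (f := fun b => decide (n ∈ F k b))).comp
        (continuous_apply k)
    · have : (fun c => SA F y c n) = fun _ => false := by
        funext c
        rw [Bool.eq_false_iff, Ne, SA_iff]
        rintro (h3 | ⟨l, hl⟩)
        · exact h1 h3
        · exact h2 ⟨l, h.mono hl⟩
      rw [this]
      exact continuous_const

theorem Rows.ne (h : Rows t F y β) {k : ℕ} {b : Bool} : (F k b).Nonempty := by
  rw [← Finset.card_pos, h.card]
  omega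

theorem Rows.mem_y (_ : Rows t F y β) (c : ℕ → Bool) (k : ℕ) : SA F y c (y k) = true :=
  SA_iff.2 (Or.inl ⟨k, rfl⟩)

theorem Rows.mem_F {c : ℕ → Bool} {k n : ℕ} (hn : n ∈ F k (c k)) : SA F y c n = true :=
  SA_iff.2 (Or.inr ⟨k, hn⟩)

/-- the members of a row are twins -/
theorem Rows.tw (h : Rows t F y β) {c : ℕ → Bool} {k u v : ℕ} (hu : u ∈ F k (c k))
    (hv : v ∈ F k (c k)) : v ∈ Tw t (SA F y c) u := by
  refine ⟨Rows.mem_F hv, ?_⟩
  by_cases hvu : v = u
  · exact Or.inl hvu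
  obtain ⟨μ, hμ⟩ := h.const k
  refine Or.inr ⟨?_, fun w hw h1 h2 => ?_⟩
  · rw [hμ u (h.mono hu) v (h.mono hv) (Ne.symm hvu), hμ v (h.mono hv) u (h.mono hu) hvu]
  · rcases SA_iff.1 hw with ⟨l, rfl⟩ | ⟨l, hl⟩
    · exact h.uniy k l u (h.mono hu) v (h.mono hv)
    · by_cases hkl : k = l
      · subst hkl
        rw [hμ u (h.mono hu) w (h.mono hl) (Ne.symm h1), hμ v (h.mono hv) w (h.mono hl) (Ne.symm h2),
          hμ w (h.mono hl) u (h.mono hu) h1, hμ w (h.mono hl) v (h.mono hv) h2]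
        exact ⟨rfl, rfl⟩
      · exact h.uniF k l hkl u (h.mono hu) v (h.mono hv) w (h.mono hl)

/-- the members of different rows are not twins -/
theorem Rows.ntw (h : Rows t F y β) {c : ℕ → Bool} {k l u v : ℕ} (hkl : k < l)
    (hu : u ∈ F k (c k)) (hv : v ∈ F l (c l)) : v ∉ Tw t (SA F y c) u ∧ u ∉ Tw t (SA F y c) v := by
  have h0 : u ≠ v := by
    rintro rfl
    exact (ne_of_lt hkl) (h.uniq hu hv)
  have h1 : y k ≠ u := fun h2 => h.yF k k (h2 ▸ h.mono hu)
  have h2 : y k ≠ v := fun h2 => h.yF k l (h2 ▸ h.mono hv)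
  have h3 := h.eqb k u (h.mono hu)
  have h4 := h.neb k l hkl v (h.mono hv)
  constructor
  · rintro ⟨-, h5 | ⟨-, h5⟩⟩
    · exact h0 h5.symm
    · have := (h5 (y k) (h.mem_y c k) h1 h2).2
      rw [h3] at this
      exact h4 this.symm
  · rintro ⟨-, h5 | ⟨-, h5⟩⟩
    · exact h0 h5
    · have := (h5 (y k) (h.mem_y c k) h2 h1).2
      rw [h3] at this
      exact h4 this

/-- no two of the parameters are twins -/
theorem Rows.ntwy (h : Rows t F y β) {c : ℕ → Bool} {k l : ℕ} (hkl : k < l) :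
    y l ∉ Tw t (SA F y c) (y k) ∧ y k ∉ Tw t (SA F y c) (y l) := by
  obtain ⟨x, hx⟩ := h.ne (k := l) (b := c l)
  have h1 : x ≠ y k := fun h2 => h.yF k l (h2 ▸ h.mono hx)
  have h2 : x ≠ y l := fun h2 => h.yF l l (h2 ▸ h.mono hx)
  have h3 := h.eqb l x (h.mono hx)
  have h4 := h.neb k l hkl x (h.mono hx)
  have h0 : y k ≠ y l := fun h5 => (ne_of_lt hkl) (h.yinj h5)
  constructor
  · rintro ⟨-, h5 | ⟨-, h5⟩⟩
    · exact h0 h5.symm
    · have := (h5 x (Rows.mem_F hx) h1 h2).1
      rw [h3] at this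
      exact h4 this
  · rintro ⟨-, h5 | ⟨-, h5⟩⟩
    · exact h0 h5
    · have := (h5 x (Rows.mem_F hx) h2 h1).1
      rw [h3] at this
      exact h4 this.symm

theorem Tw_symm {A : ℕ → Bool} {u v : ℕ} (hu : A u = true) (h : v ∈ Tw t A u) : u ∈ Tw t A v := by
  obtain ⟨h1, h2 | ⟨h2, h3⟩⟩ := h
  · exact ⟨hu, Or.inl h2.symm⟩
  · exact ⟨hu, Or.inr ⟨h2.symm, fun w hw h4 h5 => ⟨(h3 w hw h5 h4).1.symm, (h3 w hw h5 h4).2.symm⟩⟩⟩

theorem Tw_trans {A : ℕ → Bool} {u v w : ℕ} (hu : A u = true) (h : v ∈ Tw t A u)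
    (h' : w ∈ Tw t A v) : w ∈ Tw t A u := by
  obtain ⟨h1, h2 | ⟨h2, h3⟩⟩ := h
  · rw [← h2]; exact h'
  obtain ⟨h1', h2' | ⟨h2', h3'⟩⟩ := h'
  · rw [h2']; exact ⟨h1, Or.inr ⟨h2, h3⟩⟩
  refine ⟨h1', ?_⟩
  by_cases hwu : w = u
  · exact Or.inl hwu
  by_cases hvu : v = u
  · subst hvu
    exact Or.inr ⟨h2', h3'⟩
  by_cases hvw : v = w
  · subst hvw
    exact Or.inr ⟨h2, h3⟩
  -- all three are different
  have e1 := h3 w h1' hwu (Ne.symm hvw)
  have e2 := h3' u hu (Ne.symm hvu) (Ne.symm hwu)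
  refine Or.inr ⟨?_, fun x hx h4 h5 => ?_⟩
  · calc t u w = t v w := e1.1
      _ = t w v := h2'
      _ = t w u := e1.2.symm
  · by_cases hxv : x = v
    · subst hxv
      refine ⟨?_, ?_⟩
      · calc t u x = t u w := e2.2
          _ = t x w := e1.1
          _ = t w x := h2'
      · calc t x u = t w u := e2.1
          _ = t w x := e1.2
          _ = t x w := h2'.symm
    · have e3 := h3 x hx h4 hxv
      have e4 := h3' x hx hxv h5
      exact ⟨e3.1.trans e4.1, e3.2.trans e4.2⟩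

/-- the sizes of the classes of twins -/
theorem Rows.ncard_row (h : Rows t F y β) {c : ℕ → Bool} {k u : ℕ} (hu : u ∈ F k (c k)) :
    (Tw t (SA F y c) u).ncard = (F k (c k)).card ∨
      (Tw t (SA F y c) u).ncard = (F k (c k)).card + 1 := by
  classical
  have hsub : (F k (c k) : Set ℕ) ⊆ Tw t (SA F y c) u := fun v hv => h.tw hu hv
  by_cases hy : ∃ j, y j ∈ Tw t (SA F y c) u
  · obtain ⟨j, hj⟩ := hy
    right
    have : Tw t (SA F y c) u = insert (y j) (F k (c k) : Set ℕ) := by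
      refine Subset.antisymm ?_ (insert_subset hj hsub)
      intro v hv
      rcases SA_iff.1 hv.1 with ⟨l, rfl⟩ | ⟨l, hl⟩
      · rcases lt_trichotomy j l with h1 | h1 | h1
        · exact absurd (Tw_trans (h.mem_y c j) (Tw_symm (Rows.mem_F hu) hj) hv) (h.ntwy h1).1
        · rw [h1]; exact mem_insert _ _
        · exact absurd (Tw_trans (h.mem_y c j) (Tw_symm (Rows.mem_F hu) hj) hv) (h.ntwy h1).2
      · rcases lt_trichotomy k l with h1 | h1 | h1
        · exact absurd hv (h.ntw h1 hu hl).1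
        · subst h1; exact mem_insert_of_mem _ hl
        · exact absurd hv (h.ntw h1 hl hu).2
    rw [this, Set.ncard_insert_of_notMem (fun h1 => h.yF j k (h.mono h1)), Set.ncard_coe_finset]
  · left
    have : Tw t (SA F y c) u = (F k (c k) : Set ℕ) := by
      refine Subset.antisymm ?_ hsub
      intro v hv
      rcases SA_iff.1 hv.1 with ⟨l, rfl⟩ | ⟨l, hl⟩
      · exact absurd ⟨l, hv⟩ hy
      · rcases lt_trichotomy k l with h1 | h1 | h1
        · exact absurd hv (h.ntw h1 hu hl).1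
        · subst h1; exact hl
        · exact absurd hv (h.ntw h1 hl hu).2
    rw [this, Set.ncard_coe_finset]

theorem Rows.ncard_y (h : Rows t F y β) {c : ℕ → Bool} {j : ℕ} :
    (Tw t (SA F y c) (y j)).ncard = 1 ∨
      ∃ k, ∃ u ∈ F k (c k), (Tw t (SA F y c) (y j)).ncard = (Tw t (SA F y c) u).ncard := by
  classical
  by_cases h1 : ∃ k, ∃ u ∈ F k (c k), u ∈ Tw t (SA F y c) (y j)
  · right
    obtain ⟨k, u, hu, h2⟩ := h1
    refine ⟨k, u, hu, ?_⟩
    congr 1
    ext v
    exact ⟨fun h3 => Tw_trans (Rows.mem_F hu) (Tw_symm (h.mem_y c j) h2) h3,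
      fun h3 => Tw_trans (h.mem_y c j) h2 h3⟩
  · left
    have : Tw t (SA F y c) (y j) = {y j} := by
      refine Subset.antisymm ?_ (singleton_subset_iff.2 ⟨h.mem_y c j, Or.inl rfl⟩)
      intro v hv
      rcases SA_iff.1 hv.1 with ⟨l, rfl⟩ | ⟨l, hl⟩
      · rcases lt_trichotomy j l with h2 | h2 | h2
        · exact absurd hv (h.ntwy h2).1
        · rw [h2]; exact mem_singleton _
        · exact absurd hv (h.ntwy h2).2
      · exact absurd ⟨l, v, hl, hv⟩ h1
    rw [this, Set.ncard_singleton]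

/-- rows give perfectly many subsets -/
theorem Rows.perf (h : Rows t F y β) : PerfT t := by
  refine ⟨SA F y, h.continuous, fun c => ?_, ?_⟩
  · exact (Set.infinite_range_of_injective h.yinj).mono (by rintro _ ⟨k, rfl⟩; exact h.mem_y c k)
  · have key : ∀ c d, TIso t (SA F y c) (SA F y d) → ∀ k, c k = d k := by
      rintro c d ⟨g, hg, ht⟩ k
      obtain ⟨u, hu⟩ := h.ne (k := k) (b := c k)
      have h1 := Tw_iso hg ht (Rows.mem_F hu)
      have h2 := h.ncard_row hu
      have h3 : ∃ l, ∃ v ∈ F l (d l), (Tw t (SA F y d) (g u)).ncard = (Tw t (SA F y d) v).ncard := by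
        rcases SA_iff.1 (hg.mapsTo (Rows.mem_F hu)) with ⟨j, hj⟩ | ⟨l, hl⟩
        · rcases h.ncard_y (c := d) (j := j) with h4 | h4
          · rw [hj] at h1
            rw [h4] at h1
            rw [h.card] at h2
            omega
          · rw [hj]; exact h4
        · exact ⟨l, g u, hl, rfl⟩
      obtain ⟨l, v, hv, h4⟩ := h3
      have h5 := h.ncard_row hv
      rw [h.card] at h2 h5
      rw [h4] at h1
      have h6 : k = l ∧ (c k).toNat = (d l).toNat := by
        have := (c k).toNat_le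
        have := (d l).toNat_le
        omega
      obtain ⟨rfl, h6⟩ := h6
      revert h6
      cases c k <;> cases d k <;> simp
    intro c d hcd
    funext k
    exact key c d hcd k

end Pool.Agent.L7h71.FP
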